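import Mathlib
set_option autoImplicit false

/-! The change of variables `x ↦ κ x^2` in the plane. -/

namespace Pool.Agent.Y250.AN

open MeasureTheory Set Complex
open scoped ENNReal NNReal

lemma det_mul (c : ℂ) : (((ContinuousLinearMap.toSpanSingleton ℂ c).restrictScalars ℝ : ℂ →L[ℝ] ℂ)).det =
    ‖c‖ ^ 2 := by
  have h1 : (((ContinuousLinearMap.toSpanSingleton ℂ c).restrictScalars ℝ : ℂ →L[ℝ] ℂ)).det =
      LinearMap.det (((ContinuousLinearMap.toSpanSingleton ℂ c : ℂ →L[ℂ] ℂ) : ℂ →ₗ[ℂ] ℂ).restrictScalars ℝ) := rfl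
  rw [h1, LinearMap.det_restrictScalars]
  rw [Algebra.norm_complex_apply, Complex.normSq_eq_norm_sq]
  congr 2
  simp

/-- half plane version -/
lemma sq_cov_half (κ : ℝ) (hκ : κ ≠ 0) (F : ℂ → ℝ≥0∞) :
    ∫⁻ x in {x : ℂ | 0 < x.re}, ENNReal.ofReal (4 * κ ^ 2 * ‖x‖ ^ 2) * F (κ * x ^ 2) ≤ ∫⁻ y, F y := by
  have hs : MeasurableSet {x : ℂ | 0 < x.re} := measurableSet_lt measurable_const Complex.measurable_re
  have hd : ∀ x ∈ {x : ℂ | 0 < x.re}, HasFDerivWithinAt (fun x : ℂ => (κ : ℂ) * x ^ 2)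
      ((ContinuousLinearMap.toSpanSingleton ℂ (2 * κ * x)).restrictScalars ℝ : ℂ →L[ℝ] ℂ)
      {x : ℂ | 0 < x.re} x := by
    intro x _
    have h1 : HasDerivAt (fun x : ℂ => (κ : ℂ) * x ^ 2) (2 * κ * x) x := by
      have := (hasDerivAt_pow 2 x).const_mul (κ : ℂ)
      have e : (2 * κ * x : ℂ) = (κ : ℂ) * (((2 : ℕ) : ℂ) * x ^ (2 - 1)) := by
        simp
        ring
      rw [e]
      exact this
    exact (h1.hasFDerivAt.restrictScalars ℝ).hasFDerivWithinAt
  have hinj : InjOn (fun x : ℂ => (κ : ℂ) * x ^ 2) {x : ℂ | 0 < x.re} := by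
    intro x hx y hy h
    simp only at h
    have hκ' : (κ : ℂ) ≠ 0 := by exact_mod_cast hκ
    have h2 : x ^ 2 = y ^ 2 := mul_left_cancel₀ hκ' h
    rcases sq_eq_sq_iff_eq_or_eq_neg.1 h2 with h3 | h3
    · exact h3
    · exfalso
      have : x.re = -y.re := by rw [h3]; simp
      have hx' : 0 < x.re := hx
      have hy' : 0 < y.re := hy
      linarith
  have h := lintegral_image_eq_lintegral_abs_det_fderiv_mul volume hs hd hinj F
  calc _ = ∫⁻ x in {x : ℂ | 0 < x.re}, ENNReal.ofReal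
          |((ContinuousLinearMap.toSpanSingleton ℂ (2 * κ * x)).restrictScalars ℝ : ℂ →L[ℝ] ℂ).det| *
          F (κ * x ^ 2) := by
        apply lintegral_congr
        intro x
        rw [det_mul, abs_of_nonneg (by positivity)]
        congr 2
        rw [norm_mul, norm_mul, Complex.norm_real, Real.norm_eq_abs, Complex.norm_ofNat, mul_pow, mul_pow, sq_abs]
        ring
    _ = ∫⁻ y in (fun x : ℂ => (κ : ℂ) * x ^ 2) '' {x : ℂ | 0 < x.re}, F y := h.symm
    _ ≤ _ := setLIntegral_le_lintegral _ _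

/-- the change of variables -/
theorem sq_cov (κ : ℝ) (hκ : κ ≠ 0) (F : ℂ → ℝ≥0∞) :
    ∫⁻ x, ENNReal.ofReal (4 * κ ^ 2 * ‖x‖ ^ 2) * F (κ * x ^ 2) ≤ 2 * ∫⁻ y, F y := by
  have hs : MeasurableSet {x : ℂ | 0 < x.re} := measurableSet_lt measurable_const Complex.measurable_re
  set G : ℂ → ℝ≥0∞ := fun x => ENNReal.ofReal (4 * κ ^ 2 * ‖x‖ ^ 2) * F (κ * x ^ 2) with hG
  have hGn : ∀ x, G (-x) = G x := by
    intro x
    simp only [hG]
    rw [norm_neg, neg_sq]
  have h1 : ∫⁻ x in {x : ℂ | x.re < 0}, G x = ∫⁻ x in {x : ℂ | 0 < x.re}, G x := by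
    have hmp : MeasurePreserving (fun x : ℂ => -x) volume volume := Measure.measurePreserving_neg _
    have h2 := hmp.setLIntegral_comp_preimage_emb (MeasurableEquiv.neg ℂ).measurableEmbedding G
      {x : ℂ | 0 < x.re}
    rw [← h2]
    simp only [hGn]
    congr 2
    ext x
    simp
  have h3 : volume {x : ℂ | x.re = 0} = 0 := by
    have e : {x : ℂ | x.re = 0} = (LinearMap.ker (Complex.reLm) : Submodule ℝ ℂ) := by
      ext x
      simp
    rw [e]
    apply Measure.addHaar_submodule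
    intro h
    have : (1 : ℂ) ∈ (LinearMap.ker (Complex.reLm) : Submodule ℝ ℂ) := by rw [h]; trivial
    simp at this
  have h4 : ∫⁻ x, G x = (∫⁻ x in {x : ℂ | 0 < x.re}, G x) + (∫⁻ x in {x : ℂ | x.re < 0}, G x) := by
    rw [← lintegral_add_compl G hs]
    congr 1
    apply setLIntegral_congr
    have e : {x : ℂ | 0 < x.re}ᶜ = {x : ℂ | x.re < 0} ∪ {x : ℂ | x.re = 0} := by
      ext x
      simp [le_iff_lt_or_eq]
    rw [e]
    exact union_ae_eq_left_of_ae_eq_empty (ae_eq_empty.2 h3)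
  have h5 := sq_cov_half κ hκ F
  rw [h4, h1, two_mul]
  exact add_le_add h5 h5

end Pool.Agent.Y250.AN
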