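import Mathlib
import Pool.Agent.H789R2.FR.E4
set_option autoImplicit false

/-! Circle extension with doubled angle: weighted `L^4` bound. -/

namespace Pool.Agent.Y250.AN

open MeasureTheory Set Complex
open scoped ENNReal NNReal

/-- `e^{ir}` -/
noncomputable def ee (r : ℝ) : ℂ := cexp ((r : ℂ) * I)

/-- real inner product of the plane -/
def dt (x y : ℂ) : ℝ := x.re * y.re + x.im * y.im

lemma norm_ee (r : ℝ) : ‖ee r‖ = 1 := by
  unfold ee; exact Complex.norm_exp_ofReal_mul_I _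

lemma ee_add (r s : ℝ) : ee (r + s) = ee r * ee s := by
  unfold ee; rw [← Complex.exp_add]; congr 1; push_cast; ring

lemma ee_re (r : ℝ) : (ee r).re = Real.cos r := by
  unfold ee; exact Complex.exp_ofReal_mul_I_re r

lemma ee_im (r : ℝ) : (ee r).im = Real.sin r := by
  unfold ee; exact Complex.exp_ofReal_mul_I_im r

lemma ee_cont : Continuous ee := by
  unfold ee; fun_prop

lemma ee_meas : Measurable ee := ee_cont.measurable

lemma dt_eq (x y : ℂ) : dt x y = (x * (starRingEnd ℂ) y).re := by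
  unfold dt; simp

lemma dt_cont : Continuous (fun p : ℂ × ℂ => dt p.1 p.2) := by
  unfold dt; fun_prop

lemma dt_mul_right (x y u : ℂ) (hu : ‖u‖ = 1) : dt (x * u) (y * u) = dt x y := by
  rw [dt_eq, dt_eq]
  have : x * u * (starRingEnd ℂ) (y * u) = x * (starRingEnd ℂ) y * (u * (starRingEnd ℂ) u) := by
    rw [map_mul]; ring
  rw [this, Complex.mul_conj, Complex.normSq_eq_norm_sq, hu]
  simp

lemma dt_abs_le (x y : ℂ) : |dt x y| ≤ ‖x‖ * ‖y‖ := by
  rw [dt_eq]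
  refine (Complex.abs_re_le_norm _).trans ?_
  rw [norm_mul, RCLike.norm_conj]

/-- circle extension with doubled angle -/
noncomputable def Cx (b : ℝ → ℂ) (ζ : ℂ) : ℂ :=
  ∫ θ in Ioo (-Real.pi) Real.pi, ee (dt ζ (ee (2 * θ))) * b θ

/-- part of the arc near `α` -/
noncomputable def Ar (b : ℝ → ℂ) (α : ℝ) (ζ : ℂ) : ℂ :=
  ∫ θ in Ioo (α - Real.pi / 12) (α + Real.pi / 12), ee (dt ζ (ee (2 * θ))) * b θ

open Pool.Agent.H789R2.FR in
/-- the density in the variable `c` -/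
noncomputable def ba (b : ℝ → ℂ) (α : ℝ) (c : ℝ) : ℂ :=
  (Ioo (-(1/2) : ℝ) (1/2)).indicator (fun c => ((1 / (2 * sc c) : ℝ) : ℂ) * b (α + Real.arcsin c / 2)) c

open Pool.Agent.H789R2.FR in
lemma sc_low (c : ℝ) (hc : c ∈ Ioo (-(1/2) : ℝ) (1/2)) : 3 / 4 < sc c ^ 2 ∧ 1 / 2 < sc c ∧ sc c ≤ 1 := by
  have h1 : c ^ 2 < 1 / 4 := by nlinarith [hc.1, hc.2]
  have h2 : 0 ≤ 1 - c ^ 2 := by linarith
  have h3 : sc c ^ 2 = 1 - c ^ 2 := Real.sq_sqrt h2
  have h4 : 0 ≤ sc c := Real.sqrt_nonneg _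
  refine ⟨by rw [h3]; linarith, ?_, ?_⟩
  · by_contra h; push Not at h; nlinarith
  · by_contra h; push Not at h; nlinarith [sq_nonneg c]

open Pool.Agent.H789R2.FR in
lemma arc_image (α : ℝ) : (fun c : ℝ => α + Real.arcsin c / 2) '' Ioo (-(1/2) : ℝ) (1/2) =
    Ioo (α - Real.pi / 12) (α + Real.pi / 12) := by
  have e1 : Real.arcsin (1/2) = Real.pi / 6 := by
    rw [← Real.sin_pi_div_six, Real.arcsin_sin] <;> linarith [Real.pi_pos]
  have e2 : Real.arcsin (-(1/2)) = -(Real.pi / 6) := by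
    rw [Real.arcsin_neg, e1]
  ext θ
  constructor
  · rintro ⟨c, hc, rfl⟩
    have h1 : Real.arcsin c < Real.pi / 6 := by
      rw [← e1]
      exact Real.strictMonoOn_arcsin ⟨by linarith [hc.1], by linarith [hc.2]⟩
        ⟨by norm_num, by norm_num⟩ hc.2
    have h2 : -(Real.pi / 6) < Real.arcsin c := by
      rw [← e2]
      exact Real.strictMonoOn_arcsin ⟨by norm_num, by norm_num⟩
        ⟨by linarith [hc.1], by linarith [hc.2]⟩ hc.1
    constructor <;> simp only <;> linarith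
  · intro h
    refine ⟨Real.sin (2 * (θ - α)), ?_, ?_⟩
    · have h1 : Real.sin (Real.pi / 6) = 1 / 2 := Real.sin_pi_div_six
      have h2 : Real.sin (-(Real.pi / 6)) = -(1 / 2) := by rw [Real.sin_neg, h1]
      constructor
      · rw [← h2]
        apply Real.strictMonoOn_sin ⟨by linarith [Real.pi_pos], by linarith [Real.pi_pos]⟩
          ⟨by linarith [Real.pi_pos, h.1], by linarith [Real.pi_pos, h.2]⟩
        linarith [h.1]
      · rw [← h1]
        apply Real.strictMonoOn_sin 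
          ⟨by linarith [Real.pi_pos, h.1], by linarith [Real.pi_pos, h.2]⟩ ⟨by linarith [Real.pi_pos], by linarith [Real.pi_pos]⟩
        linarith [h.2]
    · simp only
      rw [Real.arcsin_sin] <;> linarith [Real.pi_pos, h.1, h.2]

lemma arc_inj (α : ℝ) : InjOn (fun c : ℝ => α + Real.arcsin c / 2) (Ioo (-(1/2) : ℝ) (1/2)) := by
  intro c hc d hd h
  simp only at h
  have h1 : Real.arcsin c = Real.arcsin d := by linarith
  exact Real.injOn_arcsin ⟨by linarith [hc.1], by linarith [hc.2]⟩ ⟨by linarith [hd.1], by linarith [hd.2]⟩ h1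

open Pool.Agent.H789R2.FR in
lemma arc_deriv (α : ℝ) (c : ℝ) (hc : c ∈ Ioo (-(1/2) : ℝ) (1/2)) :
    HasDerivWithinAt (fun c : ℝ => α + Real.arcsin c / 2) (1 / (2 * sc c)) (Ioo (-(1/2) : ℝ) (1/2)) c := by
  have n1 : c ≠ -1 := by intro h; linarith [hc.1]
  have n2 : c ≠ 1 := by intro h; linarith [hc.2]
  have h := ((Real.hasDerivAt_arcsin n1 n2).div_const 2).const_add α
  have e : 1 / (2 * sc c) = 1 / Real.sqrt (1 - c ^ 2) / 2 := by
    unfold sc
    rw [div_div, mul_comm]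
  rw [e]
  exact h.hasDerivWithinAt

open Pool.Agent.H789R2.FR in
lemma Ar_eq (b : ℝ → ℂ) (α : ℝ) (ζ : ℂ) :
    Ar b α ζ = Ex (ba b α) (-(ζ * ee (-(2 * α))).re) (-(ζ * ee (-(2 * α))).im) := by
  unfold Ar
  rw [← arc_image α, integral_image_eq_integral_abs_deriv_smul measurableSet_Ioo (arc_deriv α)
    (arc_inj α)]
  unfold Ex
  rw [← integral_indicator measurableSet_Ioo, ← integral_indicator measurableSet_Ioo]
  congr 1
  ext c
  by_cases hc : c ∈ Ioo (-(1/2) : ℝ) (1/2)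
  · have hc' : c ∈ Ioo (-1 : ℝ) 1 := ⟨by linarith [hc.1], by linarith [hc.2]⟩
    rw [indicator_of_mem hc, indicator_of_mem hc']
    unfold ba
    rw [indicator_of_mem hc]
    have hs := sc_low c hc
    have hs0 : 0 < 1 / (2 * sc c) := by
      have := hs.2.1
      positivity
    rw [abs_of_pos hs0]
    have key : dt ζ (ee (2 * (α + Real.arcsin c / 2))) =
        (ζ * ee (-(2 * α))).re * sc c + (ζ * ee (-(2 * α))).im * c := by
      have e1 : dt ζ (ee (2 * (α + Real.arcsin c / 2))) =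
          dt (ζ * ee (-(2 * α))) (ee (2 * (α + Real.arcsin c / 2)) * ee (-(2 * α))) :=
        (dt_mul_right _ _ _ (norm_ee _)).symm
      rw [e1, ← ee_add, show 2 * (α + Real.arcsin c / 2) + -(2 * α) = Real.arcsin c by ring]
      unfold dt
      rw [ee_re, ee_im, Real.cos_arcsin, Real.sin_arcsin (by linarith [hc.1]) (by linarith [hc.2])]
      rfl
    rw [key]
    simp only [Complex.real_smul]
    unfold ee
    have : (-(((-(ζ * cexp (((-(2 * α) : ℝ) : ℂ) * I)).re * sc c + -(ζ * cexp (((-(2 * α) : ℝ) : ℂ) * I)).im * c : ℝ)) : ℂ) * I) =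
      ((((ζ * cexp (((-(2 * α) : ℝ) : ℂ) * I)).re * sc c + (ζ * cexp (((-(2 * α) : ℝ) : ℂ) * I)).im * c : ℝ)) : ℂ) * I := by
      push_cast
      ring
    rw [this]
    ring
  · rw [indicator_of_notMem hc]
    symm
    by_cases hc' : c ∈ Ioo (-1 : ℝ) 1
    · rw [indicator_of_mem hc']
      unfold ba
      rw [indicator_of_notMem hc, mul_zero]
    · rw [indicator_of_notMem hc']

lemma ba_meas (b : ℝ → ℂ) (hb : Measurable b) (α : ℝ) : Measurable (ba b α) := by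
  unfold ba
  have := Pool.Agent.H789R2.FR.E4w.sc_meas
  refine Measurable.indicator ?_ measurableSet_Ioo
  have h2 : Measurable fun c : ℝ => b (α + Real.arcsin c / 2) :=
    hb.comp (by have := Real.measurable_arcsin; fun_prop)
  fun_prop

open Pool.Agent.H789R2.FR in
lemma ba_bdd (b : ℝ → ℂ) (B : ℝ) (hB : ∀ θ, ‖b θ‖ ≤ B) (α c : ℝ) : ‖ba b α c‖ ≤ B := by
  have hB0 : 0 ≤ B := (norm_nonneg _).trans (hB 0)
  unfold ba
  by_cases hc : c ∈ Ioo (-(1/2) : ℝ) (1/2)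
  · rw [indicator_of_mem hc, norm_mul, Complex.norm_real]
    have hs := sc_low c hc
    have hs0 : 0 < 1 / (2 * sc c) := by
      have := hs.2.1
      positivity
    rw [Real.norm_eq_abs, abs_of_pos hs0]
    have h1 : 1 / (2 * sc c) ≤ 1 := by
      rw [div_le_one (by linarith [hs.2.1])]
      linarith [hs.2.1]
    calc _ ≤ 1 * B := mul_le_mul h1 (hB _) (norm_nonneg _) zero_le_one
      _ = B := one_mul B
  · rw [indicator_of_notMem hc, norm_zero]
    exact hB0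

open Pool.Agent.H789R2.FR in
lemma ba_supp (b : ℝ → ℂ) (α c : ℝ) (hc : c ∉ band 1) : ba b α c = 0 := by
  unfold ba
  apply indicator_of_notMem
  intro h
  apply hc
  have hs := sc_low c h
  refine ⟨abs_lt.2 ⟨by linarith [h.1], by linarith [h.2]⟩, hs.2.1, hs.2.2⟩

open Pool.Agent.H789R2.FR in
lemma ba_l2 (b : ℝ → ℂ) (hb : Measurable b) (B : ℝ) (hB : ∀ θ, ‖b θ‖ ≤ B) (α : ℝ) :
    ENNReal.ofReal (∫ c, ‖ba b α c‖ ^ 2) ≤
      ∫⁻ θ in Ioo (α - Real.pi / 12) (α + Real.pi / 12), ‖b θ‖ₑ ^ 2 := by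
  rw [← arc_image α, lintegral_image_eq_lintegral_abs_deriv_mul measurableSet_Ioo (arc_deriv α)
    (arc_inj α)]
  have h1 : Integrable fun c => ‖ba b α c‖ ^ 2 := by
    have h2 : IntegrableOn (fun c => ‖ba b α c‖ ^ 2) (Icc (-1 : ℝ) 1) := by
      refine Measure.integrableOn_of_bounded (M := B ^ 2) (by simp)
        ((ba_meas b hb α).norm.pow_const 2).aestronglyMeasurable
        (Filter.Eventually.of_forall fun c => ?_)
      rw [Real.norm_eq_abs, abs_pow, abs_norm]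
      exact pow_le_pow_left₀ (norm_nonneg _) (ba_bdd b B hB α c) 2
    apply h2.integrable_of_forall_notMem_eq_zero
    intro c hc
    have : ba b α c = 0 := by
      unfold ba
      apply indicator_of_notMem
      intro h
      exact hc ⟨by linarith [h.1], by linarith [h.2]⟩
    simp [this]
  rw [ofReal_integral_eq_lintegral_ofReal h1 (Filter.Eventually.of_forall fun c => by positivity),
    ← lintegral_indicator measurableSet_Ioo]
  apply lintegral_mono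
  intro c
  by_cases hc : c ∈ Ioo (-(1/2) : ℝ) (1/2)
  · simp only [indicator_of_mem hc]
    unfold ba
    rw [indicator_of_mem hc, norm_mul, Complex.norm_real]
    have hs := sc_low c hc
    have hs0 : 0 < 1 / (2 * sc c) := by
      have := hs.2.1
      positivity
    have h1 : 1 / (2 * sc c) ≤ 1 := by
      rw [div_le_one (by linarith [hs.2.1])]
      linarith [hs.2.1]
    rw [Real.norm_eq_abs, abs_of_pos hs0, mul_pow, ENNReal.ofReal_mul (by positivity)]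
    rw [← ofReal_norm, ← ENNReal.ofReal_pow (norm_nonneg _)]
    gcongr
    nlinarith
  · have h0 : ba b α c = 0 := by
      unfold ba
      exact indicator_of_notMem hc _
    simp [h0]

lemma lint_rot (u : ℂ) (hu : ‖u‖ = 1) (F : ℂ → ℝ≥0∞) : ∫⁻ ζ, F (ζ * u) = ∫⁻ ζ, F ζ := by
  have hmem : u ∈ Submonoid.unitSphere ℂ := by
    rw [Submonoid.unitSphere]
    simpa using hu
  set U : Circle := ⟨u, hmem⟩ with hU
  have h1 : MeasurePreserving (rotation U) volume volume := (rotation U).measurePreserving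
  have h2 := h1.lintegral_comp_emb (rotation U).toHomeomorph.measurableEmbedding F
  rw [← h2]
  apply lintegral_congr
  intro ζ
  congr 1
  rw [rotation_apply, mul_comm]

lemma lint_prod (F : ℂ → ℝ≥0∞) (hF : Measurable F) :
    ∫⁻ ζ, F ζ = ∫⁻ y : ℝ, ∫⁻ z : ℝ, F ⟨y, z⟩ := by
  have h1 := Complex.volume_preserving_equiv_real_prod.symm
  have h2 := h1.lintegral_comp_emb Complex.measurableEquivRealProd.symm.measurableEmbedding F
  rw [← h2]
  rw [Measure.volume_eq_prod, lintegral_prod _ (by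
    exact (hF.comp Complex.measurableEquivRealProd.symm.measurable).aemeasurable)]
  rfl

lemma lint_neg_neg (F : ℝ → ℝ → ℝ≥0∞) :
    ∫⁻ y : ℝ, ∫⁻ z : ℝ, F (-y) (-z) = ∫⁻ y : ℝ, ∫⁻ z : ℝ, F y z := by
  have h1 : ∀ y, ∫⁻ z : ℝ, F y (-z) = ∫⁻ z : ℝ, F y z := fun y =>
    lintegral_neg_eq_self (μ := (volume : Measure ℝ)) (F y)
  calc ∫⁻ y : ℝ, ∫⁻ z : ℝ, F (-y) (-z) = ∫⁻ y : ℝ, ∫⁻ z : ℝ, F y (-z) :=
        lintegral_neg_eq_self (μ := (volume : Measure ℝ)) (fun y => ∫⁻ z : ℝ, F y (-z))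
    _ = _ := lintegral_congr h1

/-- dyadic summation -/
lemma dyad (δ : ℝ) (hδ : 0 < δ) : ∃ C : ℝ, 0 ≤ C ∧ ∀ (G : ℝ → ℝ≥0∞) (K : ℝ), 0 ≤ K → Measurable G →
    (∀ Y : ℝ, 1 ≤ Y → ∫⁻ y in Icc (-Y) Y, G y ≤ ENNReal.ofReal (K * (1 + Real.log Y))) →
    ∫⁻ y, ENNReal.ofReal ((1 + |y|) ^ (-δ)) * G y ≤ ENNReal.ofReal (C * K) := by
  set ρ : ℝ := 2 ^ (-δ) with hρ
  have hρ0 : 0 < ρ := by positivity
  have hρ1 : ρ < 1 := Real.rpow_lt_one_of_one_lt_of_neg (by norm_num) (by linarith)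
  have hs1 : Summable fun j : ℕ => ρ ^ j := summable_geometric_of_lt_one hρ0.le hρ1
  have hs2 : Summable fun j : ℕ => (j : ℝ) ^ 1 * ρ ^ j :=
    summable_pow_mul_geometric_of_norm_lt_one 1 (by rwa [Real.norm_eq_abs, abs_of_pos hρ0])
  have hs : Summable fun j : ℕ => 2 ^ δ * ρ ^ j * (1 + j * Real.log 2) := by
    have := (hs1.mul_left (2 ^ δ)).add (hs2.mul_left (2 ^ δ * Real.log 2))
    refine this.congr fun j => ?_
    ring
  have hnn : ∀ j : ℕ, 0 ≤ 2 ^ δ * ρ ^ j * (1 + j * Real.log 2) := by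
    intro j
    have : 0 ≤ Real.log 2 := Real.log_nonneg (by norm_num)
    positivity
  refine ⟨∑' j : ℕ, 2 ^ δ * ρ ^ j * (1 + j * Real.log 2), tsum_nonneg hnn, ?_⟩
  intro G K hK hG h
  have hpt : ∀ y : ℝ, ENNReal.ofReal ((1 + |y|) ^ (-δ)) * G y ≤
      ∑' j : ℕ, ENNReal.ofReal (2 ^ δ * ρ ^ j) * (Icc (-(2 ^ j : ℝ)) (2 ^ j)).indicator G y := by
    intro y
    obtain ⟨j, hj1, hj2⟩ : ∃ j : ℕ, |y| ≤ 2 ^ j ∧ (2 : ℝ) ^ j ≤ 2 * (1 + |y|) := by
      rcases le_or_gt |y| 1 with h1 | h1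
      · exact ⟨0, by simpa using h1, by
          have := abs_nonneg y
          simp only [pow_zero]
          linarith⟩
      · obtain ⟨n, hn1, hn2⟩ := exists_nat_pow_near h1.le (by norm_num : (1 : ℝ) < 2)
        refine ⟨n + 1, hn2.le, ?_⟩
        rw [pow_succ]
        linarith
    refine le_trans ?_ (ENNReal.le_tsum j)
    rw [indicator_of_mem (show y ∈ Icc (-(2 ^ j : ℝ)) (2 ^ j) from abs_le.1 hj1)]
    gcongr
    have h3 : ρ ^ j = ((2 : ℝ) ^ j) ^ (-δ) := by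
      rw [hρ, ← Real.rpow_natCast, ← Real.rpow_natCast, ← Real.rpow_mul (by norm_num),
        ← Real.rpow_mul (by norm_num), mul_comm]
    rw [h3, Real.rpow_neg (by positivity), Real.rpow_neg (by positivity)]
    have h4 : ((2 : ℝ) ^ j) ^ δ ≤ 2 ^ δ * (1 + |y|) ^ δ := by
      rw [← Real.mul_rpow (by norm_num) (by positivity)]
      exact Real.rpow_le_rpow (by positivity) hj2 hδ.le
    have h5 : 0 < (1 + |y|) ^ δ := by positivity
    have h6 : 0 < ((2 : ℝ) ^ j) ^ δ := by positivity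
    rw [inv_eq_one_div, div_le_iff₀ h5]
    rw [mul_assoc, inv_mul_eq_div, mul_div_assoc', le_div_iff₀ h6]
    linarith
  calc ∫⁻ y, ENNReal.ofReal ((1 + |y|) ^ (-δ)) * G y
      ≤ ∫⁻ y, ∑' j : ℕ, ENNReal.ofReal (2 ^ δ * ρ ^ j) *
          (Icc (-(2 ^ j : ℝ)) (2 ^ j)).indicator G y := lintegral_mono hpt
    _ = ∑' j : ℕ, ∫⁻ y, ENNReal.ofReal (2 ^ δ * ρ ^ j) *
          (Icc (-(2 ^ j : ℝ)) (2 ^ j)).indicator G y := by
        rw [lintegral_tsum]
        intro j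
        exact ((hG.indicator measurableSet_Icc).const_mul _).aemeasurable
    _ ≤ ∑' j : ℕ, ENNReal.ofReal ((2 ^ δ * ρ ^ j * (1 + j * Real.log 2)) * K) := by
        apply ENNReal.tsum_le_tsum
        intro j
        rw [lintegral_const_mul _ (hG.indicator measurableSet_Icc),
          lintegral_indicator measurableSet_Icc]
        have h1 : (1 : ℝ) ≤ 2 ^ j := one_le_pow₀ (by norm_num)
        refine (mul_le_mul_right (h _ h1) _).trans ?_
        rw [← ENNReal.ofReal_mul (by positivity), Real.log_pow]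
        apply ENNReal.ofReal_le_ofReal
        apply le_of_eq
        ring
    _ = ENNReal.ofReal (∑' j : ℕ, (2 ^ δ * ρ ^ j * (1 + j * Real.log 2)) * K) := by
        rw [ENNReal.ofReal_tsum_of_nonneg]
        · intro j
          exact mul_nonneg (hnn j) hK
        · exact hs.mul_right K
    _ = _ := by rw [tsum_mul_right]

open Pool.Agent.H789R2.FR in
/-- auxiliary function -/
noncomputable def FA (b : ℝ → ℂ) (α δ y z : ℝ) : ℝ≥0∞ :=
  ENNReal.ofReal ((1 + |y|) ^ (-δ)) * ENNReal.ofReal (‖Ex (ba b α) y z‖ ^ 4)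

open Pool.Agent.H789R2.FR in
lemma FA_meas (b : ℝ → ℂ) (hb : Measurable b) (α δ : ℝ) :
    Measurable fun p : ℝ × ℝ => FA b α δ p.1 p.2 := by
  have hExm : Measurable fun p : ℝ × ℝ => Ex (ba b α) p.1 p.2 :=
    E4w.Ex_meas (ba b α) (ba_meas b hb α)
  have e2 : Measurable fun p : ℝ × ℝ => (1 + |p.1|) ^ (-δ) := by
    apply Continuous.measurable
    apply Continuous.rpow_const (by fun_prop)
    intro w
    left
    positivity
  exact (ENNReal.measurable_ofReal.comp e2).mul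
    (ENNReal.measurable_ofReal.comp (hExm.norm.pow_const 4))

lemma FA_pt (b : ℝ → ℂ) (α δ : ℝ) (hδ : 0 < δ) (ζ : ℂ) :
    ENNReal.ofReal ((1 + ‖ζ‖) ^ (-δ)) * ‖Ar b α ζ‖ₑ ^ 4 ≤
      FA b α δ (-(ζ * ee (-(2 * α))).re) (-(ζ * ee (-(2 * α))).im) := by
  have h5 : |(ζ * ee (-(2 * α))).re| ≤ ‖ζ‖ := by
    refine (Complex.abs_re_le_norm _).trans ?_
    rw [norm_mul, norm_ee, mul_one]
  unfold FA
  rw [Ar_eq, ← ofReal_norm, ← ENNReal.ofReal_pow (norm_nonneg _), abs_neg]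
  refine mul_le_mul_left ?_ _
  apply ENNReal.ofReal_le_ofReal
  rw [Real.rpow_neg (by positivity), Real.rpow_neg (by positivity)]
  apply inv_anti₀ (by positivity)
  exact Real.rpow_le_rpow (by positivity) (by linarith) hδ.le

lemma FA_int0 (F : ℝ → ℝ → ℝ≥0∞) (hF : Measurable fun p : ℝ × ℝ => F p.1 p.2) (u : ℂ) (hu : ‖u‖ = 1) :
    ∫⁻ ζ : ℂ, F (-(ζ * u).re) (-(ζ * u).im) = ∫⁻ y : ℝ, ∫⁻ z : ℝ, F y z := by
  have hp : Measurable fun w : ℂ => ((-w.re, -w.im) : ℝ × ℝ) :=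
    (Complex.measurable_re.neg).prodMk (Complex.measurable_im.neg)
  have hm : Measurable fun w : ℂ => F (-w.re) (-w.im) :=
    Measurable.comp (g := fun p : ℝ × ℝ => F p.1 p.2) hF hp
  have h1 := lint_rot u hu (fun w : ℂ => F (-w.re) (-w.im))
  have h2 := lint_prod _ hm
  have h3 := lint_neg_neg F
  exact h1.trans (h2.trans h3)

lemma FA_int (b : ℝ → ℂ) (hb : Measurable b) (α δ : ℝ) :
    ∫⁻ ζ : ℂ, FA b α δ (-(ζ * ee (-(2 * α))).re) (-(ζ * ee (-(2 * α))).im) =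
      ∫⁻ y : ℝ, ∫⁻ z : ℝ, FA b α δ y z :=
  FA_int0 (FA b α δ) (FA_meas b hb α δ) _ (norm_ee _)

open Pool.Agent.H789R2.FR in
/-- weighted bound of an arc -/
lemma Ar_bound (δ : ℝ) (hδ : 0 < δ) : ∃ C : ℝ, 0 ≤ C ∧ ∀ (b : ℝ → ℂ), Measurable b → ∀ B : ℝ,
    (∀ θ, ‖b θ‖ ≤ B) → ∀ α : ℝ,
    ∫⁻ ζ : ℂ, ENNReal.ofReal ((1 + ‖ζ‖) ^ (-δ)) * ‖Ar b α ζ‖ₑ ^ 4 ≤
      ENNReal.ofReal (C * B ^ 2) *
        ∫⁻ θ in Ioo (α - Real.pi / 12) (α + Real.pi / 12), ‖b θ‖ₑ ^ 2 := by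
  obtain ⟨C1, hC1, h1⟩ := E4r
  obtain ⟨C2, hC2, h2⟩ := dyad δ hδ
  refine ⟨C2 * C1, by positivity, ?_⟩
  intro b hb B hB α
  have hB0 : 0 ≤ B := (norm_nonneg _).trans (hB 0)
  have hbam := ba_meas b hb α
  have hExm : Measurable fun p : ℝ × ℝ => Ex (ba b α) p.1 p.2 :=
    E4w.Ex_meas (ba b α) hbam
  have hG : Measurable fun y : ℝ => ∫⁻ z : ℝ, ENNReal.ofReal (‖Ex (ba b α) y z‖ ^ 4) := by
    apply Measurable.lintegral_prod_right' (f := fun p : ℝ × ℝ =>
      ENNReal.ofReal (‖Ex (ba b α) p.1 p.2‖ ^ 4))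
    exact ENNReal.measurable_ofReal.comp (hExm.norm.pow_const 4)
  have hI0 : 0 ≤ ∫ c, ‖ba b α c‖ ^ 2 := integral_nonneg fun c => by positivity
  have h3 := h2 (fun y => ∫⁻ z : ℝ, ENNReal.ofReal (‖Ex (ba b α) y z‖ ^ 4))
    (C1 * B ^ 2 * ∫ c, ‖ba b α c‖ ^ 2) (by positivity) hG (by
      intro Y hY
      refine (h1 1 one_pos le_rfl Y (by linarith) (ba b α) hbam B (ba_bdd b B hB α)
        (fun c hc => ba_supp b α c hc)).trans ?_
      apply ENNReal.ofReal_le_ofReal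
      rw [mul_one, one_pow, mul_one]
      apply le_of_eq
      ring)
  calc ∫⁻ ζ : ℂ, ENNReal.ofReal ((1 + ‖ζ‖) ^ (-δ)) * ‖Ar b α ζ‖ₑ ^ 4
      ≤ ∫⁻ ζ : ℂ, FA b α δ (-(ζ * ee (-(2 * α))).re) (-(ζ * ee (-(2 * α))).im) :=
        lintegral_mono (FA_pt b α δ hδ)
    _ = ∫⁻ y : ℝ, ∫⁻ z : ℝ, FA b α δ y z := FA_int b hb α δ
    _ = ∫⁻ y : ℝ, ENNReal.ofReal ((1 + |y|) ^ (-δ)) *
          ∫⁻ z : ℝ, ENNReal.ofReal (‖Ex (ba b α) y z‖ ^ 4) := by
        apply lintegral_congr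
        intro y
        unfold FA
        rw [lintegral_const_mul' _ _ ENNReal.ofReal_ne_top]
    _ ≤ ENNReal.ofReal (C2 * (C1 * B ^ 2 * ∫ c, ‖ba b α c‖ ^ 2)) := h3
    _ = ENNReal.ofReal (C2 * C1 * B ^ 2) * ENNReal.ofReal (∫ c, ‖ba b α c‖ ^ 2) := by
        rw [← ENNReal.ofReal_mul (by positivity)]
        congr 1
        ring
    _ ≤ _ := mul_le_mul_right (ba_l2 b hb B hB α) _

/-- centres of the arcs -/
noncomputable def al (k : ℕ) : ℝ := -Real.pi + (k + 1 / 2) * (Real.pi / 6)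

lemma Cx_split (b : ℝ → ℂ) (hb : Measurable b) (B : ℝ) (hB : ∀ θ, ‖b θ‖ ≤ B) (ζ : ℂ) :
    ‖Cx b ζ‖ₑ ≤ ∑ k ∈ Finset.range 12, ‖Ar b (al k) ζ‖ₑ := by
  have hm : Measurable fun θ : ℝ => ee (dt ζ (ee (2 * θ))) * b θ := by
    have h1 : Continuous fun θ : ℝ => ee (dt ζ (ee (2 * θ))) :=
      ee_cont.comp (dt_cont.comp (continuous_const.prodMk (ee_cont.comp (by fun_prop))))
    exact h1.measurable.mul hb
  have hI : ∀ a c : ℝ, IntegrableOn (fun θ : ℝ => ee (dt ζ (ee (2 * θ))) * b θ) (Ioo a c) := by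
    intro a c
    refine Measure.integrableOn_of_bounded (M := B) (by simp) hm.aestronglyMeasurable
      (Filter.Eventually.of_forall fun θ => ?_)
    rw [norm_mul, norm_ee, one_mul]
    exact hB θ
  have hint : ∀ a c : ℝ, IntervalIntegrable (fun θ : ℝ => ee (dt ζ (ee (2 * θ))) * b θ) volume a c := by
    intro a c
    rw [intervalIntegrable_iff]
    have h1 : IntegrableOn (fun θ : ℝ => ee (dt ζ (ee (2 * θ))) * b θ) (Icc (min a c) (max a c)) :=
      (integrableOn_Icc_iff_integrableOn_Ioo (by finiteness) (by finiteness)).2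
        (hI (min a c) (max a c))
    exact h1.mono_set (fun x hx => ⟨hx.1.le, hx.2⟩)
  have hA : ∀ k : ℕ, Ar b (al k) ζ =
      ∫ θ in (-Real.pi + k * (Real.pi / 6))..(-Real.pi + (k + 1 : ℕ) * (Real.pi / 6)),
        ee (dt ζ (ee (2 * θ))) * b θ := by
    intro k
    unfold Ar al
    rw [intervalIntegral.integral_of_le (by push_cast; nlinarith [Real.pi_pos]),
      integral_Ioc_eq_integral_Ioo]
    congr 2
    · congr 1
      · ring
      · push_cast; ring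
  have hC : Cx b ζ = ∑ k ∈ Finset.range 12, Ar b (al k) ζ := by
    simp only [hA]
    rw [intervalIntegral.sum_integral_adjacent_intervals (a := fun k : ℕ => -Real.pi + k * (Real.pi / 6))
      (fun k _ => hint _ _)]
    unfold Cx
    rw [← integral_Ioc_eq_integral_Ioo, ← intervalIntegral.integral_of_le (by linarith [Real.pi_pos])]
    congr 1
    · simp
    · push_cast; ring
  rw [hC]
  exact enorm_sum_le _ _

/-- the weighted `L^4` bound of the circle extension -/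
theorem Cx_bound (δ : ℝ) (hδ : 0 < δ) : ∃ C : ℝ, 0 ≤ C ∧ ∀ (b : ℝ → ℂ), Measurable b → ∀ B : ℝ,
    (∀ θ, ‖b θ‖ ≤ B) →
    ∫⁻ ζ : ℂ, ENNReal.ofReal ((1 + ‖ζ‖) ^ (-δ)) * ‖Cx b ζ‖ₑ ^ 4 ≤
      ENNReal.ofReal (C * B ^ 2) * ∫⁻ θ in Ioo (-Real.pi) Real.pi, ‖b θ‖ₑ ^ 2 := by
  obtain ⟨C, hC, h⟩ := Ar_bound δ hδ
  refine ⟨12 ^ 4 * C, by positivity, ?_⟩
  intro b hb B hB
  have hArm : ∀ α : ℝ, Measurable fun ζ : ℂ => Ar b α ζ := by
    intro α
    have h1 : StronglyMeasurable (fun p : ℂ × ℝ => ee (dt p.1 (ee (2 * p.2))) * b p.2) := by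
      apply Measurable.stronglyMeasurable
      have h2 : Continuous fun p : ℂ × ℝ => ee (dt p.1 (ee (2 * p.2))) :=
        ee_cont.comp (dt_cont.comp (continuous_fst.prodMk (ee_cont.comp (by fun_prop))))
      exact h2.measurable.mul (hb.comp measurable_snd)
    exact (h1.integral_prod_right' (ν := volume.restrict (Ioo (α - Real.pi / 12) (α + Real.pi / 12)))).measurable
  have hpt : ∀ ζ : ℂ, ENNReal.ofReal ((1 + ‖ζ‖) ^ (-δ)) * ‖Cx b ζ‖ₑ ^ 4 ≤
      12 ^ 3 * ∑ k ∈ Finset.range 12, ENNReal.ofReal ((1 + ‖ζ‖) ^ (-δ)) * ‖Ar b (al k) ζ‖ₑ ^ 4 := by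
    intro ζ
    have h1 : ‖Cx b ζ‖ₑ ^ 4 ≤ 12 ^ 3 * ∑ k ∈ Finset.range 12, ‖Ar b (al k) ζ‖ₑ ^ 4 := by
      have h2 := ENNReal.rpow_sum_le_const_mul_sum_rpow (Finset.range 12)
        (fun k => ‖Ar b (al k) ζ‖ₑ) (p := 4) (by norm_num)
      have h3 : (4 : ℝ) - 1 = ((3 : ℕ) : ℝ) := by norm_num
      have h4 : (4 : ℝ) = ((4 : ℕ) : ℝ) := by norm_num
      rw [h3, h4] at h2
      simp only [ENNReal.rpow_natCast, Finset.card_range] at h2
      exact (pow_le_pow_left' (Cx_split b hb B hB ζ) 4).trans h2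
    rw [← Finset.mul_sum]
    calc _ ≤ ENNReal.ofReal ((1 + ‖ζ‖) ^ (-δ)) * (12 ^ 3 * ∑ k ∈ Finset.range 12, ‖Ar b (al k) ζ‖ₑ ^ 4) :=
          mul_le_mul_right h1 _
      _ = _ := by ring
  have hwm : Measurable fun ζ : ℂ => ENNReal.ofReal ((1 + ‖ζ‖) ^ (-δ)) := by
    apply ENNReal.measurable_ofReal.comp
    apply Continuous.measurable
    apply Continuous.rpow_const (by fun_prop)
    intro w
    left
    positivity
  calc ∫⁻ ζ : ℂ, ENNReal.ofReal ((1 + ‖ζ‖) ^ (-δ)) * ‖Cx b ζ‖ₑ ^ 4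
      ≤ ∫⁻ ζ : ℂ, 12 ^ 3 * ∑ k ∈ Finset.range 12,
          ENNReal.ofReal ((1 + ‖ζ‖) ^ (-δ)) * ‖Ar b (al k) ζ‖ₑ ^ 4 := lintegral_mono hpt
    _ = 12 ^ 3 * ∑ k ∈ Finset.range 12, ∫⁻ ζ : ℂ,
          ENNReal.ofReal ((1 + ‖ζ‖) ^ (-δ)) * ‖Ar b (al k) ζ‖ₑ ^ 4 := by
        rw [lintegral_const_mul' _ _ (by finiteness), lintegral_finsetSum]
        intro k _
        exact hwm.mul ((hArm (al k)).enorm.pow_const 4)
    _ ≤ 12 ^ 3 * ∑ k ∈ Finset.range 12, ENNReal.ofReal (C * B ^ 2) *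
          ∫⁻ θ in Ioo (-Real.pi) Real.pi, ‖b θ‖ₑ ^ 2 := by
        gcongr with k hk
        refine (h b hb B hB (al k)).trans ?_
        gcongr
        · unfold al
          nlinarith [Real.pi_pos, (Nat.cast_nonneg k : (0 : ℝ) ≤ k)]
        · unfold al
          have h5 : (k : ℝ) ≤ 11 := by
            have := Finset.mem_range.1 hk
            exact_mod_cast Nat.lt_succ_iff.1 this
          nlinarith [Real.pi_pos]
    _ = _ := by
        have e1 : ENNReal.ofReal (12 ^ 4 * C * B ^ 2) = 12 ^ 4 * ENNReal.ofReal (C * B ^ 2) := by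
          rw [mul_assoc, ENNReal.ofReal_mul (by norm_num), ENNReal.ofReal_pow (by norm_num)]
          norm_num
        rw [Finset.sum_const, Finset.card_range, nsmul_eq_mul, e1]
        push_cast
        ring

end Pool.Agent.Y250.AN
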