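import Mathlib
import Pool.Agent.Y250.AN.C1
set_option autoImplicit false

/-! The band limited window. -/

namespace Pool.Agent.Y250.AN

open MeasureTheory Set Complex FourierTransform SchwartzMap
open scoped ENNReal NNReal ContDiff

/-- the bump -/
noncomputable def bmp : ContDiffBump (0 : ℝ) := ⟨1 / 2, 1, by norm_num, by norm_num⟩

/-- the normalised bump -/
noncomputable def et : ℝ → ℝ := bmp.normed volume

lemma et_smooth : ContDiff ℝ ∞ et := bmp.contDiff_normed

lemma et_nonneg (x : ℝ) : 0 ≤ et x := bmp.nonneg_normed x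

lemma et_tsupp : tsupport et = Icc (-1) 1 := by
  unfold et
  rw [bmp.tsupport_normed_eq, Real.closedBall_eq_Icc]
  norm_num [bmp]

lemma et_cpt : HasCompactSupport et := bmp.hasCompactSupport_normed

lemma et_int : ∫ x, et x = 1 := bmp.integral_normed

lemma et_zero (x : ℝ) (hx : x ∉ Icc (-1 : ℝ) 1) : et x = 0 := by
  apply image_eq_zero_of_notMem_tsupport
  rwa [et_tsupp]

/-- complex bump -/
noncomputable def etc (x : ℝ) : ℂ := (et x : ℂ)

lemma etc_smooth : ContDiff ℝ ∞ etc := by
  unfold etc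
  exact Complex.ofRealCLM.contDiff.comp et_smooth

lemma etc_cpt : HasCompactSupport etc := et_cpt.comp_left (g := fun x : ℝ => (x : ℂ)) (by simp)

/-- the Schwartz function -/
noncomputable def etS : 𝓢(ℝ, ℂ) := etc_cpt.toSchwartzMap etc_smooth

lemma etS_apply (x : ℝ) : etS x = etc x := rfl

/-- `g0` -/
noncomputable def g0 (v : ℝ) : ℂ := (𝓕 etS) (v / (2 * Real.pi))

lemma g0_eq (v : ℝ) : g0 v = ∫ τ, ee (-(τ * v)) * etc τ := by
  unfold g0
  rw [SchwartzMap.fourier_coe, Real.fourier_eq']
  apply integral_congr_ae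
  refine Filter.Eventually.of_forall fun τ => ?_
  simp only [etS_apply]
  unfold ee
  rw [smul_eq_mul]
  congr 2
  have : (Real.pi : ℂ) ≠ 0 := by exact_mod_cast Real.pi_ne_zero
  simp
  field_simp

/-- derivative of `etc` times `-i` -/
noncomputable def e1 (τ : ℝ) : ℂ := -I * deriv etc τ

lemma e1_cont : Continuous e1 := by
  unfold e1
  have := (etc_smooth.continuous_deriv (by simp))
  fun_prop

lemma e1_zero (x : ℝ) (hx : x ∉ Icc (-1 : ℝ) 1) : e1 x = 0 := by
  unfold e1
  have h1 : deriv etc x = 0 := by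
    apply image_eq_zero_of_notMem_tsupport
    intro h
    have h2 := tsupport_deriv_subset (𝕜 := ℝ) (f := etc) h
    have h3 : tsupport etc ⊆ tsupport et := by
      apply closure_mono
      intro y hy hy0
      apply hy
      simp [etc, hy0]
    rw [et_tsupp] at h3
    exact hx (h3 h2)
  rw [h1, mul_zero]

lemma g1_eq (v : ℝ) : (v : ℂ) * g0 v = ∫ τ, ee (-(τ * v)) * e1 τ := by
  have hint : Integrable etc := etc_smooth.continuous.integrable_of_hasCompactSupport etc_cpt
  have hint' : Integrable (deriv etc) :=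
    (etc_smooth.continuous_deriv (by simp)).integrable_of_hasCompactSupport etc_cpt.deriv
  have h1 := congrFun (Real.fourier_deriv (f := etc) hint (etc_smooth.differentiable (by simp)) hint')
    (v / (2 * Real.pi))
  have hpi : (Real.pi : ℂ) ≠ 0 := by exact_mod_cast Real.pi_ne_zero
  have h2 : 𝓕 (deriv etc) (v / (2 * Real.pi)) = ∫ τ, ee (-(τ * v)) * deriv etc τ := by
    rw [Real.fourier_eq']
    apply integral_congr_ae
    refine Filter.Eventually.of_forall fun τ => ?_
    simp only
    unfold ee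
    rw [smul_eq_mul]
    congr 2
    simp
    field_simp
  have h3 : 𝓕 etc (v / (2 * Real.pi)) = g0 v := by
    unfold g0
    rw [SchwartzMap.fourier_coe]
    rfl
  rw [h2] at h1
  simp only [h3] at h1
  unfold e1
  have h4 : ∫ τ, ee (-(τ * v)) * (-I * deriv etc τ) = -I * ∫ τ, ee (-(τ * v)) * deriv etc τ := by
    rw [← integral_const_mul]
    apply integral_congr_ae
    refine Filter.Eventually.of_forall fun τ => ?_
    simp only
    ring
  rw [h4, h1]
  simp
  field_simp
  ring_nf
  simp

lemma g0_smooth : ContDiff ℝ ∞ g0 := by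
  unfold g0
  exact ((𝓕 etS).smooth ⊤).comp (by fun_prop)

lemma g0_re (v : ℝ) (hv : |v| ≤ 3 / 2) : Real.cos (3 / 2) ≤ (g0 v).re := by
  have hc : Continuous fun τ : ℝ => ee (-(τ * v)) * etc τ := by
    have h1 := etc_smooth.continuous
    exact (ee_cont.comp (by fun_prop)).mul h1
  have hint : Integrable fun τ : ℝ => ee (-(τ * v)) * etc τ :=
    hc.integrable_of_hasCompactSupport etc_cpt.mul_left
  have h1 : (g0 v).re = ∫ τ, Real.cos (τ * v) * et τ := by
    rw [g0_eq]
    have h2 := Complex.reCLM.integral_comp_comm hint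
    simp only [Complex.reCLM_apply] at h2
    rw [← h2]
    apply integral_congr_ae
    refine Filter.Eventually.of_forall fun τ => ?_
    simp only [etc]
    rw [Complex.mul_re, ee_re, Complex.ofReal_re, Complex.ofReal_im, mul_zero, sub_zero, Real.cos_neg]
  have hint2 : Integrable fun τ : ℝ => Real.cos (τ * v) * et τ := by
    have h3 := et_smooth.continuous
    exact Continuous.integrable_of_hasCompactSupport (by fun_prop) et_cpt.mul_left
  have hint3 : Integrable fun τ : ℝ => Real.cos (3 / 2) * et τ :=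
    (et_smooth.continuous.integrable_of_hasCompactSupport et_cpt).const_mul _
  rw [h1]
  calc Real.cos (3 / 2) = ∫ τ, Real.cos (3 / 2) * et τ := by
        rw [integral_const_mul, et_int, mul_one]
    _ ≤ _ := by
        apply integral_mono hint3 hint2
        intro τ
        simp only
        by_cases hτ : τ ∈ Icc (-1 : ℝ) 1
        · apply mul_le_mul_of_nonneg_right _ (et_nonneg τ)
          rw [← Real.cos_abs (τ * v)]
          have h4 : |τ * v| ≤ 3 / 2 := by
            rw [abs_mul]
            have := abs_le.2 hτ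
            nlinarith [abs_nonneg τ, abs_nonneg v]
          exact Real.cos_le_cos_of_nonneg_of_le_pi (abs_nonneg _) (by linarith [Real.pi_gt_three]) h4
        · rw [et_zero τ hτ]
          simp

lemma g0_ne (v : ℝ) (hv : |v| ≤ 3 / 2) : g0 v ≠ 0 := by
  intro h
  have h1 := g0_re v hv
  rw [h] at h1
  have : 0 < Real.cos (3 / 2) := Real.cos_pos_of_mem_Ioo ⟨by linarith [Real.pi_gt_three], by linarith [Real.pi_gt_three]⟩
  simp at h1
  linarith

lemma g0_decay : ∃ C : ℝ, 0 < C ∧ ∀ v : ℝ, 0 ≤ v → ‖g0 v‖ ≤ C / (1 + v) ^ 3 := by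
  obtain ⟨C0, hC0, h0⟩ := (𝓕 etS).decay 0 0
  obtain ⟨C3, hC3, h3⟩ := (𝓕 etS).decay 3 0
  refine ⟨4 * (C0 + (2 * Real.pi) ^ 3 * C3), by positivity, ?_⟩
  intro v hv
  have a0 := h0 (v / (2 * Real.pi))
  have a3 := h3 (v / (2 * Real.pi))
  simp only [pow_zero, one_mul, norm_iteratedFDeriv_zero] at a0 a3
  have e0 : (𝓕 etS) (v / (2 * Real.pi)) = g0 v := rfl
  rw [e0] at a0 a3
  rw [Real.norm_eq_abs, abs_of_nonneg (by positivity), div_pow, div_mul_eq_mul_div,
    div_le_iff₀ (by positivity)] at a3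
  rw [le_div_iff₀ (by positivity)]
  have h4 : (1 + v) ^ 3 ≤ 4 * (1 + v ^ 3) := by nlinarith [sq_nonneg (v - 1), sq_nonneg (v + 1), mul_nonneg hv (sq_nonneg (v-1))]
  calc ‖g0 v‖ * (1 + v) ^ 3 ≤ ‖g0 v‖ * (4 * (1 + v ^ 3)) :=
        mul_le_mul_of_nonneg_left h4 (norm_nonneg _)
    _ = 4 * (‖g0 v‖ + v ^ 3 * ‖g0 v‖) := by ring
    _ ≤ 4 * (C0 + C3 * (2 * Real.pi) ^ 3) := by linarith
    _ = _ := by ring

end Pool.Agent.Y250.AN
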