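import Mathlib
import Pool.Agent.Y250.AN.C3
set_option autoImplicit false

/-! The one dimensional identity. -/

namespace Pool.Agent.Y250.AN

open MeasureTheory Set Complex FourierTransform SchwartzMap Filter Topology
open scoped ENNReal NNReal ContDiff

/-- `(π/(iT))^{1/2}` -/
noncomputable def Gm (T : ℝ) : ℂ := ((Real.pi : ℂ) / (I * T)) ^ (1 / 2 : ℂ)

/-- Gaussian transform -/
noncomputable def J (s : ℝ) (z : ℂ) : ℂ := ((Real.pi : ℂ) / z) ^ (1 / 2 : ℂ) * cexp (-(s : ℂ) ^ 2 / (4 * z))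

lemma J_eq (s : ℝ) (z : ℂ) (hz : 0 < z.re) :
    ∫ r : ℝ, cexp (-z * (r : ℂ) ^ 2) * ee (-(r * s)) = J s z := by
  have h := fourierIntegral_gaussian hz (-(s : ℂ))
  unfold J
  rw [show (-(s : ℂ)) ^ 2 = (s : ℂ) ^ 2 by ring] at h
  rw [← h]
  apply integral_congr_ae
  refine Filter.Eventually.of_forall fun r => ?_
  simp only
  rw [mul_comm]
  unfold ee
  congr 2
  push_cast
  ring

lemma J_lim (s T : ℝ) (hT : T ≠ 0) : J s (I * T) = Gm T * ee (s ^ 2 / (4 * T)) := by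
  unfold J Gm ee
  congr 2
  have : (T : ℂ) ≠ 0 := by exact_mod_cast hT
  have hI : I ≠ 0 := Complex.I_ne_zero
  push_cast
  field_simp
  rw [Complex.I_sq]
  ring

lemma slit (T : ℝ) (hT : T ≠ 0) : (Real.pi : ℂ) / (I * T) ∈ slitPlane := by
  rw [mem_slitPlane_iff]
  right
  have h1 : (Real.pi : ℂ) / (I * T) = ((-(Real.pi / T) : ℝ) : ℂ) * I := by
    have : (T : ℂ) ≠ 0 := by exact_mod_cast hT
    have hI : I ≠ 0 := Complex.I_ne_zero
    push_cast
    field_simp
    rw [Complex.I_sq]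
    ring
  rw [h1]
  simp
  exact hT

lemma norm_Gm (T : ℝ) (hT : T ≠ 0) : ‖Gm T‖ = Real.sqrt (Real.pi / |T|) := by
  unfold Gm
  have h0 : (Real.pi : ℂ) / (I * T) ≠ 0 := slitPlane_ne_zero (slit T hT)
  have h1 : ‖((Real.pi : ℂ) / (I * T)) ^ (1 / 2 : ℂ)‖ = ‖(Real.pi : ℂ) / (I * T)‖ ^ (1 / 2 : ℝ) := by
    have := Complex.norm_cpow_real ((Real.pi : ℂ) / (I * T)) (1 / 2 : ℝ)
    rw [← this]
    congr 2
    push_cast
    ring
  rw [h1, Real.sqrt_eq_rpow, norm_div, norm_mul, Complex.norm_I, one_mul, Complex.norm_real,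
    Complex.norm_real, Real.norm_eq_abs, Real.norm_eq_abs, abs_of_pos Real.pi_pos]

lemma J_cont (s T : ℝ) (hT : T ≠ 0) : ContinuousAt (J s) (I * T) := by
  unfold J
  have hz : I * (T : ℂ) ≠ 0 := mul_ne_zero Complex.I_ne_zero (by exact_mod_cast hT)
  apply ContinuousAt.mul
  · apply ContinuousAt.cpow
    · exact continuousAt_const.div continuousAt_id hz
    · exact continuousAt_const
    · exact slit T hT
  · apply ContinuousAt.cexp
    apply ContinuousAt.div continuousAt_const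
    · exact continuousAt_const.mul continuousAt_id
    · exact mul_ne_zero (by norm_num) hz

lemma J_norm (s T ε : ℝ) (hε : 0 ≤ ε) (hT : 1 ≤ |T|) : ‖J s (ε + I * T)‖ ≤ Real.sqrt Real.pi := by
  unfold J
  set z : ℂ := ε + I * T with hz
  have hre : z.re = ε := by simp [hz]
  have him : z.im = T := by simp [hz]
  have hn : 1 ≤ ‖z‖ := by
    refine hT.trans ?_
    rw [← him]
    exact Complex.abs_im_le_norm z
  have hz0 : z ≠ 0 := by
    intro h
    rw [h, norm_zero] at hn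
    linarith
  have h1 : ‖((Real.pi : ℂ) / z) ^ (1 / 2 : ℂ)‖ = ‖(Real.pi : ℂ) / z‖ ^ (1 / 2 : ℝ) := by
    have := Complex.norm_cpow_real ((Real.pi : ℂ) / z) (1 / 2 : ℝ)
    rw [← this]
    congr 2
    push_cast
    ring
  rw [norm_mul, h1, norm_div, Complex.norm_real, Real.norm_eq_abs, abs_of_pos Real.pi_pos,
    Complex.norm_exp, Real.sqrt_eq_rpow]
  have h2 : (-(s : ℂ) ^ 2 / (4 * z)).re ≤ 0 := by
    have h3 : -(s : ℂ) ^ 2 / (4 * z) = ((-(s ^ 2 / (4 * ‖z‖ ^ 2)) : ℝ) : ℂ) * (starRingEnd ℂ) z := by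
      have h4 : z * (starRingEnd ℂ) z = (‖z‖ : ℂ) ^ 2 := by
        rw [Complex.mul_conj, Complex.normSq_eq_norm_sq]
        push_cast
        rfl
      have h5 : (‖z‖ : ℂ) ≠ 0 := by
        have : ‖z‖ ≠ 0 := by linarith
        exact_mod_cast this
      push_cast
      field_simp
      rw [← h4]
      ring
    rw [h3, Complex.re_ofReal_mul, Complex.conj_re, hre]
    have : 0 ≤ s ^ 2 / (4 * ‖z‖ ^ 2) := by positivity
    nlinarith
  have h6 : Real.exp (-(s : ℂ) ^ 2 / (4 * z)).re ≤ 1 := Real.exp_le_one_iff.2 h2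
  have h7 : (Real.pi / ‖z‖) ^ (1 / 2 : ℝ) ≤ Real.pi ^ (1 / 2 : ℝ) := by
    apply Real.rpow_le_rpow (by positivity) _ (by norm_num)
    exact div_le_self Real.pi_pos.le hn
  calc _ ≤ Real.pi ^ (1 / 2 : ℝ) * 1 := mul_le_mul h7 h6 (Real.exp_pos _).le (by positivity)
    _ = _ := mul_one _

/-- the full line profile -/
noncomputable def K (s t : ℝ) : ℂ := ∫ r : ℝ, ee (-(r * s + t * r ^ 2)) * ((r : ℂ) ^ 2 * g0 (r ^ 2))

lemma g0_cont : Continuous g0 := g0_smooth.continuous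

lemma prof_int : Integrable fun r : ℝ => ((r : ℂ) ^ 2 * g0 (r ^ 2)) := by
  obtain ⟨C, hC, h⟩ := g0_decay
  have hc : Continuous fun r : ℝ => ((r : ℂ) ^ 2 * g0 (r ^ 2)) := by
    have := g0_cont
    fun_prop
  refine Integrable.mono' (g := fun r : ℝ => C * (1 + r ^ 2)⁻¹) (integrable_inv_one_add_sq.const_mul C)
    hc.aestronglyMeasurable (Filter.Eventually.of_forall fun r => ?_)
  rw [norm_mul, norm_pow, Complex.norm_real, Real.norm_eq_abs, sq_abs]
  have h1 := h (r ^ 2) (sq_nonneg r)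
  calc r ^ 2 * ‖g0 (r ^ 2)‖ ≤ r ^ 2 * (C / (1 + r ^ 2) ^ 3) := by gcongr
    _ ≤ C * (1 + r ^ 2)⁻¹ := by
      rw [mul_div_assoc', div_le_iff₀ (by positivity)]
      have : C * (1 + r ^ 2)⁻¹ * (1 + r ^ 2) ^ 3 = C * (1 + r ^ 2) ^ 2 := by field_simp
      rw [this]
      nlinarith [sq_nonneg r, mul_nonneg hC.le (sq_nonneg r), mul_nonneg hC.le (sq_nonneg (r^2))]

/-- regularised identity -/
lemma reg_eq (s t ε : ℝ) (hε : 0 < ε) :
    ∫ r : ℝ, cexp (-(ε : ℂ) * (r : ℂ) ^ 2) * (ee (-(r * s + t * r ^ 2)) * ((r : ℂ) ^ 2 * g0 (r ^ 2))) =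
      ∫ τ : ℝ, e1 τ * J s (ε + I * ((t + τ : ℝ) : ℂ)) := by
  have hF : Integrable (Function.uncurry fun (r τ : ℝ) =>
      (cexp (-(ε : ℂ) * (r : ℂ) ^ 2) * ee (-(r * s + t * r ^ 2))) * (ee (-(τ * r ^ 2)) * e1 τ)) := by
    have h1 : Integrable fun r : ℝ => Real.exp (-ε * r ^ 2) := integrable_exp_neg_mul_sq hε
    have h2 : Integrable fun τ : ℝ => ‖e1 τ‖ := by
      have : Integrable e1 := e1_cont.integrable_of_hasCompactSupport
        (HasCompactSupport.intro isCompact_Icc e1_zero)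
      exact this.norm
    refine Integrable.mono' (h1.mul_prod h2) ?_ (Filter.Eventually.of_forall fun p => ?_)
    · have := e1_cont
      have := ee_cont
      apply Continuous.aestronglyMeasurable
      unfold Function.uncurry
      fun_prop
    · rw [Function.uncurry]
      rw [norm_mul, norm_mul, norm_mul, norm_ee, norm_ee, one_mul, mul_one, Complex.norm_exp]
      apply le_of_eq
      congr 2
      have : -(ε : ℂ) * (p.1 : ℂ) ^ 2 = ((-ε * p.1 ^ 2 : ℝ) : ℂ) := by push_cast; ring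
      rw [this, Complex.ofReal_re]
  have hsw := integral_integral_swap hF
  have e2 : ∀ r : ℝ, ∫ τ, (cexp (-(ε : ℂ) * (r : ℂ) ^ 2) * ee (-(r * s + t * r ^ 2))) *
      (ee (-(τ * r ^ 2)) * e1 τ) =
      cexp (-(ε : ℂ) * (r : ℂ) ^ 2) * (ee (-(r * s + t * r ^ 2)) * ((r : ℂ) ^ 2 * g0 (r ^ 2))) := by
    intro r
    rw [integral_const_mul, ← g1_eq]
    push_cast
    ring
  have e3 : ∀ τ : ℝ, ∫ r : ℝ, (cexp (-(ε : ℂ) * (r : ℂ) ^ 2) * ee (-(r * s + t * r ^ 2))) *
      (ee (-(τ * r ^ 2)) * e1 τ) = e1 τ * J s (ε + I * ((t + τ : ℝ) : ℂ)) := by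
    intro τ
    rw [← J_eq s _ (by simp [hε]), ← integral_const_mul]
    apply integral_congr_ae
    refine Filter.Eventually.of_forall fun r => ?_
    simp only
    unfold ee
    have : cexp (-(ε : ℂ) * (r : ℂ) ^ 2) * cexp (((-(r * s + t * r ^ 2) : ℝ) : ℂ) * I) *
        cexp (((-(τ * r ^ 2) : ℝ) : ℂ) * I) = cexp (-(ε + I * ((t + τ : ℝ) : ℂ)) * (r : ℂ) ^ 2) *
          cexp (((-(r * s) : ℝ) : ℂ) * I) := by
      rw [← Complex.exp_add, ← Complex.exp_add, ← Complex.exp_add]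
      congr 1
      push_cast
      ring
    linear_combination (e1 τ) * this
  simp only [e2, e3] at hsw
  exact hsw

theorem K_eq (s t : ℝ) (ht : 2 ≤ |t|) :
    K s t = ∫ τ : ℝ, e1 τ * (Gm (t + τ) * ee (s ^ 2 / (4 * (t + τ)))) := by
  have hT : ∀ τ ∈ Icc (-1 : ℝ) 1, 1 ≤ |t + τ| := by
    intro τ hτ
    have h1 := abs_le.2 hτ
    have h2 : |t| - |τ| ≤ |t + τ| := by
      have := abs_sub_abs_le_abs_sub t (-τ)
      rwa [abs_neg, sub_neg_eq_add] at this
    linarith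
  have hl : Tendsto (fun ε : ℝ => ∫ r : ℝ, cexp (-(ε : ℂ) * (r : ℂ) ^ 2) *
      (ee (-(r * s + t * r ^ 2)) * ((r : ℂ) ^ 2 * g0 (r ^ 2)))) (𝓝[>] 0) (𝓝 (K s t)) := by
    unfold K
    apply tendsto_integral_filter_of_dominated_convergence (fun r : ℝ => ‖((r : ℂ) ^ 2 * g0 (r ^ 2))‖)
    · refine Filter.Eventually.of_forall fun ε => ?_
      have := g0_cont
      have := ee_cont
      apply Continuous.aestronglyMeasurable
      fun_prop
    · filter_upwards [self_mem_nhdsWithin] with ε hε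
      refine Filter.Eventually.of_forall fun r => ?_
      rw [norm_mul, norm_mul, norm_ee, one_mul, Complex.norm_exp]
      have : -(ε : ℂ) * (r : ℂ) ^ 2 = ((-ε * r ^ 2 : ℝ) : ℂ) := by push_cast; ring
      rw [this, Complex.ofReal_re]
      have hε' : 0 < ε := hε
      have h3 : Real.exp (-ε * r ^ 2) ≤ 1 := Real.exp_le_one_iff.2 (by nlinarith [sq_nonneg r])
      calc _ ≤ 1 * ‖((r : ℂ) ^ 2 * g0 (r ^ 2))‖ := by gcongr
        _ = _ := one_mul _
    · exact prof_int.norm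
    · refine Filter.Eventually.of_forall fun r => ?_
      have h4 : Tendsto (fun ε : ℝ => cexp (-(ε : ℂ) * (r : ℂ) ^ 2)) (𝓝[>] 0) (𝓝 1) := by
        have : Continuous fun ε : ℝ => cexp (-(ε : ℂ) * (r : ℂ) ^ 2) := by fun_prop
        have h5 := this.tendsto 0
        simp only [Complex.ofReal_zero, neg_zero, zero_mul, Complex.exp_zero] at h5
        exact h5.mono_left nhdsWithin_le_nhds
      have h6 := h4.mul_const (ee (-(r * s + t * r ^ 2)) * ((r : ℂ) ^ 2 * g0 (r ^ 2)))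
      rw [one_mul] at h6
      exact h6
  have hr : Tendsto (fun ε : ℝ => ∫ τ : ℝ, e1 τ * J s (ε + I * ((t + τ : ℝ) : ℂ))) (𝓝[>] 0)
      (𝓝 (∫ τ : ℝ, e1 τ * (Gm (t + τ) * ee (s ^ 2 / (4 * (t + τ)))))) := by
    apply tendsto_integral_filter_of_dominated_convergence (fun τ : ℝ => ‖e1 τ‖ * Real.sqrt Real.pi)
    · refine Filter.Eventually.of_forall fun ε => ?_
      have h7 : Measurable fun τ : ℝ => J s (ε + I * ((t + τ : ℝ) : ℂ)) := by
        unfold J
        fun_prop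
      exact (e1_cont.measurable.mul h7).aestronglyMeasurable
    · filter_upwards [self_mem_nhdsWithin] with ε hε
      refine Filter.Eventually.of_forall fun τ => ?_
      rw [norm_mul]
      by_cases hτ : τ ∈ Icc (-1 : ℝ) 1
      · have h8 := J_norm s (t + τ) ε (le_of_lt hε) (hT τ hτ)
        gcongr
      · rw [e1_zero τ hτ]
        simp
    · have : Integrable e1 := e1_cont.integrable_of_hasCompactSupport
        (HasCompactSupport.intro isCompact_Icc e1_zero)
      exact this.norm.mul_const _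
    · refine Filter.Eventually.of_forall fun τ => ?_
      by_cases hτ : τ ∈ Icc (-1 : ℝ) 1
      · have h9 : t + τ ≠ 0 := by
          intro h
          have := hT τ hτ
          rw [h, abs_zero] at this
          linarith
        apply Tendsto.const_mul
        rw [← J_lim s (t + τ) h9]
        have h10 : Tendsto (fun ε : ℝ => (ε : ℂ) + I * ((t + τ : ℝ) : ℂ)) (𝓝[>] 0)
            (𝓝 (I * ((t + τ : ℝ) : ℂ))) := by
          have : Continuous fun ε : ℝ => (ε : ℂ) + I * ((t + τ : ℝ) : ℂ) := by fun_prop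
          have h5 := this.tendsto 0
          simp only [Complex.ofReal_zero, zero_add] at h5
          exact h5.mono_left nhdsWithin_le_nhds
        exact (J_cont s (t + τ) h9).tendsto.comp h10
      · rw [e1_zero τ hτ]
        simp only [zero_mul]
        exact tendsto_const_nhds
  have heq : (fun ε : ℝ => ∫ r : ℝ, cexp (-(ε : ℂ) * (r : ℂ) ^ 2) *
      (ee (-(r * s + t * r ^ 2)) * ((r : ℂ) ^ 2 * g0 (r ^ 2)))) =ᶠ[𝓝[>] 0]
      (fun ε : ℝ => ∫ τ : ℝ, e1 τ * J s (ε + I * ((t + τ : ℝ) : ℂ))) := by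
    filter_upwards [self_mem_nhdsWithin] with ε hε
    exact reg_eq s t ε hε
  exact tendsto_nhds_unique hl (hr.congr' heq.symm)

end Pool.Agent.Y250.AN
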