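import Mathlib
import Pool.Agent.Y250.AN.C4
set_option autoImplicit false

/-! Integration by parts and the angular integrals. -/

namespace Pool.Agent.Y250.AN

open MeasureTheory Set Complex FourierTransform SchwartzMap Filter Topology
open scoped ENNReal NNReal ContDiff

/-- the oscillation -/
noncomputable def H (s T : ℝ) : ℂ := Gm T * ee (s ^ 2 / (4 * T))

lemma Gm_deriv (T : ℝ) (hT : T ≠ 0) : HasDerivAt Gm (-(1 / (2 * T)) * Gm T) T := by
  have hT' : (T : ℂ) ≠ 0 := by exact_mod_cast hT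
  have hI : I ≠ 0 := Complex.I_ne_zero
  have hpi : (Real.pi : ℂ) ≠ 0 := by exact_mod_cast Real.pi_ne_zero
  have h1 : HasDerivAt (fun z : ℂ => (Real.pi : ℂ) / (I * z)) (-(Real.pi / (I * T ^ 2))) (T : ℂ) := by
    have h2 := ((hasDerivAt_id (T : ℂ)).const_mul I).inv (mul_ne_zero hI hT')
    have h3 := h2.const_mul (Real.pi : ℂ)
    have e : (-(Real.pi / (I * T ^ 2)) : ℂ) = (Real.pi : ℂ) * (-(I * 1) / (I * (id (T : ℂ))) ^ 2) := by
      simp only [id]
      field_simp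
    rw [e]
    exact h3
  have h4 := h1.cpow_const (c := (1 / 2 : ℂ)) (slit T hT)
  have h5 := h4.comp_ofReal
  have e2 : (1 / 2 : ℂ) * ((Real.pi : ℂ) / (I * T)) ^ ((1 / 2 : ℂ) - 1) * (-(Real.pi / (I * T ^ 2))) =
      -(1 / (2 * T)) * Gm T := by
    unfold Gm
    have h0 : (Real.pi : ℂ) / (I * T) ≠ 0 := slitPlane_ne_zero (slit T hT)
    rw [Complex.cpow_sub _ _ h0, Complex.cpow_one]
    field_simp
  rw [← e2]
  exact h5

lemma ee_deriv (f : ℝ → ℝ) (f' x : ℝ) (hf : HasDerivAt f f' x) :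
    HasDerivAt (fun x => ee (f x)) (f' * I * ee (f x)) x := by
  unfold ee
  have h1 : HasDerivAt (fun x => (f x : ℂ) * I) (f' * I) x := hf.ofReal_comp.mul_const I
  have h2 := h1.cexp
  have e : (f' : ℂ) * I * cexp (f x * I) = cexp (f x * I) * (f' * I) := by ring
  rw [e]
  exact h2

lemma H_deriv (s T : ℝ) (hT : T ≠ 0) :
    HasDerivAt (H s) ((-(1 / (2 * T)) - I * (s ^ 2 / (4 * T ^ 2))) * H s T) T := by
  have h1 := Gm_deriv T hT
  have h2 : HasDerivAt (fun T : ℝ => s ^ 2 / (4 * T)) (-(s ^ 2 / (4 * T ^ 2))) T := by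
    have h3 := ((hasDerivAt_id T).const_mul (4 : ℝ)).inv (mul_ne_zero (by norm_num) hT)
    have h4 := h3.const_mul (s ^ 2)
    have e : -(s ^ 2 / (4 * T ^ 2)) = s ^ 2 * (-(4 * 1) / (4 * (id T)) ^ 2) := by
      simp only [id]
      field_simp
    rw [e]
    exact h4
  have h3 := h1.mul (ee_deriv _ _ _ h2)
  have e : (-(1 / (2 * T)) - I * (s ^ 2 / (4 * T ^ 2))) * H s T =
      -(1 / (2 * (T : ℂ))) * Gm T * ee (s ^ 2 / (4 * T)) +
        Gm T * (((-(s ^ 2 / (4 * T ^ 2)) : ℝ) : ℂ) * I * ee (s ^ 2 / (4 * T))) := by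
    unfold H
    push_cast
    ring
  rw [e]
  exact h3

lemma T_low (t : ℝ) (ht : 2 ≤ |t|) (τ : ℝ) (hτ : τ ∈ Icc (-1 : ℝ) 1) : |t| / 2 ≤ |t + τ| := by
  have h1 := abs_le.2 hτ
  have h2 : |t| - |τ| ≤ |t + τ| := by
    have := abs_sub_abs_le_abs_sub t (-τ)
    rwa [abs_neg, sub_neg_eq_add] at this
  linarith

lemma T_ne (t : ℝ) (ht : 2 ≤ |t|) (τ : ℝ) (hτ : τ ∈ Icc (-1 : ℝ) 1) : t + τ ≠ 0 := by
  intro h
  have := T_low t ht τ hτ
  rw [h, abs_zero] at this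
  linarith

lemma etc_zero (x : ℝ) (hx : x ∉ Icc (-1 : ℝ) 1) : etc x = 0 := by
  unfold etc
  rw [et_zero x hx]
  simp

lemma K_eq2 (s t : ℝ) (ht : 2 ≤ |t|) :
    K s t = ∫ τ : ℝ, etc τ * (I * ((-(1 / (2 * (t + τ))) - I * (s ^ 2 / (4 * (t + τ) ^ 2))) * H s (t + τ))) := by
  have hz : ∀ (x : ℝ), x ∉ Ioo (-1 : ℝ) 1 → et x = 0 := by
    intro x hx
    unfold et
    have h := bmp.support_normed_eq (μ := volume)
    by_contra hne
    apply hx
    have h2 : x ∈ Function.support (bmp.normed volume) := hne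
    rw [h, Real.ball_eq_Ioo] at h2
    simpa [bmp] using h2
  rw [K_eq s t ht]
  have h1 : ∀ f : ℝ → ℂ, (∀ x ∉ Icc (-1 : ℝ) 1, f x = 0) → ∫ τ, f τ = ∫ τ in (-1 : ℝ)..1, f τ := by
    intro f hf
    rw [intervalIntegral.integral_of_le (by norm_num), integral_Ioc_eq_integral_Ioo,
      ← integral_Icc_eq_integral_Ioo]
    symm
    apply setIntegral_eq_integral_of_forall_compl_eq_zero
    intro x hx
    exact hf x hx
  rw [h1 _ (fun x hx => by rw [e1_zero x hx, zero_mul]), h1 _ (fun x hx => by rw [etc_zero x hx, zero_mul])]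
  have hu : ∀ x ∈ uIcc (-1 : ℝ) 1, HasDerivAt (fun τ => H s (t + τ))
      ((-(1 / (2 * (t + x))) - I * (s ^ 2 / (4 * (t + x) ^ 2))) * H s (t + x)) x := by
    intro x hx
    rw [uIcc_of_le (by norm_num)] at hx
    have h2 := H_deriv s (t + x) (T_ne t ht x hx)
    have h3 := h2.comp_const_add t x
    push_cast at h3
    exact h3
  have hv : ∀ x ∈ uIcc (-1 : ℝ) 1, HasDerivAt etc (deriv etc x) x := fun x _ =>
    ((etc_smooth.differentiable (by simp)) x).hasDerivAt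
  have hHc : ContinuousOn (fun τ => H s (t + τ)) (uIcc (-1 : ℝ) 1) := fun x hx =>
    (hu x hx).continuousAt.continuousWithinAt
  have hu' : IntervalIntegrable (fun x : ℝ => (-(1 / (2 * ((t : ℂ) + x))) - I * ((s : ℂ) ^ 2 / (4 * ((t : ℂ) + x) ^ 2))) * H s (t + x))
      volume (-1) 1 := by
    apply ContinuousOn.intervalIntegrable
    apply ContinuousOn.mul _ hHc
    have hne : ∀ x ∈ uIcc (-1 : ℝ) 1, ((t : ℂ) + x) ≠ 0 := by
      intro x hx
      rw [uIcc_of_le (by norm_num)] at hx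
      exact_mod_cast T_ne t ht x hx
    apply ContinuousOn.sub
    · apply ContinuousOn.neg
      apply ContinuousOn.div (by fun_prop) (by fun_prop)
      intro x hx
      exact mul_ne_zero (by norm_num) (hne x hx)
    · apply ContinuousOn.mul (by fun_prop)
      apply ContinuousOn.div (by fun_prop) (by fun_prop)
      intro x hx
      exact mul_ne_zero (by norm_num) (pow_ne_zero _ (hne x hx))
  have hv' : IntervalIntegrable (deriv etc) volume (-1) 1 :=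
    (etc_smooth.continuous_deriv (by simp)).intervalIntegrable _ _
  have hp := intervalIntegral.integral_mul_deriv_eq_deriv_mul hu hv hu' hv'
  have z1 : etc 1 = 0 := by unfold etc; rw [hz 1 (by simp)]; simp
  have z2 : etc (-1) = 0 := by unfold etc; rw [hz (-1) (by simp)]; simp
  rw [z1, z2, mul_zero, mul_zero, sub_zero, zero_sub] at hp
  have e1' : ∫ τ in (-1 : ℝ)..1, e1 τ * (Gm (t + τ) * ee (s ^ 2 / (4 * (t + τ)))) =
      -I * ∫ τ in (-1 : ℝ)..1, H s (t + τ) * deriv etc τ := by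
    rw [← intervalIntegral.integral_const_mul]
    apply intervalIntegral.integral_congr
    intro τ _
    simp only [e1, H]
    ring
  rw [e1', hp]
  rw [← intervalIntegral.integral_neg, ← intervalIntegral.integral_const_mul]
  apply intervalIntegral.integral_congr
  intro τ _
  simp only
  ring

lemma sq_id (x : ℂ) (θ : ℝ) : (dt x (ee θ)) ^ 2 = (‖x‖ ^ 2 + dt (x ^ 2) (ee (2 * θ))) / 2 := by
  unfold dt
  rw [ee_re, ee_im, ee_re, ee_im, Real.cos_two_mul, Real.sin_two_mul, ← Complex.normSq_eq_norm_sq,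
    Complex.normSq_apply]
  have e1 : (x ^ 2).re = x.re * x.re - x.im * x.im := by rw [sq, Complex.mul_re]
  have e2 : (x ^ 2).im = 2 * (x.re * x.im) := by rw [sq, Complex.mul_im]; ring
  rw [e1, e2]
  have := Real.sin_sq_add_cos_sq θ
  linear_combination (x.im ^ 2) * this

lemma dt_div (x y : ℂ) (c : ℝ) : dt (x / c) y = dt x y / c := by
  unfold dt
  have e1 : (x / (c : ℂ)).re = x.re / c := by
    exact Complex.div_ofReal_re x c
  have e2 : (x / (c : ℂ)).im = x.im / c := by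
    exact Complex.div_ofReal_im x c
  rw [e1, e2]
  ring

lemma H_pt (x : ℂ) (θ T : ℝ) (hT : T ≠ 0) :
    H (dt x (ee θ)) T = Gm T * ee (‖x‖ ^ 2 / (8 * T)) * ee (dt (x ^ 2 / ((8 * T : ℝ) : ℂ)) (ee (2 * θ))) := by
  unfold H
  rw [mul_assoc, ← ee_add, dt_div, sq_id]
  congr 2
  field_simp
  ring

/-- the angular integral of `H` -/
lemma ang1 (b : ℝ → ℂ) (x : ℂ) (T : ℝ) (hT : T ≠ 0) :
    ∫ θ in Ioo (-Real.pi) Real.pi, b θ * H (dt x (ee θ)) T =
      Gm T * ee (‖x‖ ^ 2 / (8 * T)) * Cx b (x ^ 2 / ((8 * T : ℝ) : ℂ)) := by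
  unfold Cx
  rw [← integral_const_mul]
  apply integral_congr_ae
  refine Filter.Eventually.of_forall fun θ => ?_
  simp only
  rw [H_pt x θ T hT]
  ring

/-- `b cos 2θ` -/
noncomputable def bc (b : ℝ → ℂ) (θ : ℝ) : ℂ := b θ * (Real.cos (2 * θ) : ℂ)
/-- `b sin 2θ` -/
noncomputable def bs (b : ℝ → ℂ) (θ : ℝ) : ℂ := b θ * (Real.sin (2 * θ) : ℂ)

lemma Cx_int (b : ℝ → ℂ) (hb : Measurable b) (B : ℝ) (hB : ∀ θ, ‖b θ‖ ≤ B) (ζ : ℂ) :
    IntegrableOn (fun θ : ℝ => ee (dt ζ (ee (2 * θ))) * b θ) (Ioo (-Real.pi) Real.pi) := by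
  have hm : Measurable fun θ : ℝ => ee (dt ζ (ee (2 * θ))) * b θ := by
    have h1 : Continuous fun θ : ℝ => ee (dt ζ (ee (2 * θ))) :=
      ee_cont.comp (dt_cont.comp (continuous_const.prodMk (ee_cont.comp (by fun_prop))))
    exact h1.measurable.mul hb
  refine Measure.integrableOn_of_bounded (M := B) (by simp) hm.aestronglyMeasurable
    (Filter.Eventually.of_forall fun θ => ?_)
  rw [norm_mul, norm_ee, one_mul]
  exact hB θ

lemma bc_meas (b : ℝ → ℂ) (hb : Measurable b) : Measurable (bc b) := by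
  unfold bc; fun_prop

lemma bs_meas (b : ℝ → ℂ) (hb : Measurable b) : Measurable (bs b) := by
  unfold bs; fun_prop

lemma bc_le (b : ℝ → ℂ) (θ : ℝ) : ‖bc b θ‖ ≤ ‖b θ‖ := by
  unfold bc
  rw [norm_mul, Complex.norm_real, Real.norm_eq_abs]
  exact mul_le_of_le_one_right (norm_nonneg _) (Real.abs_cos_le_one _)

lemma bs_le (b : ℝ → ℂ) (θ : ℝ) : ‖bs b θ‖ ≤ ‖b θ‖ := by
  unfold bs
  rw [norm_mul, Complex.norm_real, Real.norm_eq_abs]
  exact mul_le_of_le_one_right (norm_nonneg _) (Real.abs_sin_le_one _)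

lemma ang2 (b : ℝ → ℂ) (hb : Measurable b) (B : ℝ) (hB : ∀ θ, ‖b θ‖ ≤ B) (x : ℂ) (T : ℝ) (hT : T ≠ 0) :
    ∫ θ in Ioo (-Real.pi) Real.pi, b θ * (((dt x (ee θ) ^ 2 : ℝ) : ℂ) * H (dt x (ee θ)) T) =
      Gm T * ee (‖x‖ ^ 2 / (8 * T)) * ((‖x‖ ^ 2 * Cx b (x ^ 2 / ((8 * T : ℝ) : ℂ)) +
        (x ^ 2).re * Cx (bc b) (x ^ 2 / ((8 * T : ℝ) : ℂ)) +
        (x ^ 2).im * Cx (bs b) (x ^ 2 / ((8 * T : ℝ) : ℂ))) / 2) := by
  have i1 := Cx_int b hb B hB (x ^ 2 / ((8 * T : ℝ) : ℂ))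
  have i2 := Cx_int (bc b) (bc_meas b hb) B (fun θ => (bc_le b θ).trans (hB θ)) (x ^ 2 / ((8 * T : ℝ) : ℂ))
  have i3 := Cx_int (bs b) (bs_meas b hb) B (fun θ => (bs_le b θ).trans (hB θ)) (x ^ 2 / ((8 * T : ℝ) : ℂ))
  have j12 : IntegrableOn (fun θ : ℝ => (‖x‖ : ℂ) ^ 2 * (ee (dt (x ^ 2 / ((8 * T : ℝ) : ℂ)) (ee (2 * θ))) * b θ) +
      ((x ^ 2).re : ℂ) * (ee (dt (x ^ 2 / ((8 * T : ℝ) : ℂ)) (ee (2 * θ))) * bc b θ)) (Ioo (-Real.pi) Real.pi) :=
    (i1.const_mul _).add (i2.const_mul _)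
  unfold Cx
  rw [← integral_const_mul, ← integral_const_mul, ← integral_const_mul,
    ← integral_add (i1.const_mul _) (i2.const_mul _),
    ← integral_add j12 (i3.const_mul _), ← integral_div,
    ← integral_const_mul]
  apply integral_congr_ae
  refine Filter.Eventually.of_forall fun θ => ?_
  simp only
  rw [H_pt x θ T hT, sq_id]
  unfold bc bs
  have e : dt (x ^ 2) (ee (2 * θ)) = (x ^ 2).re * Real.cos (2 * θ) + (x ^ 2).im * Real.sin (2 * θ) := by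
    unfold dt
    rw [ee_re, ee_im]
  have e' : ((((‖x‖ ^ 2 + dt (x ^ 2) (ee (2 * θ))) / 2 : ℝ)) : ℂ) =
      ((‖x‖ : ℂ) ^ 2 + ((x ^ 2).re * (Real.cos (2 * θ) : ℂ) + (x ^ 2).im * (Real.sin (2 * θ) : ℂ))) / 2 := by
    rw [e]
    push_cast
    ring
  rw [e']
  ring

end Pool.Agent.Y250.AN
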