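import Mathlib
import Pool.Agent.Y250.AN.C5
set_option autoImplicit false

/-! The extension operator in polar coordinates. -/

namespace Pool.Agent.Y250.AN

open MeasureTheory Set Complex FourierTransform SchwartzMap Filter Topology
open scoped ENNReal NNReal ContDiff

/-- extension operator of the paraboloid, plane identified with `ℂ` -/
noncomputable def Ext (f : ℂ → ℂ) (p : ℂ × ℝ) : ℂ :=
  ∫ ξ, ee (-(dt p.1 ξ + p.2 * ‖ξ‖ ^ 2)) * f ξ

/-- function in polar form -/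
noncomputable def pf (b k : ℝ → ℂ) (ξ : ℂ) : ℂ := b (arg ξ) * k ‖ξ‖

lemma pol_symm (p : ℝ × ℝ) : Complex.polarCoord.symm p = p.1 * ee p.2 := by
  rw [Complex.polarCoord_symm_apply]
  unfold ee
  rw [Complex.exp_mul_I]
  simp

lemma arg_pol (r θ : ℝ) (hr : 0 < r) (hθ : θ ∈ Ioo (-Real.pi) Real.pi) : arg (r * ee θ) = θ := by
  unfold ee
  rw [Complex.exp_mul_I]
  exact Complex.arg_mul_cos_add_sin_mul_I hr ⟨hθ.1, hθ.2.le⟩

lemma norm_pol (r θ : ℝ) (hr : 0 < r) : ‖(r : ℂ) * ee θ‖ = r := by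
  rw [norm_mul, norm_ee, mul_one, Complex.norm_real, Real.norm_eq_abs, abs_of_pos hr]

lemma dt_pol (x : ℂ) (r θ : ℝ) : dt x ((r : ℂ) * ee θ) = r * dt x (ee θ) := by
  unfold dt
  rw [Complex.re_ofReal_mul, Complex.im_ofReal_mul]
  ring

/-- polar coordinates for `Ext` -/
lemma Ext_pol (b k : ℝ → ℂ) (hb : Measurable b) (hk : Measurable k) (B : ℝ) (hB : ∀ θ, ‖b θ‖ ≤ B)
    (hki : IntegrableOn (fun r : ℝ => (r : ℂ) * k r) (Ioi 0)) (x : ℂ) (t : ℝ) :
    Ext (pf b k) (x, t) = ∫ θ in Ioo (-Real.pi) Real.pi,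
      b θ * ∫ r in Ioi (0 : ℝ), ee (-(r * dt x (ee θ) + t * r ^ 2)) * ((r : ℂ) * k r) := by
  unfold Ext
  rw [← Complex.integral_comp_polarCoord_symm]
  have e1 : ∫ p in polarCoord.target, p.1 • (ee (-(dt (x, t).1 (Complex.polarCoord.symm p) +
      (x, t).2 * ‖Complex.polarCoord.symm p‖ ^ 2)) * pf b k (Complex.polarCoord.symm p)) =
      ∫ p in Ioi (0 : ℝ) ×ˢ Ioo (-Real.pi) Real.pi,
        b p.2 * (ee (-(p.1 * dt x (ee p.2) + t * p.1 ^ 2)) * ((p.1 : ℂ) * k p.1)) := by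
    apply setIntegral_congr_fun polarCoord.open_target.measurableSet
    intro p hp
    have hp1 : 0 < p.1 := hp.1
    have hp2 : p.2 ∈ Ioo (-Real.pi) Real.pi := hp.2
    simp only
    rw [pol_symm, dt_pol, norm_pol _ _ hp1]
    unfold pf
    rw [arg_pol _ _ hp1 hp2, norm_pol _ _ hp1, Complex.real_smul]
    ring
  rw [e1]
  have hint : Integrable (fun p : ℝ × ℝ => b p.2 * (ee (-(p.1 * dt x (ee p.2) + t * p.1 ^ 2)) * ((p.1 : ℂ) * k p.1)))
      ((volume.restrict (Ioi (0 : ℝ))).prod (volume.restrict (Ioo (-Real.pi) Real.pi))) := by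
    have h2 : Integrable (fun _ : ℝ => B) (volume.restrict (Ioo (-Real.pi) Real.pi)) :=
      integrable_const _
    refine Integrable.mono' (hki.norm.mul_prod h2) ?_ (Filter.Eventually.of_forall fun p => ?_)
    · have h3 : Continuous fun p : ℝ × ℝ => ee (-(p.1 * dt x (ee p.2) + t * p.1 ^ 2)) := by
        apply ee_cont.comp
        have h4 : Continuous fun p : ℝ × ℝ => dt x (ee p.2) :=
          dt_cont.comp (continuous_const.prodMk (ee_cont.comp continuous_snd))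
        fun_prop
      exact ((hb.comp measurable_snd).mul (h3.measurable.mul
        ((Complex.measurable_ofReal.comp measurable_fst).mul (hk.comp measurable_fst)))).aestronglyMeasurable
    · rw [norm_mul, norm_mul, norm_ee, one_mul, mul_comm]
      exact mul_le_mul_of_nonneg_left (hB _) (norm_nonneg _)
  rw [Measure.volume_eq_prod, ← Measure.prod_restrict, integral_prod_symm _ hint]
  apply integral_congr_ae
  refine Filter.Eventually.of_forall fun θ => ?_
  simp only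
  rw [integral_const_mul]

/-- the radial factor of the basic window -/
noncomputable def k0 (r : ℝ) : ℂ := (r : ℂ) * g0 (r ^ 2)

/-- half line profile -/
noncomputable def Kp (s t : ℝ) : ℂ :=
  ∫ r in Ioi (0 : ℝ), ee (-(r * s + t * r ^ 2)) * ((r : ℂ) ^ 2 * g0 (r ^ 2))

lemma K_int (s t : ℝ) : Integrable fun r : ℝ => ee (-(r * s + t * r ^ 2)) * ((r : ℂ) ^ 2 * g0 (r ^ 2)) := by
  refine prof_int.norm.mono' ?_ (Filter.Eventually.of_forall fun r => ?_)
  · have := g0_cont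
    have := ee_cont
    apply Continuous.aestronglyMeasurable
    fun_prop
  · rw [norm_mul, norm_ee, one_mul]

lemma K_split (s t : ℝ) : K s t = Kp s t + Kp (-s) t := by
  unfold K Kp
  rw [← integral_add_compl measurableSet_Ioi (K_int s t), compl_Ioi]
  congr 1
  have h := integral_comp_neg_Ioi (0 : ℝ) (fun r : ℝ => ee (-(r * s + t * r ^ 2)) * ((r : ℂ) ^ 2 * g0 (r ^ 2)))
  rw [neg_zero] at h
  rw [← h]
  apply setIntegral_congr_fun measurableSet_Ioi
  intro r _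
  simp only
  rw [neg_sq]
  congr 2
  · ring
  · push_cast; ring

lemma k0_meas : Measurable k0 := by
  have := g0_cont
  unfold k0
  fun_prop

lemma k0_int : IntegrableOn (fun r : ℝ => (r : ℂ) * k0 r) (Ioi 0) := by
  have : (fun r : ℝ => (r : ℂ) * k0 r) = fun r : ℝ => ((r : ℂ) ^ 2 * g0 (r ^ 2)) := by
    ext r
    unfold k0
    ring
  rw [this]
  exact prof_int.integrableOn

lemma Kp_meas (t : ℝ) : Measurable fun s => Kp s t := by
  have h1 : StronglyMeasurable (fun p : ℝ × ℝ =>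
      ee (-(p.2 * p.1 + t * p.2 ^ 2)) * ((p.2 : ℂ) ^ 2 * g0 (p.2 ^ 2))) := by
    apply Continuous.stronglyMeasurable
    have := g0_cont
    have := ee_cont
    fun_prop
  exact (h1.integral_prod_right' (ν := volume.restrict (Ioi (0 : ℝ)))).measurable

lemma Kp_bdd (s t : ℝ) : ‖Kp s t‖ ≤ ∫ r : ℝ, ‖((r : ℂ) ^ 2 * g0 (r ^ 2))‖ := by
  unfold Kp
  refine (norm_integral_le_integral_norm _).trans ?_
  simp only [norm_mul (ee _), norm_ee, one_mul]
  exact setIntegral_le_integral prof_int.norm (Filter.Eventually.of_forall fun r => norm_nonneg _)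

lemma dt_ee_cont (x : ℂ) : Continuous fun θ : ℝ => dt x (ee θ) :=
  dt_cont.comp (continuous_const.prodMk ee_cont)

lemma dt_ee_pi (x : ℂ) (θ : ℝ) : dt x (ee (θ + Real.pi)) = -dt x (ee θ) := by
  unfold dt
  rw [ee_re, ee_im, ee_re, ee_im, Real.cos_add_pi, Real.sin_add_pi]
  ring

lemma Ext_k0 (b : ℝ → ℂ) (hb : Measurable b) (B : ℝ) (hB : ∀ θ, ‖b θ‖ ≤ B)
    (hper : ∀ θ, b (θ + Real.pi) = b θ) (x : ℂ) (t : ℝ) :
    Ext (pf b k0) (x, t) = (1 / 2) * ∫ θ in Ioo (-Real.pi) Real.pi, b θ * K (dt x (ee θ)) t := by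
  have h0 := Ext_pol b k0 hb k0_meas B hB k0_int x t
  have e1 : ∀ r : ℝ, (r : ℂ) * k0 r = ((r : ℂ) ^ 2 * g0 (r ^ 2)) := by
    intro r
    unfold k0
    ring
  simp only [e1] at h0
  have e2 : ∀ s : ℝ, ∫ r in Ioi (0 : ℝ), ee (-(r * s + t * r ^ 2)) * ((r : ℂ) ^ 2 * g0 (r ^ 2)) =
      Kp s t := fun s => rfl
  simp only [e2] at h0
  have hI : ∀ σ : ℝ, IntegrableOn (fun θ : ℝ => b θ * Kp (σ * dt x (ee θ)) t) (Ioo (-Real.pi) Real.pi) := by
    intro σ
    refine Measure.integrableOn_of_bounded (M := B * ∫ r : ℝ, ‖((r : ℂ) ^ 2 * g0 (r ^ 2))‖) (by simp) ?_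
      (Filter.Eventually.of_forall fun θ => ?_)
    · refine (hb.mul ((Kp_meas t).comp ?_)).aestronglyMeasurable
      exact (dt_ee_cont x).measurable.const_mul σ
    · rw [norm_mul]
      exact mul_le_mul (hB _) (Kp_bdd _ _) (norm_nonneg _) ((norm_nonneg _).trans (hB 0))
  have h1 : ∫ θ in Ioo (-Real.pi) Real.pi, b θ * Kp (-dt x (ee θ)) t =
      ∫ θ in Ioo (-Real.pi) Real.pi, b θ * Kp (dt x (ee θ)) t := by
    have hp : Function.Periodic (fun θ => b θ * Kp (dt x (ee θ)) t) (2 * Real.pi) := by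
      intro θ
      simp only
      have a1 : b (θ + 2 * Real.pi) = b θ := by
        rw [two_mul, ← add_assoc, hper, hper]
      have a2 : dt x (ee (θ + 2 * Real.pi)) = dt x (ee θ) := by
        rw [two_mul, ← add_assoc, dt_ee_pi, dt_ee_pi, neg_neg]
      rw [a1, a2]
    have h2 : ∫ θ in (-Real.pi)..Real.pi, b θ * Kp (-dt x (ee θ)) t =
        ∫ θ in (-Real.pi)..Real.pi, (fun θ => b θ * Kp (dt x (ee θ)) t) (θ + Real.pi) := by
      apply intervalIntegral.integral_congr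
      intro θ _
      simp only
      rw [hper, dt_ee_pi]
    rw [← integral_Ioc_eq_integral_Ioo, ← integral_Ioc_eq_integral_Ioo,
      ← intervalIntegral.integral_of_le (by linarith [Real.pi_pos]),
      ← intervalIntegral.integral_of_le (by linarith [Real.pi_pos]), h2,
      intervalIntegral.integral_comp_add_right (fun θ => b θ * Kp (dt x (ee θ)) t) Real.pi]
    have h3 := hp.intervalIntegral_add_eq (-Real.pi + Real.pi) (-Real.pi)
    rw [show -Real.pi + Real.pi + 2 * Real.pi = Real.pi + Real.pi by ring,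
      show -Real.pi + 2 * Real.pi = Real.pi by ring] at h3
    exact h3
  have h4 : ∫ θ in Ioo (-Real.pi) Real.pi, b θ * K (dt x (ee θ)) t =
      (∫ θ in Ioo (-Real.pi) Real.pi, b θ * Kp (dt x (ee θ)) t) +
      ∫ θ in Ioo (-Real.pi) Real.pi, b θ * Kp (-dt x (ee θ)) t := by
    have i1 := hI 1
    have i2 := hI (-1)
    simp only [one_mul, neg_mul] at i1 i2
    rw [← integral_add i1 i2]
    apply integral_congr_ae
    refine Filter.Eventually.of_forall fun θ => ?_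
    simp only
    rw [K_split]
    ring
  rw [h4, h1, h0]
  ring

lemma HM (t : ℝ) (ht : 2 ≤ |t|) (s τ : ℝ) (hτ : τ ∈ Icc (-1 : ℝ) 1) : ‖H s (t + τ)‖ ≤ Real.sqrt Real.pi := by
  unfold H
  have h1 := T_low t ht τ hτ
  rw [norm_mul, norm_ee, mul_one, norm_Gm _ (T_ne t ht τ hτ)]
  apply Real.sqrt_le_sqrt
  apply div_le_self Real.pi_pos.le
  linarith

lemma Gm_meas : Measurable Gm := by
  unfold Gm
  fun_prop

lemma H_meas : Measurable fun p : ℝ × ℝ => H p.1 p.2 := by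
  unfold H
  have := Gm_meas
  have := ee_meas
  fun_prop

lemma H_meas2 (x : ℂ) (t : ℝ) : Measurable fun p : ℝ × ℝ => H (dt x (ee p.1)) (t + p.2) := by
  have h1 : Measurable fun p : ℝ × ℝ => dt x (ee p.1) := (dt_ee_cont x).measurable.comp measurable_fst
  have h2 : Measurable fun p : ℝ × ℝ => t + p.2 := measurable_snd.const_add t
  exact Measurable.comp (g := fun p : ℝ × ℝ => H p.1 p.2)
    (f := fun p : ℝ × ℝ => (dt x (ee p.1), t + p.2)) H_meas (h1.prodMk h2)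

/-- exchange of the two integrals -/
lemma swap (b : ℝ → ℂ) (hb : Measurable b) (B : ℝ) (hB : ∀ θ, ‖b θ‖ ≤ B)
    (w : ℝ → ℝ → ℂ) (hw : Measurable fun p : ℝ × ℝ => w p.1 p.2) (M : ℝ)
    (hwM : ∀ θ, ∀ τ ∈ Icc (-1 : ℝ) 1, ‖w θ τ‖ ≤ M) (hw0 : ∀ θ, ∀ τ ∉ Icc (-1 : ℝ) 1, w θ τ = 0) :
    ∫ θ in Ioo (-Real.pi) Real.pi, b θ * ∫ τ, w θ τ =
      ∫ τ, ∫ θ in Ioo (-Real.pi) Real.pi, b θ * w θ τ := by
  have hF : Integrable (Function.uncurry fun (θ τ : ℝ) => b θ * w θ τ)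
      ((volume.restrict (Ioo (-Real.pi) Real.pi)).prod volume) := by
    have h1 : Integrable ((Icc (-1 : ℝ) 1).indicator (fun _ => M)) := by
      rw [integrable_indicator_iff measurableSet_Icc]
      exact integrableOn_const (by simp)
    have h2 : Integrable (fun _ : ℝ => B) (volume.restrict (Ioo (-Real.pi) Real.pi)) :=
      integrable_const _
    refine Integrable.mono' (h2.mul_prod h1) ?_ (Filter.Eventually.of_forall fun p => ?_)
    · exact ((hb.comp measurable_fst).mul hw).aestronglyMeasurable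
    · rw [Function.uncurry, norm_mul]
      by_cases hp : p.2 ∈ Icc (-1 : ℝ) 1
      · rw [indicator_of_mem hp]
        exact mul_le_mul (hB _) (hwM _ _ hp) (norm_nonneg _) ((norm_nonneg _).trans (hB 0))
      · rw [indicator_of_notMem hp, hw0 _ _ hp]
        simp
  have h3 := integral_integral_swap hF
  rw [← h3]
  apply integral_congr_ae
  refine Filter.Eventually.of_forall fun θ => ?_
  simp only
  rw [integral_const_mul]

lemma e1_bdd : ∃ M : ℝ, 0 < M ∧ (∀ τ, ‖e1 τ‖ ≤ M) ∧ ∀ τ, ‖etc τ‖ ≤ M := by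
  obtain ⟨M1, h1⟩ := e1_cont.norm.bounded_above_of_compact_support
    (HasCompactSupport.intro isCompact_Icc (fun x hx => by rw [e1_zero x hx, norm_zero]))
  obtain ⟨M2, h2⟩ := etc_smooth.continuous.norm.bounded_above_of_compact_support
    (HasCompactSupport.intro isCompact_Icc (fun x hx => by rw [etc_zero x hx, norm_zero]))
  simp only [norm_norm] at h1 h2
  refine ⟨max 1 (max M1 M2), by positivity, fun τ => ?_, fun τ => ?_⟩
  · exact (h1 τ).trans ((le_max_left _ _).trans (le_max_right _ _))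
  · exact (h2 τ).trans ((le_max_right _ _).trans (le_max_right _ _))

/-- the sum of the three circle transforms -/
noncomputable def Sb (b : ℝ → ℂ) (ζ : ℂ) : ℝ≥0∞ := ‖Cx b ζ‖ₑ + ‖Cx (bc b) ζ‖ₑ + ‖Cx (bs b) ζ‖ₑ

lemma Gm_le (t : ℝ) (ht : 2 ≤ |t|) (τ : ℝ) (hτ : τ ∈ Icc (-1 : ℝ) 1) :
    ‖Gm (t + τ)‖ ≤ 3 * |t| ^ (-(1 / 2) : ℝ) := by
  have h1 := T_low t ht τ hτ
  rw [norm_Gm _ (T_ne t ht τ hτ), Real.rpow_neg (abs_nonneg _), ← Real.sqrt_eq_rpow,
    ← div_eq_mul_inv, Real.sqrt_div Real.pi_pos.le]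
  have h2 : Real.sqrt (|t| / 2) ≤ Real.sqrt |t + τ| := Real.sqrt_le_sqrt h1
  have h3 : 0 < |t| := by linarith
  rw [Real.sqrt_div (abs_nonneg _)] at h2
  have h4 : 0 < Real.sqrt |t| := Real.sqrt_pos.2 h3
  have h5 : 0 < Real.sqrt 2 := by positivity
  have h6 : Real.sqrt Real.pi * Real.sqrt 2 ≤ 3 := by
    rw [← Real.sqrt_mul Real.pi_pos.le]
    apply Real.sqrt_le_iff.2
    constructor
    · norm_num
    · nlinarith [Real.pi_lt_four]
  have h7 : 0 < Real.sqrt |t + τ| := lt_of_lt_of_le (by positivity) h2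
  rw [div_le_div_iff₀ h7 h4]
  rw [div_le_iff₀ h5] at h2
  nlinarith [Real.sqrt_nonneg Real.pi]

lemma bdII : ∃ C : ℝ, 0 < C ∧ ∀ (b : ℝ → ℂ), Measurable b → ∀ B : ℝ, (∀ θ, ‖b θ‖ ≤ B) →
    (∀ θ, b (θ + Real.pi) = b θ) → ∀ (x : ℂ) (t : ℝ), 2 ≤ |t| →
    ‖Ext (pf b k0) (x, t)‖ₑ ≤ ENNReal.ofReal (C * |t| ^ (-(1 / 2) : ℝ)) *
      ∫⁻ τ in Icc (-1 : ℝ) 1, Sb b (x ^ 2 / ((8 * (t + τ) : ℝ) : ℂ)) := by
  obtain ⟨M, hM, hM1, hM2⟩ := e1_bdd
  refine ⟨M * 3, by positivity, ?_⟩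
  intro b hb B hB hper x t ht
  rw [Ext_k0 b hb B hB hper]
  have h1 : ∀ θ, K (dt x (ee θ)) t = ∫ τ, e1 τ * H (dt x (ee θ)) (t + τ) := fun θ =>
    K_eq (dt x (ee θ)) t ht
  simp only [h1]
  rw [swap b hb B hB (fun θ τ => e1 τ * H (dt x (ee θ)) (t + τ)) ?_ (M * Real.sqrt Real.pi) ?_ ?_]
  rotate_left
  · exact (e1_cont.measurable.comp measurable_snd).mul (H_meas2 x t)
  · intro θ τ hτ
    rw [norm_mul]
    exact mul_le_mul (hM1 τ) (HM t ht _ τ hτ) (norm_nonneg _) hM.le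
  · intro θ τ hτ
    rw [e1_zero τ hτ, zero_mul]
  have h4 : ∀ τ, ∫ θ in Ioo (-Real.pi) Real.pi, b θ * (e1 τ * H (dt x (ee θ)) (t + τ)) =
      e1 τ * (Gm (t + τ) * ee (‖x‖ ^ 2 / (8 * (t + τ))) * Cx b (x ^ 2 / ((8 * (t + τ) : ℝ) : ℂ))) := by
    intro τ
    by_cases hτ : τ ∈ Icc (-1 : ℝ) 1
    · rw [← ang1 b x (t + τ) (T_ne t ht τ hτ), ← integral_const_mul]
      apply integral_congr_ae
      refine Filter.Eventually.of_forall fun θ => ?_
      simp only
      ring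
    · rw [e1_zero τ hτ]
      simp
  simp only [h4]
  rw [enorm_mul]
  have h5 : ‖(1 / 2 : ℂ)‖ₑ ≤ 1 := by
    rw [← ofReal_norm]
    rw [show ‖(1 / 2 : ℂ)‖ = 1 / 2 by simp]
    rw [ENNReal.ofReal_le_one]
    norm_num
  calc _ ≤ 1 * ∫⁻ τ, ‖e1 τ * (Gm (t + τ) * ee (‖x‖ ^ 2 / (8 * (t + τ))) * Cx b (x ^ 2 / ((8 * (t + τ) : ℝ) : ℂ)))‖ₑ :=
        mul_le_mul' h5 (enorm_integral_le_lintegral_enorm _)
    _ ≤ ∫⁻ τ, (Icc (-1 : ℝ) 1).indicator (fun τ => ENNReal.ofReal (M * 3 * |t| ^ (-(1 / 2) : ℝ)) *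
          Sb b (x ^ 2 / ((8 * (t + τ) : ℝ) : ℂ))) τ := by
        rw [one_mul]
        apply lintegral_mono
        intro τ
        simp only
        by_cases hτ : τ ∈ Icc (-1 : ℝ) 1
        · rw [indicator_of_mem hτ, enorm_mul, enorm_mul, enorm_mul, ← mul_assoc]
          refine mul_le_mul' ?_ ?_
          · rw [← ofReal_norm, ← ofReal_norm, ← ofReal_norm, norm_ee, ENNReal.ofReal_one, mul_one,
              ← ENNReal.ofReal_mul (norm_nonneg _)]
            apply ENNReal.ofReal_le_ofReal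
            rw [mul_assoc M]
            exact mul_le_mul (hM1 τ) (Gm_le t ht τ hτ) (norm_nonneg _) hM.le
          · unfold Sb
            rw [add_assoc]
            exact le_self_add
        · rw [e1_zero τ hτ]
          simp
    _ = _ := by
        rw [lintegral_indicator measurableSet_Icc, lintegral_const_mul' _ _ ENNReal.ofReal_ne_top]

end Pool.Agent.Y250.AN
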