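import Mathlib
import Pool.Agent.Y250.AN.C6
set_option autoImplicit false

/-! The second pointwise bound. -/

namespace Pool.Agent.Y250.AN

open MeasureTheory Set Complex FourierTransform SchwartzMap Filter Topology
open scoped ENNReal NNReal ContDiff

/-- the integrand of the second formula -/
noncomputable def w2 (x : ℂ) (t θ τ : ℝ) : ℂ :=
  etc τ * (I * ((-(1 / (2 * ((t + τ : ℝ) : ℂ))) - I * (((dt x (ee θ) ^ 2 : ℝ) : ℂ) / (4 * ((t + τ : ℝ) : ℂ) ^ 2))) *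
    H (dt x (ee θ)) (t + τ)))

lemma w2_meas (x : ℂ) (t : ℝ) : Measurable fun p : ℝ × ℝ => w2 x t p.1 p.2 := by
  have h1 := H_meas2 x t
  have h2 : Measurable fun p : ℝ × ℝ => etc p.2 := etc_smooth.continuous.measurable.comp measurable_snd
  have h3 : Measurable fun p : ℝ × ℝ => dt x (ee p.1) := (dt_ee_cont x).measurable.comp measurable_fst
  have h4 : Measurable fun p : ℝ × ℝ => (((dt x (ee p.1)) ^ 2 : ℝ) : ℂ) :=
    Complex.measurable_ofReal.comp (h3.pow_const 2)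
  have h5 : Measurable fun p : ℝ × ℝ => ((t + p.2 : ℝ) : ℂ) :=
    Complex.measurable_ofReal.comp (measurable_snd.const_add t)
  have h6 : Measurable fun p : ℝ × ℝ =>
      (-(1 / (2 * ((t + p.2 : ℝ) : ℂ))) - I * (((dt x (ee p.1) ^ 2 : ℝ) : ℂ) / (4 * ((t + p.2 : ℝ) : ℂ) ^ 2))) :=
    ((h5.const_mul 2).const_div 1).neg.sub ((h4.div ((h5.pow_const 2).const_mul 4)).const_mul I)
  exact h2.mul ((h6.mul h1).const_mul I)

lemma s_le (x : ℂ) (θ : ℝ) : dt x (ee θ) ^ 2 ≤ ‖x‖ ^ 2 := by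
  have h := dt_abs_le x (ee θ)
  rw [norm_ee, mul_one] at h
  rw [← sq_abs]
  exact pow_le_pow_left₀ (abs_nonneg _) h 2

lemma fac_le (x : ℂ) (t : ℝ) (ht : 2 ≤ |t|) (τ : ℝ) (hτ : τ ∈ Icc (-1 : ℝ) 1) :
    1 / (2 * |t + τ|) + ‖x‖ ^ 2 / (8 * |t + τ| ^ 2) ≤ 1 / |t| + ‖x‖ ^ 2 / |t| ^ 2 := by
  have h1 := T_low t ht τ hτ
  have h3 : 0 < |t| := by linarith
  have h4 : 0 < |t + τ| := by linarith
  apply add_le_add
  · apply one_div_le_one_div_of_le h3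
    linarith
  · apply div_le_div_of_nonneg_left (by positivity) (by positivity)
    nlinarith

lemma w2_bd (x : ℂ) (t : ℝ) (ht : 2 ≤ |t|) (M : ℝ) (hM : 0 ≤ M) (hM2 : ∀ τ, ‖etc τ‖ ≤ M) (θ τ : ℝ)
    (hτ : τ ∈ Icc (-1 : ℝ) 1) : ‖w2 x t θ τ‖ ≤ M * ((1 + ‖x‖ ^ 2) * Real.sqrt Real.pi) := by
  unfold w2
  have h1 := T_low t ht τ hτ
  have h1' : 1 ≤ |t + τ| := by linarith
  rw [norm_mul, norm_mul, Complex.norm_I, one_mul, norm_mul]
  have h2 : ‖(-(1 / (2 * ((t + τ : ℝ) : ℂ))) - I * (((dt x (ee θ) ^ 2 : ℝ) : ℂ) / (4 * ((t + τ : ℝ) : ℂ) ^ 2)))‖ ≤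
      1 + ‖x‖ ^ 2 := by
    refine (norm_sub_le _ _).trans ?_
    apply add_le_add
    · rw [norm_neg, norm_div, norm_one, norm_mul, Complex.norm_real, Real.norm_eq_abs, Complex.norm_ofNat]
      rw [div_le_one (by linarith)]
      linarith
    · rw [norm_mul, Complex.norm_I, one_mul, norm_div, Complex.norm_real, norm_mul, norm_pow, norm_pow,
        Complex.norm_real, Real.norm_eq_abs, Real.norm_eq_abs, Complex.norm_ofNat, sq_abs]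
      have h5 := s_le x θ
      have h6 : 1 ≤ 4 * |t + τ| ^ 2 := by nlinarith
      exact (div_le_self (sq_nonneg _) h6).trans h5
  exact mul_le_mul (hM2 τ) (mul_le_mul h2 (HM t ht _ τ hτ) (norm_nonneg _) (by positivity))
    (by positivity) hM

lemma w2_ang (b : ℝ → ℂ) (hb : Measurable b) (B : ℝ) (hB : ∀ θ, ‖b θ‖ ≤ B) (x : ℂ) (t : ℝ) (τ : ℝ)
    (hT : t + τ ≠ 0) :
    ∫ θ in Ioo (-Real.pi) Real.pi, b θ * w2 x t θ τ = etc τ * (I * ((Gm (t + τ) * ee (‖x‖ ^ 2 / (8 * (t + τ)))) *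
      (-(1 / (2 * ((t + τ : ℝ) : ℂ))) * Cx b (x ^ 2 / ((8 * (t + τ) : ℝ) : ℂ)) -
      I / (4 * ((t + τ : ℝ) : ℂ) ^ 2) * ((‖x‖ ^ 2 * Cx b (x ^ 2 / ((8 * (t + τ) : ℝ) : ℂ)) +
        (x ^ 2).re * Cx (bc b) (x ^ 2 / ((8 * (t + τ) : ℝ) : ℂ)) +
        (x ^ 2).im * Cx (bs b) (x ^ 2 / ((8 * (t + τ) : ℝ) : ℂ))) / 2)))) := by
  have a1 := ang1 b x (t + τ) hT
  have a2 := ang2 b hb B hB x (t + τ) hT
  have hHb : ∀ θ, ‖H (dt x (ee θ)) (t + τ)‖ ≤ ‖Gm (t + τ)‖ := by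
    intro θ
    unfold H
    rw [norm_mul, norm_ee, mul_one]
  have hHm : Measurable fun θ : ℝ => H (dt x (ee θ)) (t + τ) :=
    Measurable.comp (g := fun p : ℝ × ℝ => H p.1 p.2) (f := fun θ : ℝ => (dt x (ee θ), t + τ)) H_meas
      ((dt_ee_cont x).measurable.prodMk measurable_const)
  have i1 : IntegrableOn (fun θ : ℝ => b θ * H (dt x (ee θ)) (t + τ)) (Ioo (-Real.pi) Real.pi) := by
    refine Measure.integrableOn_of_bounded (M := B * ‖Gm (t + τ)‖) (by simp)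
      (hb.mul hHm).aestronglyMeasurable (Filter.Eventually.of_forall fun θ => ?_)
    rw [norm_mul]
    exact mul_le_mul (hB _) (hHb _) (norm_nonneg _) ((norm_nonneg _).trans (hB 0))
  have i2 : IntegrableOn (fun θ : ℝ => b θ * (((dt x (ee θ) ^ 2 : ℝ) : ℂ) * H (dt x (ee θ)) (t + τ)))
      (Ioo (-Real.pi) Real.pi) := by
    refine Measure.integrableOn_of_bounded (M := B * (‖x‖ ^ 2 * ‖Gm (t + τ)‖)) (by simp)
      (hb.mul ((Complex.measurable_ofReal.comp ((dt_ee_cont x).measurable.pow_const 2)).mul hHm)).aestronglyMeasurable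
      (Filter.Eventually.of_forall fun θ => ?_)
    rw [norm_mul, norm_mul, Complex.norm_real, Real.norm_eq_abs, abs_of_nonneg (sq_nonneg _)]
    exact mul_le_mul (hB _) (mul_le_mul (s_le x θ) (hHb _) (norm_nonneg _) (by positivity)) (by positivity)
      ((norm_nonneg _).trans (hB 0))
  have e : ∀ θ, b θ * w2 x t θ τ = etc τ * I * (-(1 / (2 * ((t + τ : ℝ) : ℂ)))) * (b θ * H (dt x (ee θ)) (t + τ)) +
      etc τ * I * (-(I / (4 * ((t + τ : ℝ) : ℂ) ^ 2))) *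
        (b θ * (((dt x (ee θ) ^ 2 : ℝ) : ℂ) * H (dt x (ee θ)) (t + τ))) := by
    intro θ
    unfold w2
    ring
  simp only [e]
  rw [integral_add (i1.const_mul _) (i2.const_mul _), integral_const_mul, integral_const_mul, a1, a2]
  ring

lemma w2_bound (b : ℝ → ℂ) (hb : Measurable b) (B : ℝ) (hB : ∀ θ, ‖b θ‖ ≤ B) (x : ℂ) (t : ℝ)
    (ht : 2 ≤ |t|) (M : ℝ) (hM : 0 < M) (hM2 : ∀ τ, ‖etc τ‖ ≤ M) (τ : ℝ) (hτ : τ ∈ Icc (-1 : ℝ) 1) :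
    ‖∫ θ in Ioo (-Real.pi) Real.pi, b θ * w2 x t θ τ‖ₑ ≤
      ENNReal.ofReal (M * 3 * (|t| ^ (-(1 / 2) : ℝ) * (1 / |t| + ‖x‖ ^ 2 / |t| ^ 2))) *
        Sb b (x ^ 2 / ((8 * (t + τ) : ℝ) : ℂ)) := by
  have hT := T_ne t ht τ hτ
  rw [w2_ang b hb B hB x t τ hT]
  set ζ : ℂ := x ^ 2 / ((8 * (t + τ) : ℝ) : ℂ) with hζ
  have hS : Sb b ζ = ENNReal.ofReal (‖Cx b ζ‖ + ‖Cx (bc b) ζ‖ + ‖Cx (bs b) ζ‖) := by
    unfold Sb
    rw [ENNReal.ofReal_add (by positivity) (by positivity), ENNReal.ofReal_add (by positivity) (by positivity),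
      ofReal_norm, ofReal_norm, ofReal_norm]
  rw [hS, ← ofReal_norm, ← ENNReal.ofReal_mul (by positivity)]
  apply ENNReal.ofReal_le_ofReal
  rw [norm_mul, norm_mul, Complex.norm_I, one_mul, norm_mul, norm_mul, norm_ee, mul_one]
  set P := ‖Cx b ζ‖ + ‖Cx (bc b) ζ‖ + ‖Cx (bs b) ζ‖ with hP
  have hre : |(x ^ 2).re| ≤ ‖x‖ ^ 2 := by
    refine (Complex.abs_re_le_norm _).trans ?_
    rw [norm_pow]
  have him : |(x ^ 2).im| ≤ ‖x‖ ^ 2 := by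
    refine (Complex.abs_im_le_norm _).trans ?_
    rw [norm_pow]
  have hin : ‖(‖x‖ ^ 2 * Cx b ζ + (x ^ 2).re * Cx (bc b) ζ + (x ^ 2).im * Cx (bs b) ζ : ℂ)‖ ≤ ‖x‖ ^ 2 * P := by
    calc _ ≤ ‖(‖x‖ : ℂ) ^ 2 * Cx b ζ‖ + ‖((x ^ 2).re : ℂ) * Cx (bc b) ζ‖ + ‖((x ^ 2).im : ℂ) * Cx (bs b) ζ‖ :=
          norm_add₃_le
      _ ≤ ‖x‖ ^ 2 * ‖Cx b ζ‖ + ‖x‖ ^ 2 * ‖Cx (bc b) ζ‖ + ‖x‖ ^ 2 * ‖Cx (bs b) ζ‖ := by
          rw [norm_mul, norm_mul, norm_mul, norm_pow, Complex.norm_real, Complex.norm_real, Complex.norm_real,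
            norm_norm, Real.norm_eq_abs, Real.norm_eq_abs]
          gcongr
      _ = _ := by rw [hP]; ring
  have hP0 : 0 ≤ P := by positivity
  have hCb : ‖Cx b ζ‖ ≤ P := by
    rw [hP]
    have := norm_nonneg (Cx (bc b) ζ)
    have := norm_nonneg (Cx (bs b) ζ)
    linarith
  have hT0 : 0 < |t + τ| := abs_pos.2 hT
  have hmain : ‖(-(1 / (2 * ((t + τ : ℝ) : ℂ))) * Cx b ζ -
      I / (4 * ((t + τ : ℝ) : ℂ) ^ 2) * ((‖x‖ ^ 2 * Cx b ζ + (x ^ 2).re * Cx (bc b) ζ + (x ^ 2).im * Cx (bs b) ζ) / 2))‖ ≤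
      (1 / (2 * |t + τ|) + ‖x‖ ^ 2 / (8 * |t + τ| ^ 2)) * P := by
    refine (norm_sub_le _ _).trans ?_
    rw [add_mul]
    apply add_le_add
    · rw [norm_mul, norm_neg, norm_div, norm_one, norm_mul, Complex.norm_real, Real.norm_eq_abs, Complex.norm_ofNat]
      gcongr
    · rw [norm_mul, norm_div, norm_div, Complex.norm_I, norm_mul, norm_pow, Complex.norm_real, Real.norm_eq_abs,
        Complex.norm_ofNat, Complex.norm_ofNat]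
      calc 1 / (4 * |t + τ| ^ 2) * (‖(‖x‖ ^ 2 * Cx b ζ + (x ^ 2).re * Cx (bc b) ζ + (x ^ 2).im * Cx (bs b) ζ : ℂ)‖ / 2)
          ≤ 1 / (4 * |t + τ| ^ 2) * (‖x‖ ^ 2 * P / 2) := by gcongr
        _ = _ := by field_simp; ring
  calc _ ≤ M * (3 * |t| ^ (-(1 / 2) : ℝ) * ((1 / (2 * |t + τ|) + ‖x‖ ^ 2 / (8 * |t + τ| ^ 2)) * P)) := by
        refine mul_le_mul (hM2 τ) (mul_le_mul (Gm_le t ht τ hτ) hmain (norm_nonneg _) (by positivity))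
          (by positivity) hM.le
    _ ≤ M * (3 * |t| ^ (-(1 / 2) : ℝ) * ((1 / |t| + ‖x‖ ^ 2 / |t| ^ 2) * P)) := by
        have := fac_le x t ht τ hτ
        gcongr
    _ = _ := by ring

lemma bdI : ∃ C : ℝ, 0 < C ∧ ∀ (b : ℝ → ℂ), Measurable b → ∀ B : ℝ, (∀ θ, ‖b θ‖ ≤ B) →
    (∀ θ, b (θ + Real.pi) = b θ) → ∀ (x : ℂ) (t : ℝ), 2 ≤ |t| →
    ‖Ext (pf b k0) (x, t)‖ₑ ≤ ENNReal.ofReal (C * (|t| ^ (-(1 / 2) : ℝ) * (1 / |t| + ‖x‖ ^ 2 / |t| ^ 2))) *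
      ∫⁻ τ in Icc (-1 : ℝ) 1, Sb b (x ^ 2 / ((8 * (t + τ) : ℝ) : ℂ)) := by
  obtain ⟨M, hM, hM1, hM2⟩ := e1_bdd
  refine ⟨M * 3, by positivity, ?_⟩
  intro b hb B hB hper x t ht
  rw [Ext_k0 b hb B hB hper]
  have h1 : ∀ θ, K (dt x (ee θ)) t = ∫ τ, w2 x t θ τ := by
    intro θ
    rw [K_eq2 (dt x (ee θ)) t ht]
    apply integral_congr_ae
    refine Filter.Eventually.of_forall fun τ => ?_
    simp only [w2]
    push_cast
    ring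
  simp only [h1]
  rw [swap b hb B hB (w2 x t) (w2_meas x t) _ (fun θ τ hτ => w2_bd x t ht M hM.le hM2 θ τ hτ) ?_]
  swap
  · intro θ τ hτ
    unfold w2
    rw [etc_zero τ hτ, zero_mul]
  rw [enorm_mul]
  have h5 : ‖(1 / 2 : ℂ)‖ₑ ≤ 1 := by
    rw [← ofReal_norm]
    rw [show ‖(1 / 2 : ℂ)‖ = 1 / 2 by simp]
    rw [ENNReal.ofReal_le_one]
    norm_num
  calc _ ≤ 1 * ∫⁻ τ, ‖∫ θ in Ioo (-Real.pi) Real.pi, b θ * w2 x t θ τ‖ₑ :=
        mul_le_mul' h5 (enorm_integral_le_lintegral_enorm _)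
    _ ≤ ∫⁻ τ, (Icc (-1 : ℝ) 1).indicator (fun τ => 
          ENNReal.ofReal (M * 3 * (|t| ^ (-(1 / 2) : ℝ) * (1 / |t| + ‖x‖ ^ 2 / |t| ^ 2))) *
          Sb b (x ^ 2 / ((8 * (t + τ) : ℝ) : ℂ))) τ := by
        rw [one_mul]
        apply lintegral_mono
        intro τ
        simp only
        by_cases hτ : τ ∈ Icc (-1 : ℝ) 1
        · rw [indicator_of_mem hτ]
          exact w2_bound b hb B hB x t ht M hM hM2 τ hτ
        · have : ∀ θ, w2 x t θ τ = 0 := by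
            intro θ
            unfold w2
            rw [etc_zero τ hτ, zero_mul]
          simp [this]
    _ = _ := by
        rw [lintegral_indicator measurableSet_Icc, lintegral_const_mul' _ _ ENNReal.ofReal_ne_top]

end Pool.Agent.Y250.AN
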