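import Mathlib
import Pool.Agent.Y250.AN.C2
import Pool.Agent.Y250.AN.C7
set_option autoImplicit false

/-! The fixed time `L^4` bound of the basic window. -/

namespace Pool.Agent.Y250.AN

open MeasureTheory Set Complex Filter Topology
open scoped ENNReal NNReal ContDiff

/-- Jensen -/
lemma jensen {X : Type*} [MeasurableSpace X] (μ : Measure X) (f G : X → ℝ≥0∞) (hf : Measurable f)
    (hG : Measurable G) (q : ℝ) (hq : 1 ≤ q) :
    (∫⁻ x, f x * G x ∂μ) ^ q ≤ (∫⁻ x, f x ∂μ) ^ (q - 1) * ∫⁻ x, f x * G x ^ q ∂μ := by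
  rcases eq_or_lt_of_le hq with h1 | h1
  · subst h1
    simp
  have hpq : (Real.conjExponent q).HolderConjugate q :=
    (Real.HolderConjugate.conjExponent h1).symm
  have h2 := ENNReal.lintegral_mul_le_Lp_mul_Lq (μ.withDensity f) hpq
    (f := fun _ => 1) (g := G) aemeasurable_const hG.aemeasurable
  simp only [Pi.mul_apply, one_mul, ENNReal.one_rpow] at h2
  rw [lintegral_withDensity_eq_lintegral_mul _ hf hG,
    lintegral_withDensity_eq_lintegral_mul _ hf (hG.pow_const q),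
    lintegral_withDensity_eq_lintegral_mul _ hf measurable_const] at h2
  simp only [Pi.mul_apply, mul_one] at h2
  have hq0 : 0 < q := by linarith
  have h3 := ENNReal.rpow_le_rpow h2 hq0.le
  rw [ENNReal.mul_rpow_of_nonneg _ _ hq0.le, ← ENNReal.rpow_mul, ← ENNReal.rpow_mul] at h3
  have e1 : 1 / Real.conjExponent q * q = q - 1 := by
    unfold Real.conjExponent
    have : q - 1 ≠ 0 := by linarith
    field_simp
  have e2 : 1 / q * q = 1 := by field_simp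
  rw [e1, e2, ENNReal.rpow_one] at h3
  exact h3

lemma jens4 (F : ℝ → ℝ≥0∞) (hF : Measurable F) :
    (∫⁻ τ in Icc (-1 : ℝ) 1, F τ) ^ 4 ≤ 8 * ∫⁻ τ in Icc (-1 : ℝ) 1, F τ ^ 4 := by
  have h := jensen (volume.restrict (Icc (-1 : ℝ) 1)) (fun _ => 1) F measurable_const hF 4 (by norm_num)
  simp only [one_mul, lintegral_one, Measure.restrict_apply_univ, Real.volume_Icc] at h
  have h3 : (4 : ℝ) - 1 = ((3 : ℕ) : ℝ) := by norm_num
  have h4 : (4 : ℝ) = ((4 : ℕ) : ℝ) := by norm_num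
  rw [h3, h4] at h
  simp only [ENNReal.rpow_natCast] at h
  refine h.trans (le_of_eq ?_)
  congr 1
  rw [show (1 : ℝ) - -1 = 2 by norm_num, ← ENNReal.ofReal_pow (by norm_num)]
  norm_num

lemma add3_pow (a b c : ℝ≥0∞) : (a + b + c) ^ 4 ≤ 27 * (a ^ 4 + b ^ 4 + c ^ 4) := by
  have h := ENNReal.rpow_sum_le_const_mul_sum_rpow (Finset.univ : Finset (Fin 3))
    ![a, b, c] (p := 4) (by norm_num)
  have h3 : (4 : ℝ) - 1 = ((3 : ℕ) : ℝ) := by norm_num
  have h4 : (4 : ℝ) = ((4 : ℕ) : ℝ) := by norm_num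
  rw [h3, h4] at h
  simp only [ENNReal.rpow_natCast, Finset.card_univ, Fintype.card_fin, Fin.sum_univ_three,
    Matrix.cons_val_zero, Matrix.cons_val_one, Matrix.cons_val_two, Matrix.head_cons,
    Matrix.tail_cons] at h
  refine h.trans (le_of_eq ?_)
  norm_num

/-- square norm of the angular density -/
noncomputable def N2 (b : ℝ → ℂ) : ℝ≥0∞ := ∫⁻ θ in Ioo (-Real.pi) Real.pi, ‖b θ‖ₑ ^ 2

/-- first norm of the angular density -/
noncomputable def N1 (b : ℝ → ℂ) : ℝ≥0∞ := ∫⁻ θ in Ioo (-Real.pi) Real.pi, ‖b θ‖ₑ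

lemma Cx_le (b : ℝ → ℂ) (ζ : ℂ) : ‖Cx b ζ‖ₑ ≤ N1 b := by
  unfold Cx N1
  refine (enorm_integral_le_lintegral_enorm _).trans (le_of_eq ?_)
  apply lintegral_congr
  intro θ
  rw [enorm_mul, ← ofReal_norm (ee _), norm_ee, ENNReal.ofReal_one, one_mul]

lemma enorm_mono {a b : ℂ} (h : ‖a‖ ≤ ‖b‖) : ‖a‖ₑ ≤ ‖b‖ₑ := by
  rw [← ofReal_norm, ← ofReal_norm]
  exact ENNReal.ofReal_le_ofReal h

lemma N1_bc (b : ℝ → ℂ) : N1 (bc b) ≤ N1 b := lintegral_mono fun θ => enorm_mono (bc_le b θ)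
lemma N1_bs (b : ℝ → ℂ) : N1 (bs b) ≤ N1 b := lintegral_mono fun θ => enorm_mono (bs_le b θ)
lemma N2_bc (b : ℝ → ℂ) : N2 (bc b) ≤ N2 b :=
  lintegral_mono fun θ => pow_le_pow_left' (enorm_mono (bc_le b θ)) 2
lemma N2_bs (b : ℝ → ℂ) : N2 (bs b) ≤ N2 b :=
  lintegral_mono fun θ => pow_le_pow_left' (enorm_mono (bs_le b θ)) 2

lemma Sb_le (b : ℝ → ℂ) (ζ : ℂ) : Sb b ζ ≤ 3 * N1 b := by
  unfold Sb
  calc _ ≤ N1 b + N1 b + N1 b :=
        add_le_add (add_le_add (Cx_le _ _) ((Cx_le _ _).trans (N1_bc b))) ((Cx_le _ _).trans (N1_bs b))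
    _ = _ := by ring

lemma Cx_meas (b : ℝ → ℂ) (hb : Measurable b) : Measurable (Cx b) := by
  have h1 : StronglyMeasurable (fun p : ℂ × ℝ => ee (dt p.1 (ee (2 * p.2))) * b p.2) := by
    apply Measurable.stronglyMeasurable
    have h2 : Continuous fun p : ℂ × ℝ => ee (dt p.1 (ee (2 * p.2))) :=
      ee_cont.comp (dt_cont.comp (continuous_fst.prodMk (ee_cont.comp (by fun_prop))))
    exact h2.measurable.mul (hb.comp measurable_snd)
  exact (h1.integral_prod_right' (ν := volume.restrict (Ioo (-Real.pi) Real.pi))).measurable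

lemma Sb_meas (b : ℝ → ℂ) (hb : Measurable b) : Measurable (Sb b) := by
  unfold Sb
  exact ((Cx_meas b hb).enorm.add (Cx_meas _ (bc_meas b hb)).enorm).add (Cx_meas _ (bs_meas b hb)).enorm

/-- the weight -/
noncomputable def wt (δ : ℝ) (ζ : ℂ) : ℝ≥0∞ := ENNReal.ofReal ((1 + ‖ζ‖) ^ (-δ))

lemma wt_meas (δ : ℝ) : Measurable (wt δ) := by
  unfold wt
  apply ENNReal.measurable_ofReal.comp
  apply Continuous.measurable
  apply Continuous.rpow_const (by fun_prop)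
  intro w
  left
  positivity

lemma Sb_bound (δ : ℝ) (hδ : 0 < δ) : ∃ C : ℝ, 0 ≤ C ∧ ∀ (b : ℝ → ℂ), Measurable b → ∀ B : ℝ,
    (∀ θ, ‖b θ‖ ≤ B) → ∫⁻ ζ : ℂ, wt δ ζ * Sb b ζ ^ 4 ≤ ENNReal.ofReal (C * B ^ 2) * N2 b := by
  obtain ⟨C, hC, h⟩ := Cx_bound δ hδ
  refine ⟨81 * C, by positivity, ?_⟩
  intro b hb B hB
  have m1 : Measurable fun ζ => wt δ ζ * ‖Cx b ζ‖ₑ ^ 4 := (wt_meas δ).mul ((Cx_meas b hb).enorm.pow_const 4)
  have m2 : Measurable fun ζ => wt δ ζ * ‖Cx (bc b) ζ‖ₑ ^ 4 :=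
    (wt_meas δ).mul ((Cx_meas _ (bc_meas b hb)).enorm.pow_const 4)
  have h1 := h b hb B hB
  have h2 := (h _ (bc_meas b hb) B (fun θ => (bc_le b θ).trans (hB θ))).trans
    (mul_le_mul_right (N2_bc b) _)
  have h3 := (h _ (bs_meas b hb) B (fun θ => (bs_le b θ).trans (hB θ))).trans
    (mul_le_mul_right (N2_bs b) _)
  calc ∫⁻ ζ : ℂ, wt δ ζ * Sb b ζ ^ 4
      ≤ ∫⁻ ζ : ℂ, 27 * (wt δ ζ * ‖Cx b ζ‖ₑ ^ 4 + wt δ ζ * ‖Cx (bc b) ζ‖ₑ ^ 4 +
          wt δ ζ * ‖Cx (bs b) ζ‖ₑ ^ 4) := by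
        apply lintegral_mono
        intro ζ
        simp only
        calc wt δ ζ * Sb b ζ ^ 4 ≤ wt δ ζ * (27 * (‖Cx b ζ‖ₑ ^ 4 + ‖Cx (bc b) ζ‖ₑ ^ 4 +
              ‖Cx (bs b) ζ‖ₑ ^ 4)) := mul_le_mul_right (add3_pow _ _ _) _
          _ = _ := by ring
    _ = 27 * ((∫⁻ ζ : ℂ, wt δ ζ * ‖Cx b ζ‖ₑ ^ 4) + (∫⁻ ζ : ℂ, wt δ ζ * ‖Cx (bc b) ζ‖ₑ ^ 4) +
          ∫⁻ ζ : ℂ, wt δ ζ * ‖Cx (bs b) ζ‖ₑ ^ 4) := by
        have m12 : Measurable fun ζ => wt δ ζ * ‖Cx b ζ‖ₑ ^ 4 + wt δ ζ * ‖Cx (bc b) ζ‖ₑ ^ 4 := m1.add m2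
        rw [lintegral_const_mul' _ _ (by finiteness), lintegral_add_left m12, lintegral_add_left m1]
    _ ≤ 27 * (ENNReal.ofReal (C * B ^ 2) * N2 b + ENNReal.ofReal (C * B ^ 2) * N2 b +
          ENNReal.ofReal (C * B ^ 2) * N2 b) := by
        refine mul_le_mul_right (add_le_add (add_le_add ?_ ?_) ?_) _
        · exact h1
        · exact h2
        · exact h3
    _ = _ := by
        have e1 : ENNReal.ofReal (81 * C * B ^ 2) = 81 * ENNReal.ofReal (C * B ^ 2) := by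
          rw [mul_assoc, ENNReal.ofReal_mul (by norm_num)]
          norm_num
        rw [e1]
        ring

lemma N1_four (b : ℝ → ℂ) (hb : Measurable b) (B : ℝ) (hB : ∀ θ, ‖b θ‖ ≤ B) :
    N1 b ^ 4 ≤ ENNReal.ofReal ((2 * Real.pi) ^ 3 * B ^ 2) * N2 b := by
  have hB0 : 0 ≤ B := (norm_nonneg _).trans (hB 0)
  have h1 : N1 b ≤ ENNReal.ofReal (2 * Real.pi * B) := by
    unfold N1
    calc _ ≤ ∫⁻ θ in Ioo (-Real.pi) Real.pi, ENNReal.ofReal B := by
          apply lintegral_mono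
          intro θ
          simp only
          rw [← ofReal_norm]
          exact ENNReal.ofReal_le_ofReal (hB θ)
      _ = _ := by
          rw [setLIntegral_const, Real.volume_Ioo, ← ENNReal.ofReal_mul hB0]
          congr 1
          ring
  have h2 : N1 b ^ 2 ≤ ENNReal.ofReal (2 * Real.pi) * N2 b := by
    have h := jensen (volume.restrict (Ioo (-Real.pi) Real.pi)) (fun _ => 1) (fun θ => ‖b θ‖ₑ)
      measurable_const hb.enorm 2 (by norm_num)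
    simp only [one_mul, lintegral_one, Measure.restrict_apply_univ, Real.volume_Ioo] at h
    have h3 : (2 : ℝ) - 1 = ((1 : ℕ) : ℝ) := by norm_num
    have h4 : (2 : ℝ) = ((2 : ℕ) : ℝ) := by norm_num
    rw [h3] at h
    nth_rewrite 1 [h4] at h
    simp only [ENNReal.rpow_natCast, pow_one] at h
    have h5 : ∀ θ, ‖b θ‖ₑ ^ (2 : ℝ) = ‖b θ‖ₑ ^ 2 := fun θ => by
      rw [h4, ENNReal.rpow_natCast]
    simp only [h5] at h
    unfold N1 N2
    rw [show 2 * Real.pi = Real.pi - -Real.pi by ring]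
    exact h
  calc N1 b ^ 4 = N1 b ^ 2 * N1 b ^ 2 := by ring
    _ ≤ ENNReal.ofReal (2 * Real.pi * B) ^ 2 * (ENNReal.ofReal (2 * Real.pi) * N2 b) :=
        mul_le_mul' (pow_le_pow_left' h1 2) h2
    _ = _ := by
        rw [← ENNReal.ofReal_pow (by positivity), ← mul_assoc, ← ENNReal.ofReal_mul (by positivity)]
        congr 2
        ring

end Pool.Agent.Y250.AN
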