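import Mathlib
import Pool.Agent.Y250.AN.C8
set_option autoImplicit false

/-! The fixed time `L^4` bound of the basic window. -/

namespace Pool.Agent.Y250.AN

open MeasureTheory Set Complex Filter Topology
open scoped ENNReal NNReal ContDiff

lemma wineq (δ : ℝ) (hδ0 : 0 < δ) (hδ1 : δ < 1) (X t ρ : ℝ) (ht : 2 ≤ t) (hρ : 0 ≤ ρ)
    (h : t / 2 * (1 + ρ) ≤ X) :
    (min 1 (2 * X / t ^ 2)) ^ 4 ≤ 2 * t ^ (-2 + δ) * X * (1 + ρ) ^ (-δ) := by
  have ht0 : 0 < t := by linarith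
  have hX : 0 < X := lt_of_lt_of_le (by positivity) h
  set v := 2 * X / t ^ 2 with hv
  have hv0 : 0 < v := by positivity
  set u := min 1 v with hu
  have hu0 : 0 < u := lt_min one_pos hv0
  have hu1 : u ≤ 1 := min_le_left _ _
  have h1 : u ^ 4 ≤ u ^ (1 - δ) := by
    rw [← Real.rpow_natCast]
    apply Real.rpow_le_rpow_of_exponent_ge hu0 hu1
    push_cast
    linarith
  have h2 : u ^ (1 - δ) ≤ v ^ (1 - δ) := Real.rpow_le_rpow hu0.le (min_le_right _ _) (by linarith)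
  have h3 : v ^ (1 - δ) = v * v ^ (-δ) := by
    rw [sub_eq_add_neg, Real.rpow_add hv0, Real.rpow_one]
  have h4 : (1 + ρ) / t ≤ v := by
    rw [hv, div_le_div_iff₀ ht0 (by positivity)]
    nlinarith
  have h5 : v ^ (-δ) ≤ ((1 + ρ) / t) ^ (-δ) :=
    Real.rpow_le_rpow_of_nonpos (by positivity) h4 (by linarith)
  have h6 : ((1 + ρ) / t) ^ (-δ) = (1 + ρ) ^ (-δ) * t ^ δ := by
    rw [Real.div_rpow (by positivity) ht0.le, Real.rpow_neg ht0.le, div_inv_eq_mul]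
  have h7 : t ^ (-2 + δ) = t ^ δ / t ^ 2 := by
    rw [Real.rpow_add ht0, Real.rpow_neg ht0.le]
    have : t ^ (2 : ℝ) = t ^ 2 := by
      rw [← Real.rpow_natCast]
      norm_num
    rw [this]
    field_simp
  calc u ^ 4 ≤ v * v ^ (-δ) := by rw [← h3]; exact h1.trans h2
    _ ≤ v * ((1 + ρ) ^ (-δ) * t ^ δ) := by rw [← h6]; gcongr
    _ = _ := by rw [h7, hv]; field_simp

lemma Ext_meas_k0 (b : ℝ → ℂ) (hb : Measurable b) : Measurable (Ext (pf b k0)) := by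
  have h1 : StronglyMeasurable (fun p : (ℂ × ℝ) × ℂ =>
      ee (-(dt p.1.1 p.2 + p.1.2 * ‖p.2‖ ^ 2)) * pf b k0 p.2) := by
    apply Measurable.stronglyMeasurable
    have h2 : Continuous fun p : (ℂ × ℝ) × ℂ => ee (-(dt p.1.1 p.2 + p.1.2 * ‖p.2‖ ^ 2)) := by
      apply ee_cont.comp
      have h4 : Continuous fun p : (ℂ × ℝ) × ℂ => dt p.1.1 p.2 :=
        dt_cont.comp ((continuous_fst.comp continuous_fst).prodMk continuous_snd)
      fun_prop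
    have h3 : Measurable (pf b k0) := by
      unfold pf
      exact (hb.comp Complex.measurable_arg).mul (k0_meas.comp measurable_norm)
    exact h2.measurable.mul (h3.comp measurable_snd)
  exact (h1.integral_prod_right' (ν := volume)).measurable

lemma of8 (Y : ℝ) : ENNReal.ofReal (8 * Y) = 8 * ENNReal.ofReal Y := by
  rw [ENNReal.ofReal_mul (by norm_num)]
  norm_num

lemma zeta_norm (x : ℂ) (T : ℝ) : ‖x ^ 2 / ((8 * T : ℝ) : ℂ)‖ = ‖x‖ ^ 2 / (8 * |T|) := by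
  rw [norm_div, norm_pow, Complex.norm_real, Real.norm_eq_abs, abs_mul]
  norm_num

lemma cov_T (T : ℝ) (hT : T ≠ 0) (G : ℂ → ℝ≥0∞) :
    ∫⁻ x : ℂ, ENNReal.ofReal (‖x‖ ^ 2) * G (x ^ 2 / ((8 * T : ℝ) : ℂ)) ≤
      ENNReal.ofReal (32 * T ^ 2) * ∫⁻ ζ, G ζ := by
  have h := sq_cov (1 / (8 * T)) (by positivity) G
  have e : ∀ x : ℂ, ENNReal.ofReal (‖x‖ ^ 2) * G (x ^ 2 / ((8 * T : ℝ) : ℂ)) =
      ENNReal.ofReal (16 * T ^ 2) *
        (ENNReal.ofReal (4 * (1 / (8 * T)) ^ 2 * ‖x‖ ^ 2) * G (((1 / (8 * T) : ℝ) : ℂ) * x ^ 2)) := by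
    intro x
    rw [← mul_assoc, ← ENNReal.ofReal_mul (by positivity)]
    congr 2
    · field_simp
      ring
    · push_cast
      field_simp
  simp only [e]
  rw [lintegral_const_mul' _ _ ENNReal.ofReal_ne_top]
  calc _ ≤ ENNReal.ofReal (16 * T ^ 2) * (2 * ∫⁻ y, G y) := mul_le_mul_right h _
    _ = _ := by
        rw [← mul_assoc]
        congr 1
        rw [show (2 : ℝ≥0∞) = ENNReal.ofReal 2 by norm_num, ← ENNReal.ofReal_mul (by positivity)]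
        congr 1
        ring

/-- far region -/
lemma far (δ : ℝ) (hδ0 : 0 < δ) (hδ1 : δ < 1) : ∃ C : ℝ, 0 ≤ C ∧ ∀ (b : ℝ → ℂ), Measurable b → ∀ B : ℝ,
    (∀ θ, ‖b θ‖ ≤ B) → (∀ θ, b (θ + Real.pi) = b θ) → ∀ t : ℝ, 2 ≤ |t| →
    ∫⁻ x in {x : ℂ | |t| < ‖x‖ ^ 2}, ‖Ext (pf b k0) (x, t)‖ₑ ^ 4 ≤
      ENNReal.ofReal (C * B ^ 2 * |t| ^ (-2 + δ)) * N2 b := by
  obtain ⟨C1, hC1, h1⟩ := bdI
  obtain ⟨C2, hC2, h2⟩ := bdII
  obtain ⟨C3, hC3, h3⟩ := Sb_bound δ hδ0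
  set C := max C1 C2 with hC
  have hC0 : 0 < C := lt_max_of_lt_left hC1
  refine ⟨C ^ 4 * 2304 * C3, by positivity, ?_⟩
  intro b hb B hB hper t ht
  have ht0 : 0 < |t| := by linarith
  have hpt : ∀ x ∈ {x : ℂ | |t| < ‖x‖ ^ 2}, ‖Ext (pf b k0) (x, t)‖ₑ ^ 4 ≤
      ENNReal.ofReal (C ^ 4 * 16 * |t| ^ (-4 + δ)) * ∫⁻ τ in Icc (-1 : ℝ) 1,
        ENNReal.ofReal (‖x‖ ^ 2) * (wt δ (x ^ 2 / ((8 * (t + τ) : ℝ) : ℂ)) *
          Sb b (x ^ 2 / ((8 * (t + τ) : ℝ) : ℂ)) ^ 4) := by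
    intro x hx
    have hx' : |t| < ‖x‖ ^ 2 := hx
    set u := min 1 (2 * ‖x‖ ^ 2 / |t| ^ 2) with hu
    have hu0 : 0 ≤ u := le_min zero_le_one (by positivity)
    set A := ∫⁻ τ in Icc (-1 : ℝ) 1, Sb b (x ^ 2 / ((8 * (t + τ) : ℝ) : ℂ)) with hA
    have a1 : ‖Ext (pf b k0) (x, t)‖ₑ ≤ ENNReal.ofReal (C * |t| ^ (-(1 / 2) : ℝ) * u) * A := by
      rcases le_total 1 (2 * ‖x‖ ^ 2 / |t| ^ 2) with h | h
      · rw [hu, min_eq_left h, mul_one]
        refine (h2 b hb B hB hper x t ht).trans ?_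
        gcongr
        exact le_max_right _ _
      · rw [hu, min_eq_right h]
        refine (h1 b hb B hB hper x t ht).trans ?_
        gcongr ?_ * _
        apply ENNReal.ofReal_le_ofReal
        rw [← mul_assoc]
        have h5 : 1 / |t| + ‖x‖ ^ 2 / |t| ^ 2 ≤ 2 * ‖x‖ ^ 2 / |t| ^ 2 := by
          have h6 : 1 / |t| ≤ ‖x‖ ^ 2 / |t| ^ 2 := by
            rw [div_le_div_iff₀ ht0 (by positivity)]
            nlinarith
          calc _ ≤ ‖x‖ ^ 2 / |t| ^ 2 + ‖x‖ ^ 2 / |t| ^ 2 := by gcongr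
            _ = _ := by ring
        have h7 : C1 ≤ C := le_max_left _ _
        gcongr
    have hSm : Measurable fun τ : ℝ => Sb b (x ^ 2 / ((8 * (t + τ) : ℝ) : ℂ)) :=
      (Sb_meas b hb).comp (by fun_prop)
    calc ‖Ext (pf b k0) (x, t)‖ₑ ^ 4 ≤ (ENNReal.ofReal (C * |t| ^ (-(1 / 2) : ℝ) * u) * A) ^ 4 :=
          pow_le_pow_left' a1 4
      _ = ENNReal.ofReal (C ^ 4 * |t| ^ (-2 : ℝ) * u ^ 4) * A ^ 4 := by
          rw [mul_pow, ← ENNReal.ofReal_pow (by positivity)]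
          congr 2
          rw [mul_pow, mul_pow]
          congr 2
          rw [← Real.rpow_natCast, ← Real.rpow_mul ht0.le]
          norm_num
      _ ≤ ENNReal.ofReal (C ^ 4 * |t| ^ (-2 : ℝ) * u ^ 4) *
            (8 * ∫⁻ τ in Icc (-1 : ℝ) 1, Sb b (x ^ 2 / ((8 * (t + τ) : ℝ) : ℂ)) ^ 4) :=
          mul_le_mul_right (jens4 _ hSm) _
      _ = ∫⁻ τ in Icc (-1 : ℝ) 1, ENNReal.ofReal (8 * (C ^ 4 * |t| ^ (-2 : ℝ) * u ^ 4)) *
            Sb b (x ^ 2 / ((8 * (t + τ) : ℝ) : ℂ)) ^ 4 := by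
          rw [lintegral_const_mul _ (hSm.pow_const 4), of8]
          ring
      _ ≤ ∫⁻ τ in Icc (-1 : ℝ) 1, ENNReal.ofReal (C ^ 4 * 16 * |t| ^ (-4 + δ)) *
            (ENNReal.ofReal (‖x‖ ^ 2) * (wt δ (x ^ 2 / ((8 * (t + τ) : ℝ) : ℂ)) *
              Sb b (x ^ 2 / ((8 * (t + τ) : ℝ) : ℂ)) ^ 4)) := by
          apply setLIntegral_mono' measurableSet_Icc
          intro τ hτ
          have e9 : ENNReal.ofReal (C ^ 4 * 16 * |t| ^ (-4 + δ)) * (ENNReal.ofReal (‖x‖ ^ 2) *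
              (wt δ (x ^ 2 / ((8 * (t + τ) : ℝ) : ℂ)) * Sb b (x ^ 2 / ((8 * (t + τ) : ℝ) : ℂ)) ^ 4)) =
              (ENNReal.ofReal (C ^ 4 * 16 * |t| ^ (-4 + δ)) * ENNReal.ofReal (‖x‖ ^ 2) *
              wt δ (x ^ 2 / ((8 * (t + τ) : ℝ) : ℂ))) * Sb b (x ^ 2 / ((8 * (t + τ) : ℝ) : ℂ)) ^ 4 := by ring
          rw [e9]
          refine mul_le_mul' ?_ le_rfl
          unfold wt
          rw [← ENNReal.ofReal_mul (by positivity), ← ENNReal.ofReal_mul (by positivity)]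
          apply ENNReal.ofReal_le_ofReal
          have hT := T_low t ht τ hτ
          have hT0 : 0 < |t + τ| := by linarith
          set ρ := ‖x ^ 2 / ((8 * (t + τ) : ℝ) : ℂ)‖ with hρ
          have hρ0 : 0 ≤ ρ := norm_nonneg _
          have hρe : ρ = ‖x‖ ^ 2 / (8 * |t + τ|) := zeta_norm x (t + τ)
          have h8 : |t| / 2 * (1 + ρ) ≤ ‖x‖ ^ 2 := by
            have h9 : |t| * ρ ≤ ‖x‖ ^ 2 / 4 := by
              rw [hρe, mul_div_assoc', div_le_div_iff₀ (by positivity) (by norm_num)]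
              nlinarith [sq_nonneg ‖x‖]
            nlinarith
          have h10 := wineq δ hδ0 hδ1 (‖x‖ ^ 2) |t| ρ ht hρ0 h8
          have h11 : |t| ^ (-4 + δ) = |t| ^ (-2 : ℝ) * |t| ^ (-2 + δ) := by
            rw [← Real.rpow_add ht0]
            congr 1
            ring
          rw [h11]
          calc 8 * (C ^ 4 * |t| ^ (-2 : ℝ) * u ^ 4) ≤
                8 * (C ^ 4 * |t| ^ (-2 : ℝ) * (2 * |t| ^ (-2 + δ) * ‖x‖ ^ 2 * (1 + ρ) ^ (-δ))) := by gcongr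
            _ = _ := by ring
      _ = _ := by rw [lintegral_const_mul' _ _ ENNReal.ofReal_ne_top]
  have hms : MeasurableSet {x : ℂ | |t| < ‖x‖ ^ 2} := measurableSet_lt measurable_const (by fun_prop)
  set G : ℂ → ℝ≥0∞ := fun ζ => wt δ ζ * Sb b ζ ^ 4 with hG
  have hGm : Measurable G := (wt_meas δ).mul ((Sb_meas b hb).pow_const 4)
  calc ∫⁻ x in {x : ℂ | |t| < ‖x‖ ^ 2}, ‖Ext (pf b k0) (x, t)‖ₑ ^ 4
      ≤ ∫⁻ x in {x : ℂ | |t| < ‖x‖ ^ 2}, ENNReal.ofReal (C ^ 4 * 16 * |t| ^ (-4 + δ)) *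
          ∫⁻ τ in Icc (-1 : ℝ) 1, ENNReal.ofReal (‖x‖ ^ 2) * G (x ^ 2 / ((8 * (t + τ) : ℝ) : ℂ)) :=
        setLIntegral_mono' hms hpt
    _ ≤ ∫⁻ x, ENNReal.ofReal (C ^ 4 * 16 * |t| ^ (-4 + δ)) *
          ∫⁻ τ in Icc (-1 : ℝ) 1, ENNReal.ofReal (‖x‖ ^ 2) * G (x ^ 2 / ((8 * (t + τ) : ℝ) : ℂ)) :=
        setLIntegral_le_lintegral _ _
    _ = ENNReal.ofReal (C ^ 4 * 16 * |t| ^ (-4 + δ)) * ∫⁻ τ in Icc (-1 : ℝ) 1, 
          ∫⁻ x : ℂ, ENNReal.ofReal (‖x‖ ^ 2) * G (x ^ 2 / ((8 * (t + τ) : ℝ) : ℂ)) := by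
        rw [lintegral_const_mul' _ _ ENNReal.ofReal_ne_top, lintegral_lintegral_swap]
        apply Measurable.aemeasurable
        have m1 : Measurable fun p : ℂ × ℝ => p.1 ^ 2 / ((8 * (t + p.2) : ℝ) : ℂ) := by fun_prop
        exact (ENNReal.measurable_ofReal.comp (by fun_prop)).mul (hGm.comp m1)
    _ ≤ ENNReal.ofReal (C ^ 4 * 16 * |t| ^ (-4 + δ)) * ∫⁻ τ in Icc (-1 : ℝ) 1, 
          ENNReal.ofReal (72 * |t| ^ 2) * ∫⁻ ζ, G ζ := by
        refine mul_le_mul_right ?_ _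
        apply setLIntegral_mono' measurableSet_Icc
        intro τ hτ
        have hT := T_ne t ht τ hτ
        refine (cov_T (t + τ) hT G).trans ?_
        refine mul_le_mul' ?_ le_rfl
        apply ENNReal.ofReal_le_ofReal
        have h12 : |t + τ| ≤ 3 / 2 * |t| := by
          have := abs_add_le t τ
          have h13 := abs_le.2 hτ
          linarith
        rw [← sq_abs (t + τ)]
        nlinarith [abs_nonneg (t + τ)]
    _ = ENNReal.ofReal (C ^ 4 * 16 * |t| ^ (-4 + δ)) * (ENNReal.ofReal (144 * |t| ^ 2) * ∫⁻ ζ, G ζ) := by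
        rw [setLIntegral_const, Real.volume_Icc, mul_comm _ (ENNReal.ofReal (1 - -1)), ← mul_assoc (ENNReal.ofReal (1 - -1)),
          ← ENNReal.ofReal_mul (by norm_num)]
        congr 3
        ring
    _ ≤ ENNReal.ofReal (C ^ 4 * 16 * |t| ^ (-4 + δ)) * (ENNReal.ofReal (144 * |t| ^ 2) *
          (ENNReal.ofReal (C3 * B ^ 2) * N2 b)) := by
        gcongr
        exact h3 b hb B hB
    _ = _ := by
        rw [← mul_assoc, ← mul_assoc, ← ENNReal.ofReal_mul (by positivity), ← ENNReal.ofReal_mul (by positivity)]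
        congr 2
        have h14 : |t| ^ (-2 + δ) = |t| ^ (-4 + δ) * |t| ^ 2 := by
          rw [← Real.rpow_natCast, ← Real.rpow_add ht0]
          congr 1
          push_cast
          ring
        rw [h14]
        ring

end Pool.Agent.Y250.AN
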