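import Mathlib
import Pool.Agent.Y250.AN.C9
import Pool.Agent.H153R4.Pl
set_option autoImplicit false

/-! The fixed time bounds of the basic window. -/

namespace Pool.Agent.Y250.AN

open MeasureTheory Set Complex Filter Topology
open scoped ENNReal NNReal ContDiff

/-- near region -/
lemma near (δ : ℝ) (hδ0 : 0 < δ) : ∃ C : ℝ, 0 ≤ C ∧ ∀ (b : ℝ → ℂ), Measurable b → ∀ B : ℝ,
    (∀ θ, ‖b θ‖ ≤ B) → (∀ θ, b (θ + Real.pi) = b θ) → ∀ t : ℝ, 2 ≤ |t| →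
    ∫⁻ x in {x : ℂ | |t| < ‖x‖ ^ 2}ᶜ, ‖Ext (pf b k0) (x, t)‖ₑ ^ 4 ≤
      ENNReal.ofReal (C * B ^ 2 * |t| ^ (-2 + δ)) * N2 b := by
  obtain ⟨C1, hC1, h1⟩ := bdI
  refine ⟨C1 ^ 4 * 16 * 1296 * (2 * Real.pi) ^ 3 * Real.pi, by positivity, ?_⟩
  intro b hb B hB hper t ht
  have ht0 : 0 < |t| := by linarith
  have hms : MeasurableSet {x : ℂ | |t| < ‖x‖ ^ 2} := measurableSet_lt measurable_const (by fun_prop)
  have hpt : ∀ x ∈ {x : ℂ | |t| < ‖x‖ ^ 2}ᶜ, ‖Ext (pf b k0) (x, t)‖ₑ ^ 4 ≤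
      ENNReal.ofReal (C1 ^ 4 * 16 * 1296 * |t| ^ (-6 : ℝ)) * N1 b ^ 4 := by
    intro x hx
    have hx' : ‖x‖ ^ 2 ≤ |t| := by
      by_contra h
      push Not at h
      exact hx h
    have a1 : ∫⁻ τ in Icc (-1 : ℝ) 1, Sb b (x ^ 2 / ((8 * (t + τ) : ℝ) : ℂ)) ≤ 6 * N1 b := by
      calc _ ≤ ∫⁻ τ in Icc (-1 : ℝ) 1, 3 * N1 b := lintegral_mono fun τ => Sb_le b _
        _ = _ := by
          rw [setLIntegral_const, Real.volume_Icc, show (1 : ℝ) - -1 = 2 by norm_num]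
          rw [show ENNReal.ofReal 2 = 2 by norm_num]
          ring
    have a2 : ‖Ext (pf b k0) (x, t)‖ₑ ≤
        ENNReal.ofReal (C1 * (|t| ^ (-(1 / 2) : ℝ) * (2 * |t| ^ (-1 : ℝ)))) * (6 * N1 b) := by
      refine (h1 b hb B hB hper x t ht).trans ?_
      refine mul_le_mul' ?_ a1
      apply ENNReal.ofReal_le_ofReal
      have h5 : 1 / |t| + ‖x‖ ^ 2 / |t| ^ 2 ≤ 2 * |t| ^ (-1 : ℝ) := by
        rw [Real.rpow_neg_one]
        have h6 : ‖x‖ ^ 2 / |t| ^ 2 ≤ |t|⁻¹ := by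
          rw [inv_eq_one_div, div_le_div_iff₀ (by positivity) ht0]
          nlinarith
        rw [one_div]
        linarith
      gcongr
    calc ‖Ext (pf b k0) (x, t)‖ₑ ^ 4 ≤
          (ENNReal.ofReal (C1 * (|t| ^ (-(1 / 2) : ℝ) * (2 * |t| ^ (-1 : ℝ)))) * (6 * N1 b)) ^ 4 :=
          pow_le_pow_left' a2 4
      _ = ENNReal.ofReal ((C1 * (|t| ^ (-(1 / 2) : ℝ) * (2 * |t| ^ (-1 : ℝ)))) ^ 4) *
            (ENNReal.ofReal 1296 * N1 b ^ 4) := by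
          rw [mul_pow, ← ENNReal.ofReal_pow (by positivity)]
          congr 1
          rw [mul_pow]
          norm_num
      _ = _ := by
          rw [← mul_assoc, ← ENNReal.ofReal_mul (by positivity)]
          congr 2
          have e1 : (|t| ^ (-(1 / 2) : ℝ)) ^ 4 = |t| ^ (-2 : ℝ) := by
            rw [← Real.rpow_natCast, ← Real.rpow_mul ht0.le]
            norm_num
          have e2 : (|t| ^ (-1 : ℝ)) ^ 4 = |t| ^ (-4 : ℝ) := by
            rw [← Real.rpow_natCast, ← Real.rpow_mul ht0.le]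
            norm_num
          have e3 : |t| ^ (-6 : ℝ) = |t| ^ (-2 : ℝ) * |t| ^ (-4 : ℝ) := by
            rw [← Real.rpow_add ht0]
            norm_num
          rw [e3, ← e1, ← e2]
          ring
  have hvol : volume ({x : ℂ | |t| < ‖x‖ ^ 2}ᶜ) ≤ ENNReal.ofReal (|t| * Real.pi) := by
    have hsub : {x : ℂ | |t| < ‖x‖ ^ 2}ᶜ ⊆ Metric.closedBall 0 (Real.sqrt |t|) := by
      intro x hx
      rw [mem_closedBall_zero_iff]
      apply Real.le_sqrt_of_sq_le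
      by_contra h
      push Not at h
      exact hx h
    refine (measure_mono hsub).trans (le_of_eq ?_)
    rw [Complex.volume_closedBall, ← ENNReal.ofReal_pow (Real.sqrt_nonneg _), Real.sq_sqrt (abs_nonneg _),
      ENNReal.ofReal_mul (abs_nonneg _)]
    congr 1
    rw [← NNReal.coe_real_pi, ENNReal.ofReal_coe_nnreal]
  calc ∫⁻ x in {x : ℂ | |t| < ‖x‖ ^ 2}ᶜ, ‖Ext (pf b k0) (x, t)‖ₑ ^ 4
      ≤ ∫⁻ x in {x : ℂ | |t| < ‖x‖ ^ 2}ᶜ, ENNReal.ofReal (C1 ^ 4 * 16 * 1296 * |t| ^ (-6 : ℝ)) * N1 b ^ 4 :=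
        setLIntegral_mono' hms.compl hpt
    _ = ENNReal.ofReal (C1 ^ 4 * 16 * 1296 * |t| ^ (-6 : ℝ)) * N1 b ^ 4 * volume ({x : ℂ | |t| < ‖x‖ ^ 2}ᶜ) := by
        rw [setLIntegral_const]
    _ ≤ ENNReal.ofReal (C1 ^ 4 * 16 * 1296 * |t| ^ (-6 : ℝ)) *
          (ENNReal.ofReal ((2 * Real.pi) ^ 3 * B ^ 2) * N2 b) * ENNReal.ofReal (|t| * Real.pi) := by
        gcongr
        exact N1_four b hb B hB
    _ = ENNReal.ofReal (C1 ^ 4 * 16 * 1296 * |t| ^ (-6 : ℝ) * ((2 * Real.pi) ^ 3 * B ^ 2) * (|t| * Real.pi)) *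
          N2 b := by
        rw [ENNReal.ofReal_mul (p := C1 ^ 4 * 16 * 1296 * |t| ^ (-6 : ℝ) * ((2 * Real.pi) ^ 3 * B ^ 2)) (by positivity),
          ENNReal.ofReal_mul (p := C1 ^ 4 * 16 * 1296 * |t| ^ (-6 : ℝ)) (by positivity)]
        ring
    _ ≤ _ := by
        gcongr ?_ * _
        apply ENNReal.ofReal_le_ofReal
        have h7 : |t| ^ (-6 : ℝ) * |t| ≤ |t| ^ (-2 + δ) := by
          calc |t| ^ (-6 : ℝ) * |t| = |t| ^ (-6 : ℝ) * |t| ^ (1 : ℝ) := by rw [Real.rpow_one]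
            _ = |t| ^ (-5 : ℝ) := by rw [← Real.rpow_add ht0]; norm_num
            _ ≤ _ := Real.rpow_le_rpow_of_exponent_le (by linarith) (by linarith)
        calc C1 ^ 4 * 16 * 1296 * |t| ^ (-6 : ℝ) * ((2 * Real.pi) ^ 3 * B ^ 2) * (|t| * Real.pi)
            = (C1 ^ 4 * 16 * 1296 * (2 * Real.pi) ^ 3 * Real.pi * B ^ 2) * (|t| ^ (-6 : ℝ) * |t|) := by ring
          _ ≤ (C1 ^ 4 * 16 * 1296 * (2 * Real.pi) ^ 3 * Real.pi * B ^ 2) * |t| ^ (-2 + δ) := by gcongr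
          _ = _ := by ring

/-- fixed time `L^4` bound -/
theorem fixed4 (δ : ℝ) (hδ0 : 0 < δ) (hδ1 : δ < 1) : ∃ C : ℝ, 0 ≤ C ∧ ∀ (b : ℝ → ℂ), Measurable b → ∀ B : ℝ,
    (∀ θ, ‖b θ‖ ≤ B) → (∀ θ, b (θ + Real.pi) = b θ) → ∀ t : ℝ, 2 ≤ |t| →
    ∫⁻ x, ‖Ext (pf b k0) (x, t)‖ₑ ^ 4 ≤ ENNReal.ofReal (C * B ^ 2 * |t| ^ (-2 + δ)) * N2 b := by
  obtain ⟨C1, hC1, h1⟩ := far δ hδ0 hδ1
  obtain ⟨C2, hC2, h2⟩ := near δ hδ0
  refine ⟨C1 + C2, by positivity, ?_⟩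
  intro b hb B hB hper t ht
  have hms : MeasurableSet {x : ℂ | |t| < ‖x‖ ^ 2} := measurableSet_lt measurable_const (by fun_prop)
  rw [← lintegral_add_compl _ hms]
  refine (add_le_add (h1 b hb B hB hper t ht) (h2 b hb B hB hper t ht)).trans (le_of_eq ?_)
  rw [← add_mul, ← ENNReal.ofReal_add (by positivity) (by positivity)]
  congr 2
  ring

lemma lint_smul (r : ℝ) (hr : r ≠ 0) (F : ℂ → ℝ≥0∞) :
    ∫⁻ x : ℂ, F (r • x) = ENNReal.ofReal |(r ^ 2)⁻¹| * ∫⁻ x, F x := by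
  have h := Measure.map_addHaar_smul (volume : Measure ℂ) hr
  rw [Complex.finrank_real_complex] at h
  have h2 := (Homeomorph.smulOfNeZero r hr : ℂ ≃ₜ ℂ).measurableEmbedding.lintegral_map
    (μ := (volume : Measure ℂ)) F
  have h3 : (⇑(Homeomorph.smulOfNeZero r hr : ℂ ≃ₜ ℂ)) = (fun x : ℂ => r • x) := rfl
  rw [h3] at h2
  rw [← h2]
  have h4 : Measure.map (fun x : ℂ => r • x) (volume : Measure ℂ) =
      ENNReal.ofReal |(r ^ 2)⁻¹| • (volume : Measure ℂ) := h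
  rw [h4, lintegral_smul_measure, smul_eq_mul]

/-- Plancherel at a fixed time -/
theorem plan (f : ℂ → ℂ) (h1 : Integrable f) (h2 : MemLp f 2) (t : ℝ) :
    ∫⁻ x, ‖Ext f (x, t)‖ₑ ^ 2 = ENNReal.ofReal ((2 * Real.pi) ^ 2) * ∫⁻ ξ, ‖f ξ‖ₑ ^ 2 := by
  set F : ℂ → ℂ := fun ξ => ee (-(t * ‖ξ‖ ^ 2)) * f ξ with hF
  have hc : Continuous fun ξ : ℂ => ee (-(t * ‖ξ‖ ^ 2)) := ee_cont.comp (by fun_prop)
  have hn : ∀ ξ, ‖F ξ‖ = ‖f ξ‖ := fun ξ => by rw [hF]; simp only [norm_mul, norm_ee, one_mul]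
  have hF1 : Integrable F := by
    refine h1.norm.mono' (hc.aestronglyMeasurable.mul h1.1) (Filter.Eventually.of_forall fun ξ => ?_)
    rw [hn]
  have hF2 : MemLp F 2 := by
    refine h2.of_le (hc.aestronglyMeasurable.mul h1.1) (Filter.Eventually.of_forall fun ξ => ?_)
    rw [hn]
  have hpl := Pool.Agent.H153R4.plancherel F hF1 hF2
  have e1 : ∀ x : ℂ, Ext f (x, t) = FourierTransform.fourier F (((2 * Real.pi : ℝ)⁻¹ : ℝ) • x) := by
    intro x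
    rw [Real.fourier_eq']
    unfold Ext
    apply integral_congr_ae
    refine Filter.Eventually.of_forall fun ξ => ?_
    simp only [hF, smul_eq_mul]
    rw [← mul_assoc]
    congr 1
    unfold ee
    rw [← Complex.exp_add]
    congr 1
    rw [real_inner_smul_right]
    have : inner ℝ ξ x = dt x ξ := by
      rw [Complex.inner]
      unfold dt
      simp
    rw [this]
    have hpi : (Real.pi : ℂ) ≠ 0 := by exact_mod_cast Real.pi_ne_zero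
    push_cast
    field_simp
    ring
  simp only [e1]
  rw [lint_smul _ (by positivity) (fun y => ‖FourierTransform.fourier F y‖ₑ ^ 2), hpl]
  congr 1
  · congr 1
    rw [abs_of_nonneg (by positivity)]
    rw [inv_pow, inv_inv]
  · apply lintegral_congr
    intro ξ
    rw [← ofReal_norm, ← ofReal_norm, hn]

/-- polar coordinates for norms -/
lemma pol_norm (b k : ℝ → ℂ) (hb : Measurable b) (hk : Measurable k) (p : ℝ) (hp : 0 ≤ p) :
    ∫⁻ ξ, ‖pf b k ξ‖ₑ ^ p = (∫⁻ θ in Ioo (-Real.pi) Real.pi, ‖b θ‖ₑ ^ p) *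
      ∫⁻ r in Ioi (0 : ℝ), ENNReal.ofReal r * ‖k r‖ₑ ^ p := by
  rw [← Complex.lintegral_comp_polarCoord_symm]
  have e1 : ∫⁻ p' in polarCoord.target, ENNReal.ofReal p'.1 • ‖pf b k (Complex.polarCoord.symm p')‖ₑ ^ p =
      ∫⁻ p' in Ioi (0 : ℝ) ×ˢ Ioo (-Real.pi) Real.pi,
        (ENNReal.ofReal p'.1 * ‖k p'.1‖ₑ ^ p) * ‖b p'.2‖ₑ ^ p := by
    apply setLIntegral_congr_fun polarCoord.open_target.measurableSet
    intro p' hp'
    have hp1 : 0 < p'.1 := hp'.1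
    have hp2 : p'.2 ∈ Ioo (-Real.pi) Real.pi := hp'.2
    simp only
    rw [pol_symm]
    unfold pf
    rw [arg_pol _ _ hp1 hp2, norm_pol _ _ hp1, enorm_mul, ENNReal.mul_rpow_of_nonneg _ _ hp, smul_eq_mul]
    ring
  rw [e1, Measure.volume_eq_prod, ← Measure.prod_restrict]
  rw [lintegral_prod_mul (f := fun r => ENNReal.ofReal r * ‖k r‖ₑ ^ p) (g := fun θ => ‖b θ‖ₑ ^ p)]
  · rw [mul_comm]
  · exact (ENNReal.measurable_ofReal.mul (hk.enorm.pow_const p)).aemeasurable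
  · exact (hb.enorm.pow_const p).aemeasurable

lemma pf_meas (b k : ℝ → ℂ) (hb : Measurable b) (hk : Measurable k) : Measurable (pf b k) := by
  unfold pf
  exact (hb.comp Complex.measurable_arg).mul (hk.comp measurable_norm)

lemma Ext_meas (f : ℂ → ℂ) (hf : Measurable f) : Measurable (Ext f) := by
  have h1 : StronglyMeasurable (fun p : (ℂ × ℝ) × ℂ =>
      ee (-(dt p.1.1 p.2 + p.1.2 * ‖p.2‖ ^ 2)) * f p.2) := by
    apply Measurable.stronglyMeasurable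
    have h2 : Continuous fun p : (ℂ × ℝ) × ℂ => ee (-(dt p.1.1 p.2 + p.1.2 * ‖p.2‖ ^ 2)) := by
      apply ee_cont.comp
      have h4 : Continuous fun p : (ℂ × ℝ) × ℂ => dt p.1.1 p.2 :=
        dt_cont.comp ((continuous_fst.comp continuous_fst).prodMk continuous_snd)
      fun_prop
    exact h2.measurable.mul (hf.comp measurable_snd)
  exact (h1.integral_prod_right' (ν := volume)).measurable

lemma k0_rad (p : ℝ) (hp : 1 ≤ p) : ∫⁻ r in Ioi (0 : ℝ), ENNReal.ofReal r * ‖k0 r‖ₑ ^ p < ⊤ := by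
  obtain ⟨C, hC, h⟩ := g0_decay
  have h1 : ∀ r ∈ Ioi (0 : ℝ), ENNReal.ofReal r * ‖k0 r‖ₑ ^ p ≤
      ENNReal.ofReal (C ^ p * (1 + r ^ 2)⁻¹) := by
    intro r hr
    have hr0 : 0 < r := hr
    have h2 : ‖k0 r‖ ≤ C * (1 + r ^ 2)⁻¹ ^ 2 := by
      unfold k0
      rw [norm_mul, Complex.norm_real, Real.norm_eq_abs, abs_of_pos hr0]
      have h3 := h (r ^ 2) (sq_nonneg r)
      have h4 : r ≤ 1 + r ^ 2 := by nlinarith [sq_nonneg (r - 1)]
      calc r * ‖g0 (r ^ 2)‖ ≤ (1 + r ^ 2) * (C / (1 + r ^ 2) ^ 3) := by gcongr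
        _ = _ := by field_simp
    have h5 : (0 : ℝ) < (1 + r ^ 2)⁻¹ := by positivity
    have h6 : (1 + r ^ 2)⁻¹ ≤ 1 := inv_le_one_of_one_le₀ (by nlinarith [sq_nonneg r])
    rw [← ofReal_norm, ENNReal.ofReal_rpow_of_nonneg (norm_nonneg _) (by linarith),
      ← ENNReal.ofReal_mul hr0.le]
    apply ENNReal.ofReal_le_ofReal
    have h7 : ‖k0 r‖ ^ p ≤ C ^ p * (1 + r ^ 2)⁻¹ ^ 2 := by
      calc ‖k0 r‖ ^ p ≤ (C * (1 + r ^ 2)⁻¹ ^ 2) ^ p := Real.rpow_le_rpow (norm_nonneg _) h2 (by linarith)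
        _ = C ^ p * ((1 + r ^ 2)⁻¹ ^ 2) ^ p := Real.mul_rpow hC.le (by positivity)
        _ ≤ C ^ p * ((1 + r ^ 2)⁻¹ ^ 2) ^ (1 : ℝ) := by
            gcongr ?_ * ?_
            apply Real.rpow_le_rpow_of_exponent_ge (by positivity) _ hp
            exact pow_le_one₀ h5.le h6
        _ = _ := by rw [Real.rpow_one]
    have h8 : r * (1 + r ^ 2)⁻¹ ≤ 1 := by
      rw [mul_inv_le_iff₀ (by positivity)]
      nlinarith [sq_nonneg (r - 1)]
    calc r * ‖k0 r‖ ^ p ≤ r * (C ^ p * (1 + r ^ 2)⁻¹ ^ 2) := by gcongr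
      _ = C ^ p * (1 + r ^ 2)⁻¹ * (r * (1 + r ^ 2)⁻¹) := by ring
      _ ≤ C ^ p * (1 + r ^ 2)⁻¹ * 1 := by gcongr
      _ = _ := mul_one _
  refine lt_of_le_of_lt (setLIntegral_mono' measurableSet_Ioi h1) ?_
  refine lt_of_le_of_lt (setLIntegral_le_lintegral _ _) ?_
  exact (integrable_inv_one_add_sq.const_mul (C ^ p)).lintegral_lt_top

end Pool.Agent.Y250.AN
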