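import Mathlib
import Pool.Agent.Y250.AN.D1
set_option autoImplicit false

/-! The space time bounds of the basic window. -/

namespace Pool.Agent.Y250.AN

open MeasureTheory Set Complex Filter Topology
open scoped ENNReal NNReal ContDiff

/-- support measure -/
noncomputable def Am (b : ℝ → ℂ) : ℝ≥0∞ := volume (Ioo (-Real.pi) Real.pi ∩ {θ | b θ ≠ 0})

lemma Am_le (b : ℝ → ℂ) : Am b ≤ ENNReal.ofReal (2 * Real.pi) := by
  unfold Am
  refine (measure_mono inter_subset_left).trans (le_of_eq ?_)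
  rw [Real.volume_Ioo]
  congr 1
  ring

lemma Am_ne_top (b : ℝ → ℂ) : Am b ≠ ⊤ := ((Am_le b).trans_lt ENNReal.ofReal_lt_top).ne

lemma Np_le (b : ℝ → ℂ) (hb : Measurable b) (B : ℝ) (hB : ∀ θ, ‖b θ‖ ≤ B) (p : ℝ) (hp : 0 < p) :
    ∫⁻ θ in Ioo (-Real.pi) Real.pi, ‖b θ‖ₑ ^ p ≤ ENNReal.ofReal (B ^ p) * Am b := by
  have hB0 : 0 ≤ B := (norm_nonneg _).trans (hB 0)
  have hms : MeasurableSet {θ | b θ ≠ 0} := (hb (measurableSet_singleton 0)).compl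
  calc ∫⁻ θ in Ioo (-Real.pi) Real.pi, ‖b θ‖ₑ ^ p
      ≤ ∫⁻ θ in Ioo (-Real.pi) Real.pi, {θ | b θ ≠ 0}.indicator (fun _ => ENNReal.ofReal (B ^ p)) θ := by
        apply lintegral_mono
        intro θ
        simp only
        by_cases h : b θ = 0
        · rw [h, enorm_zero, ENNReal.zero_rpow_of_pos hp]
          exact zero_le
        · rw [indicator_of_mem (show θ ∈ {θ | b θ ≠ 0} from h), ← ofReal_norm,
            ENNReal.ofReal_rpow_of_nonneg (norm_nonneg _) hp.le]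
          exact ENNReal.ofReal_le_ofReal (Real.rpow_le_rpow (norm_nonneg _) (hB θ) hp.le)
    _ = _ := by
        rw [lintegral_indicator hms, setLIntegral_const, Measure.restrict_apply hms]
        unfold Am
        rw [inter_comm]

lemma N2_eq (b : ℝ → ℂ) : N2 b = ∫⁻ θ in Ioo (-Real.pi) Real.pi, ‖b θ‖ₑ ^ (2 : ℝ) := by
  unfold N2
  apply lintegral_congr
  intro θ
  rw [show (2 : ℝ) = ((2 : ℕ) : ℝ) by norm_num, ENNReal.rpow_natCast]

/-- interpolation -/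
lemma interp {α : Type*} [MeasurableSpace α] (μ : Measure α) (F : α → ℝ≥0∞) (hF : Measurable F) (q : ℝ)
    (hq1 : 2 < q) (hq2 : q < 4) :
    ∫⁻ x, F x ^ q ∂μ ≤ (∫⁻ x, F x ^ 2 ∂μ) ^ ((4 - q) / 2) * (∫⁻ x, F x ^ 4 ∂μ) ^ ((q - 2) / 2) := by
  have h := ENNReal.lintegral_mul_norm_pow_le (μ := μ) (hF.pow_const 2).aemeasurable
    (hF.pow_const 4).aemeasurable (p := (4 - q) / 2) (q := (q - 2) / 2) (by linarith) (by linarith) (by ring)
  refine le_trans (le_of_eq ?_) h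
  apply lintegral_congr
  intro x
  rw [← ENNReal.rpow_natCast (F x) 2, ← ENNReal.rpow_natCast (F x) 4, ← ENNReal.rpow_mul, ← ENNReal.rpow_mul,
    ← ENNReal.rpow_add_of_nonneg _ _ (by push_cast; linarith) (by push_cast; linarith)]
  congr 1
  push_cast
  ring

lemma Ext_sup (f : ℂ → ℂ) (p : ℂ × ℝ) : ‖Ext f p‖ₑ ≤ ∫⁻ ξ, ‖f ξ‖ₑ := by
  unfold Ext
  refine (enorm_integral_le_lintegral_enorm _).trans (le_of_eq ?_)
  apply lintegral_congr
  intro ξ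
  rw [enorm_mul, ← ofReal_norm (ee _), norm_ee, ENNReal.ofReal_one, one_mul]

/-- `L^1` norm of the basic function -/
lemma f0_L1 : ∃ C : ℝ, 0 ≤ C ∧ ∀ (b : ℝ → ℂ), Measurable b → ∫⁻ ξ, ‖pf b k0 ξ‖ₑ = ENNReal.ofReal C * N1 b := by
  have h := k0_rad 1 le_rfl
  refine ⟨(∫⁻ r in Ioi (0 : ℝ), ENNReal.ofReal r * ‖k0 r‖ₑ ^ (1 : ℝ)).toReal, ENNReal.toReal_nonneg, ?_⟩
  intro b hb
  have h2 := pol_norm b k0 hb k0_meas 1 zero_le_one
  simp only [ENNReal.rpow_one] at h2 h ⊢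
  rw [h2, ENNReal.ofReal_toReal h.ne, mul_comm]
  rfl

lemma f0_L2 : ∃ C : ℝ, 0 ≤ C ∧ ∀ (b : ℝ → ℂ), Measurable b → ∫⁻ ξ, ‖pf b k0 ξ‖ₑ ^ 2 = ENNReal.ofReal C * N2 b := by
  have h := k0_rad 2 (by norm_num)
  refine ⟨(∫⁻ r in Ioi (0 : ℝ), ENNReal.ofReal r * ‖k0 r‖ₑ ^ (2 : ℝ)).toReal, ENNReal.toReal_nonneg, ?_⟩
  intro b hb
  have h2 := pol_norm b k0 hb k0_meas 2 (by norm_num)
  rw [← N2_eq] at h2
  rw [ENNReal.ofReal_toReal h.ne, mul_comm, ← h2]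
  apply lintegral_congr
  intro ξ
  rw [show (2 : ℝ) = ((2 : ℕ) : ℝ) by norm_num, ENNReal.rpow_natCast]

lemma N1_le (b : ℝ → ℂ) (B : ℝ) (hB : ∀ θ, ‖b θ‖ ≤ B) : N1 b ≤ ENNReal.ofReal (2 * Real.pi * B) := by
  have hB0 : 0 ≤ B := (norm_nonneg _).trans (hB 0)
  unfold N1
  calc _ ≤ ∫⁻ θ in Ioo (-Real.pi) Real.pi, ENNReal.ofReal B := by
        apply lintegral_mono
        intro θ
        simp only
        rw [← ofReal_norm]
        exact ENNReal.ofReal_le_ofReal (hB θ)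
    _ = _ := by
        rw [setLIntegral_const, Real.volume_Ioo, ← ENNReal.ofReal_mul hB0]
        congr 1
        ring

lemma N2_le (b : ℝ → ℂ) (B : ℝ) (hB : ∀ θ, ‖b θ‖ ≤ B) : N2 b ≤ ENNReal.ofReal (2 * Real.pi * B ^ 2) := by
  have hB0 : 0 ≤ B := (norm_nonneg _).trans (hB 0)
  unfold N2
  calc _ ≤ ∫⁻ θ in Ioo (-Real.pi) Real.pi, ENNReal.ofReal (B ^ 2) := by
        apply lintegral_mono
        intro θ
        simp only
        rw [← ofReal_norm, ← ENNReal.ofReal_pow (norm_nonneg _)]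
        exact ENNReal.ofReal_le_ofReal (pow_le_pow_left₀ (norm_nonneg _) (hB θ) 2)
    _ = _ := by
        rw [setLIntegral_const, Real.volume_Ioo, ← ENNReal.ofReal_mul (by positivity)]
        congr 1
        ring

lemma f0_int (b : ℝ → ℂ) (hb : Measurable b) (B : ℝ) (hB : ∀ θ, ‖b θ‖ ≤ B) : Integrable (pf b k0) := by
  obtain ⟨C, hC, h⟩ := f0_L1
  refine ⟨(pf_meas b k0 hb k0_meas).aestronglyMeasurable, ?_⟩
  rw [hasFiniteIntegral_iff_enorm, h b hb]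
  exact ENNReal.mul_lt_top ENNReal.ofReal_lt_top ((N1_le b B hB).trans_lt ENNReal.ofReal_lt_top)

lemma f0_memLp (b : ℝ → ℂ) (hb : Measurable b) (B : ℝ) (hB : ∀ θ, ‖b θ‖ ≤ B) : MemLp (pf b k0) 2 := by
  obtain ⟨C, hC, h⟩ := f0_L2
  refine ⟨(pf_meas b k0 hb k0_meas).aestronglyMeasurable, ?_⟩
  rw [eLpNorm_lt_top_iff_lintegral_rpow_enorm_lt_top (by norm_num) (by norm_num)]
  simp only [ENNReal.toReal_ofNat]
  have h2 := h b hb
  have e : ∀ ξ, ‖pf b k0 ξ‖ₑ ^ (2 : ℝ) = ‖pf b k0 ξ‖ₑ ^ 2 := fun ξ => by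
    rw [show (2 : ℝ) = ((2 : ℕ) : ℝ) by norm_num, ENNReal.rpow_natCast]
  simp only [e]
  rw [h2]
  exact ENNReal.mul_lt_top ENNReal.ofReal_lt_top ((N2_le b B hB).trans_lt ENNReal.ofReal_lt_top)

end Pool.Agent.Y250.AN
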