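import Mathlib
import Pool.Agent.Y250.AN.D2
set_option autoImplicit false

/-! The space time `L^q` bound of the basic window. -/

namespace Pool.Agent.Y250.AN

open MeasureTheory Set Complex Filter Topology
open scoped ENNReal NNReal ContDiff

lemma tw1 (σ : ℝ) (hσ : 0 < σ) (t : ℝ) (ht : 2 ≤ |t|) : |t| ^ (-σ) ≤ 3 ^ σ * (1 + |t|) ^ (-σ) := by
  have h0 : 0 < |t| := by linarith
  rw [Real.rpow_neg h0.le, Real.rpow_neg (by positivity), inv_eq_one_div, ← div_eq_mul_inv,
    div_le_div_iff₀ (by positivity) (by positivity), one_mul, ← Real.mul_rpow (by norm_num) h0.le]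
  exact Real.rpow_le_rpow (by positivity) (by linarith) hσ.le

lemma tw2 (σ : ℝ) (hσ : 0 < σ) (t : ℝ) (ht : |t| < 2) : 1 ≤ 3 ^ σ * (1 + |t|) ^ (-σ) := by
  rw [Real.rpow_neg (by positivity), ← div_eq_mul_inv, le_div_iff₀ (by positivity), one_mul]
  exact Real.rpow_le_rpow (by positivity) (by linarith) hσ.le

/-- fixed time `L^q` bound -/
lemma fixedq (q : ℝ) (hq3 : 3 < q) (hq4 : q < 4) : ∃ C σ : ℝ, 0 ≤ C ∧ 1 < σ ∧ ∀ (b : ℝ → ℂ), Measurable b →
    ∀ B : ℝ, (∀ θ, ‖b θ‖ ≤ B) → (∀ θ, b (θ + Real.pi) = b θ) → ∀ t : ℝ,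
    ∫⁻ x, ‖Ext (pf b k0) (x, t)‖ₑ ^ q ≤ ENNReal.ofReal (C * B ^ (q - 2) * (1 + |t|) ^ (-σ)) * N2 b := by
  set δ := (q - 3) / (q - 2) with hδ
  have hδ0 : 0 < δ := div_pos (by linarith) (by linarith)
  have hδ1 : δ < 1 := by rw [hδ, div_lt_one (by linarith)]; linarith
  set σ := (2 - δ) * ((q - 2) / 2) with hσ
  have hσe : σ = (q - 1) / 2 := by
    rw [hσ, hδ]
    have : q - 2 ≠ 0 := by linarith
    field_simp
    ring
  have hσ1 : 1 < σ := by rw [hσe]; linarith
  obtain ⟨C4, hC4, h4⟩ := fixed4 δ hδ0 hδ1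
  obtain ⟨C1, hC1, h1⟩ := f0_L1
  obtain ⟨C2, hC2, h2⟩ := f0_L2
  set c2 := (2 * Real.pi) ^ 2 * C2 with hc2
  have hc20 : 0 ≤ c2 := by positivity
  set K1 := c2 ^ ((4 - q) / 2) * C4 ^ ((q - 2) / 2) with hK1
  set K2 := (C1 * (2 * Real.pi)) ^ (q - 2) * c2 with hK2
  have hK10 : 0 ≤ K1 := by positivity
  have hK20 : 0 ≤ K2 := by positivity
  refine ⟨(K1 + K2) * 3 ^ σ, σ, by positivity, hσ1, ?_⟩
  intro b hb B hB hper t
  have hB0 : 0 ≤ B := (norm_nonneg _).trans (hB 0)
  have hm : Measurable fun x : ℂ => ‖Ext (pf b k0) (x, t)‖ₑ :=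
    ((Ext_meas (pf b k0) (pf_meas b k0 hb k0_meas)).comp (by fun_prop : Measurable fun x : ℂ => (x, t))).enorm
  have hL2 : ∫⁻ x, ‖Ext (pf b k0) (x, t)‖ₑ ^ 2 = ENNReal.ofReal c2 * N2 b := by
    rw [plan (pf b k0) (f0_int b hb B hB) (f0_memLp b hb B hB) t, h2 b hb, ← mul_assoc,
      ← ENNReal.ofReal_mul (by positivity)]
  rcases lt_or_ge |t| 2 with ht | ht
  · -- small time
    have hs : ∀ x : ℂ, ‖Ext (pf b k0) (x, t)‖ₑ ≤ ENNReal.ofReal (C1 * (2 * Real.pi) * B) := by
      intro x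
      refine (Ext_sup _ _).trans ?_
      rw [h1 b hb]
      refine (mul_le_mul_right (N1_le b B hB) _).trans (le_of_eq ?_)
      rw [← ENNReal.ofReal_mul hC1]
      congr 1
      ring
    calc ∫⁻ x, ‖Ext (pf b k0) (x, t)‖ₑ ^ q
        ≤ ∫⁻ x, ENNReal.ofReal ((C1 * (2 * Real.pi) * B) ^ (q - 2)) * ‖Ext (pf b k0) (x, t)‖ₑ ^ 2 := by
          apply lintegral_mono
          intro x
          simp only
          have e : ‖Ext (pf b k0) (x, t)‖ₑ ^ q =
              ‖Ext (pf b k0) (x, t)‖ₑ ^ (q - 2) * ‖Ext (pf b k0) (x, t)‖ₑ ^ 2 := by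
            rw [← ENNReal.rpow_natCast _ 2, ← ENNReal.rpow_add_of_nonneg _ _ (by linarith) (by norm_num)]
            congr 1
            push_cast
            ring
          rw [e]
          refine mul_le_mul' ?_ le_rfl
          rw [← ENNReal.ofReal_rpow_of_nonneg (by positivity) (by linarith)]
          exact ENNReal.rpow_le_rpow (hs x) (by linarith)
      _ = ENNReal.ofReal ((C1 * (2 * Real.pi) * B) ^ (q - 2)) * (ENNReal.ofReal c2 * N2 b) := by
          rw [lintegral_const_mul _ (hm.pow_const 2), hL2]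
      _ = ENNReal.ofReal (K2 * B ^ (q - 2)) * N2 b := by
          rw [← mul_assoc, ← ENNReal.ofReal_mul (by positivity), Real.mul_rpow (by positivity) hB0]
          congr 2
          rw [hK2]
          ring
      _ ≤ _ := by
          refine mul_le_mul' ?_ le_rfl
          apply ENNReal.ofReal_le_ofReal
          have h5 := tw2 σ (by linarith) t ht
          have h6 : 0 ≤ B ^ (q - 2) := by positivity
          calc K2 * B ^ (q - 2) ≤ (K1 + K2) * B ^ (q - 2) * 1 := by nlinarith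
            _ ≤ (K1 + K2) * B ^ (q - 2) * (3 ^ σ * (1 + |t|) ^ (-σ)) := by gcongr
            _ = _ := by ring
  · have ht0 : 0 < |t| := by linarith
    have hN : N2 b ≠ ⊤ := ((N2_le b B hB).trans_lt ENNReal.ofReal_lt_top).ne
    refine (interp volume _ hm q (by linarith) hq4).trans ?_
    rw [hL2]
    calc (ENNReal.ofReal c2 * N2 b) ^ ((4 - q) / 2) * (∫⁻ x, ‖Ext (pf b k0) (x, t)‖ₑ ^ 4) ^ ((q - 2) / 2)
        ≤ (ENNReal.ofReal c2 * N2 b) ^ ((4 - q) / 2) *
            (ENNReal.ofReal (C4 * B ^ 2 * |t| ^ (-2 + δ)) * N2 b) ^ ((q - 2) / 2) := by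
          refine mul_le_mul' le_rfl ?_
          exact ENNReal.rpow_le_rpow (h4 b hb B hB hper t ht) (by linarith)
      _ = ENNReal.ofReal (K1 * B ^ (q - 2) * |t| ^ (-σ)) * N2 b := by
          rw [ENNReal.mul_rpow_of_nonneg _ _ (by linarith), ENNReal.mul_rpow_of_nonneg _ _ (by linarith),
            ENNReal.ofReal_rpow_of_nonneg hc20 (by linarith),
            ENNReal.ofReal_rpow_of_nonneg (by positivity) (by linarith)]
          have e1 : N2 b ^ ((4 - q) / 2) * N2 b ^ ((q - 2) / 2) = N2 b := by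
            rw [← ENNReal.rpow_add_of_nonneg _ _ (by linarith) (by linarith)]
            rw [show (4 - q) / 2 + (q - 2) / 2 = 1 by ring, ENNReal.rpow_one]
          have e2 : (C4 * B ^ 2 * |t| ^ (-2 + δ)) ^ ((q - 2) / 2) =
              C4 ^ ((q - 2) / 2) * B ^ (q - 2) * |t| ^ (-σ) := by
            rw [Real.mul_rpow (by positivity) (by positivity), Real.mul_rpow hC4 (by positivity),
              ← Real.rpow_natCast B 2, ← Real.rpow_mul hB0, ← Real.rpow_mul ht0.le]
            congr 2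
            · congr 1
              push_cast
              ring
            · rw [hσ]
              ring
          calc _ = (ENNReal.ofReal (c2 ^ ((4 - q) / 2)) * ENNReal.ofReal ((C4 * B ^ 2 * |t| ^ (-2 + δ)) ^ ((q - 2) / 2))) *
                (N2 b ^ ((4 - q) / 2) * N2 b ^ ((q - 2) / 2)) := by ring
            _ = _ := by
              rw [e1, e2, ← ENNReal.ofReal_mul (by positivity)]
              congr 2
              rw [hK1]
              ring
      _ ≤ _ := by
          refine mul_le_mul' ?_ le_rfl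
          apply ENNReal.ofReal_le_ofReal
          have h5 := tw1 σ (by linarith) t ht
          calc K1 * B ^ (q - 2) * |t| ^ (-σ) ≤ (K1 + K2) * B ^ (q - 2) * (3 ^ σ * (1 + |t|) ^ (-σ)) := by
                gcongr
                linarith
            _ = _ := by ring

/-- The space time bound. -/
theorem base (q : ℝ) (hq3 : 3 < q) (hq4 : q < 4) : ∃ C : ℝ, 0 ≤ C ∧ ∀ (b : ℝ → ℂ), Measurable b →
    ∀ B : ℝ, (∀ θ, ‖b θ‖ ≤ B) → (∀ θ, b (θ + Real.pi) = b θ) →
    ∫⁻ p, ‖Ext (pf b k0) p‖ₑ ^ q ≤ ENNReal.ofReal (C * B ^ q) * Am b := by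
  obtain ⟨C, σ, hC, hσ, h⟩ := fixedq q hq3 hq4
  have hI : Integrable (fun t : ℝ => (1 + ‖t‖) ^ (-σ)) := by
    apply integrable_one_add_norm
    simpa using hσ
  set A := ∫ t : ℝ, (1 + ‖t‖) ^ (-σ) with hA
  have hA0 : 0 ≤ A := integral_nonneg fun t => by positivity
  refine ⟨C * A, by positivity, ?_⟩
  intro b hb B hB hper
  have hB0 : 0 ≤ B := (norm_nonneg _).trans (hB 0)
  have hm : Measurable fun p : ℂ × ℝ => ‖Ext (pf b k0) p‖ₑ ^ q :=
    (Ext_meas (pf b k0) (pf_meas b k0 hb k0_meas)).enorm.pow_const q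
  rw [Measure.volume_eq_prod, lintegral_prod_symm' _ hm]
  calc ∫⁻ t : ℝ, ∫⁻ x : ℂ, ‖Ext (pf b k0) (x, t)‖ₑ ^ q
      ≤ ∫⁻ t : ℝ, ENNReal.ofReal (C * B ^ (q - 2) * (1 + |t|) ^ (-σ)) * N2 b :=
        lintegral_mono fun t => h b hb B hB hper t
    _ = ENNReal.ofReal (C * B ^ (q - 2) * A) * N2 b := by
        have hN : N2 b ≠ ⊤ := ((N2_le b B hB).trans_lt ENNReal.ofReal_lt_top).ne
        rw [lintegral_mul_const' _ _ hN]
        congr 1
        rw [hA, ← integral_const_mul, ofReal_integral_eq_lintegral_ofReal]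
        · simp only [Real.norm_eq_abs]
        · exact hI.const_mul _
        · exact Filter.Eventually.of_forall fun t => by positivity
    _ ≤ ENNReal.ofReal (C * B ^ (q - 2) * A) * (ENNReal.ofReal (B ^ (2 : ℝ)) * Am b) := by
        refine mul_le_mul' le_rfl ?_
        rw [N2_eq]
        exact Np_le b hb B hB 2 (by norm_num)
    _ = _ := by
        rw [← mul_assoc, ← ENNReal.ofReal_mul (by positivity)]
        congr 2
        rcases eq_or_lt_of_le hB0 with h0 | h0
        · rw [← h0, Real.zero_rpow (show q - 2 ≠ 0 by linarith), Real.zero_rpow (show q ≠ 0 by linarith)]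
          ring
        · have : B ^ q = B ^ (q - 2) * B ^ (2 : ℝ) := by
            rw [← Real.rpow_add h0]
            congr 1
            ring
          rw [this]
          ring

end Pool.Agent.Y250.AN
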