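import Mathlib
import Pool.Agent.Y250.AN.D3
set_option autoImplicit false

/-! The `L^q` functional of the extension operator: triangle inequality, limits, windows. -/

namespace Pool.Agent.Y250.AN

open MeasureTheory Set Complex Filter Topology
open scoped ENNReal NNReal ContDiff

/-- the `L^q` norm of the extension -/
noncomputable def LL (q : ℝ) (f : ℂ → ℂ) : ℝ≥0∞ := (∫⁻ p, ‖Ext f p‖ₑ ^ q) ^ (1 / q)

lemma ph_cont (p : ℂ × ℝ) : Continuous fun ξ : ℂ => ee (-(dt p.1 ξ + p.2 * ‖ξ‖ ^ 2)) := by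
  apply ee_cont.comp
  have h4 : Continuous fun ξ : ℂ => dt p.1 ξ := dt_cont.comp (continuous_const.prodMk continuous_id)
  fun_prop

lemma Ext_integrable (f : ℂ → ℂ) (hf : Integrable f) (p : ℂ × ℝ) :
    Integrable fun ξ => ee (-(dt p.1 ξ + p.2 * ‖ξ‖ ^ 2)) * f ξ := by
  refine hf.norm.mono' ((ph_cont p).aestronglyMeasurable.mul hf.1) (Filter.Eventually.of_forall fun ξ => ?_)
  rw [norm_mul, norm_ee, one_mul]

lemma Ext_add (f g : ℂ → ℂ) (hf : Integrable f) (hg : Integrable g) (p : ℂ × ℝ) :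
    Ext (fun ξ => f ξ + g ξ) p = Ext f p + Ext g p := by
  unfold Ext
  rw [← integral_add (Ext_integrable f hf p) (Ext_integrable g hg p)]
  simp only [mul_add]

lemma Ext_smul (c : ℂ) (f : ℂ → ℂ) (p : ℂ × ℝ) : Ext (fun ξ => c * f ξ) p = c * Ext f p := by
  unfold Ext
  rw [← integral_const_mul]
  congr 1
  ext ξ
  ring

lemma LL_add (q : ℝ) (hq : 1 ≤ q) (f g : ℂ → ℂ) (hf : Integrable f) (hg : Integrable g)
    (hfm : Measurable f) (hgm : Measurable g) : LL q (fun ξ => f ξ + g ξ) ≤ LL q f + LL q g := by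
  unfold LL
  refine le_trans ?_ (ENNReal.lintegral_Lp_add_le (Ext_meas f hfm).enorm.aemeasurable
    (Ext_meas g hgm).enorm.aemeasurable hq)
  apply ENNReal.rpow_le_rpow _ (by positivity)
  apply lintegral_mono
  intro p
  apply ENNReal.rpow_le_rpow _ (by linarith)
  rw [Ext_add f g hf hg p]
  exact enorm_add_le _ _

lemma LL_smul (q : ℝ) (hq : 1 ≤ q) (c : ℂ) (f : ℂ → ℂ) (hfm : Measurable f) :
    LL q (fun ξ => c * f ξ) = ‖c‖ₑ * LL q f := by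
  unfold LL
  have h0 : 0 ≤ q := by linarith
  have h : ∀ p, ‖Ext (fun ξ => c * f ξ) p‖ₑ ^ q = ‖c‖ₑ ^ q * ‖Ext f p‖ₑ ^ q := by
    intro p
    rw [Ext_smul, enorm_mul, ENNReal.mul_rpow_of_nonneg _ _ h0]
  simp only [h]
  rw [lintegral_const_mul _ ((Ext_meas f hfm).enorm.pow_const q),
    ENNReal.mul_rpow_of_nonneg _ _ (by positivity), ← ENNReal.rpow_mul, mul_one_div_cancel (by linarith),
    ENNReal.rpow_one]

lemma LL_sum (q : ℝ) (hq : 1 ≤ q) {ι : Type*} (s : Finset ι) (f : ι → ℂ → ℂ) (hf : ∀ i, Integrable (f i))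
    (hfm : ∀ i, Measurable (f i)) : LL q (fun ξ => ∑ i ∈ s, f i ξ) ≤ ∑ i ∈ s, LL q (f i) := by
  classical
  induction s using Finset.induction_on with
  | empty =>
    simp only [Finset.sum_empty]
    have h : ∀ p, Ext (fun _ => (0 : ℂ)) p = 0 := by
      intro p
      unfold Ext
      simp
    unfold LL
    simp only [h, enorm_zero]
    rw [ENNReal.zero_rpow_of_pos (by linarith), lintegral_zero, ENNReal.zero_rpow_of_pos (by positivity)]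
  | insert a s ha ih =>
    simp only [Finset.sum_insert ha]
    refine (LL_add q hq _ _ (hf a) ?_ (hfm a) ?_).trans (add_le_add le_rfl ih)
    · exact integrable_finsetSum s fun i _ => hf i
    · exact Finset.measurable_sum s fun i _ => hfm i

/-- limits in `L^1` -/
lemma LL_lim (q : ℝ) (hq : 1 ≤ q) (f : ℂ → ℂ) (g : ℕ → ℂ → ℂ) (hf : Integrable f) (hg : ∀ n, Integrable (g n))
    (hgm : ∀ n, Measurable (g n)) (hl : Tendsto (fun n => ∫⁻ ξ, ‖g n ξ - f ξ‖ₑ) atTop (𝓝 0)) (C : ℝ≥0∞)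
    (hC : ∀ n, LL q (g n) ≤ C) : LL q f ≤ C := by
  have hq0 : 0 < q := by linarith
  have hpt : ∀ p, Tendsto (fun n => ‖Ext (g n) p‖ₑ ^ q) atTop (𝓝 (‖Ext f p‖ₑ ^ q)) := by
    intro p
    apply Tendsto.ennrpow_const
    apply Tendsto.enorm
    rw [tendsto_iff_edist_tendsto_0]
    refine tendsto_of_tendsto_of_tendsto_of_le_of_le tendsto_const_nhds hl (fun n => zero_le) (fun n => ?_)
    rw [edist_eq_enorm_sub]
    have e : Ext (g n) p - Ext f p = Ext (fun ξ => g n ξ - f ξ) p := by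
      unfold Ext
      rw [← integral_sub (Ext_integrable _ (hg n) p) (Ext_integrable f hf p)]
      simp only [mul_sub]
    rw [e]
    exact Ext_sup _ _
  have h1 : ∫⁻ p, ‖Ext f p‖ₑ ^ q ≤ liminf (fun n => ∫⁻ p, ‖Ext (g n) p‖ₑ ^ q) atTop := by
    calc ∫⁻ p, ‖Ext f p‖ₑ ^ q = ∫⁻ p, liminf (fun n => ‖Ext (g n) p‖ₑ ^ q) atTop :=
          lintegral_congr fun p => (hpt p).liminf_eq.symm
      _ ≤ _ := lintegral_liminf_le fun n => (Ext_meas (g n) (hgm n)).enorm.pow_const q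
  have h2 : ∀ n, ∫⁻ p, ‖Ext (g n) p‖ₑ ^ q ≤ C ^ q := by
    intro n
    have h3 := ENNReal.rpow_le_rpow (hC n) hq0.le
    unfold LL at h3
    rw [← ENNReal.rpow_mul, one_div_mul_cancel hq0.ne', ENNReal.rpow_one] at h3
    exact h3
  have h4 : ∫⁻ p, ‖Ext f p‖ₑ ^ q ≤ C ^ q := by
    refine h1.trans ?_
    have h5 : liminf (fun n => ∫⁻ p, ‖Ext (g n) p‖ₑ ^ q) atTop ≤ liminf (fun _ : ℕ => C ^ q) atTop :=
      liminf_le_liminf (Filter.Eventually.of_forall h2)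
    exact h5.trans (le_of_eq (by simp))
  unfold LL
  calc _ ≤ (C ^ q) ^ (1 / q) := ENNReal.rpow_le_rpow h4 (by positivity)
    _ = C := by rw [← ENNReal.rpow_mul, mul_one_div_cancel hq0.ne', ENNReal.rpow_one]

lemma LL_pow (q : ℝ) (hq : 1 ≤ q) (f : ℂ → ℂ) : LL q f ^ q = ∫⁻ p, ‖Ext f p‖ₑ ^ q := by
  unfold LL
  rw [← ENNReal.rpow_mul, one_div_mul_cancel (by linarith), ENNReal.rpow_one]

/-- larger exponents through the supremum -/
lemma LL_up (q q' : ℝ) (hq' : 1 ≤ q') (hqq : q' ≤ q) (f : ℂ → ℂ) (hfm : Measurable f) :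
    LL q f ≤ (∫⁻ ξ, ‖f ξ‖ₑ) ^ (1 - q' / q) * LL q' f ^ (q' / q) := by
  have hq0 : 0 < q := by linarith
  have h1 : ∫⁻ p, ‖Ext f p‖ₑ ^ q ≤ (∫⁻ ξ, ‖f ξ‖ₑ) ^ (q - q') * ∫⁻ p, ‖Ext f p‖ₑ ^ q' := by
    rw [← lintegral_const_mul _ ((Ext_meas f hfm).enorm.pow_const q')]
    apply lintegral_mono
    intro p
    simp only
    have e : ‖Ext f p‖ₑ ^ q = ‖Ext f p‖ₑ ^ (q - q') * ‖Ext f p‖ₑ ^ q' := by
      rw [← ENNReal.rpow_add_of_nonneg _ _ (by linarith) (by linarith)]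
      congr 1
      ring
    rw [e]
    refine mul_le_mul' ?_ le_rfl
    exact ENNReal.rpow_le_rpow (Ext_sup f p) (by linarith)
  have h2 := ENNReal.rpow_le_rpow h1 (z := 1 / q) (by positivity)
  rw [ENNReal.mul_rpow_of_nonneg _ _ (by positivity), ← ENNReal.rpow_mul, ← LL_pow q' hq', ← ENNReal.rpow_mul] at h2
  unfold LL at h2 ⊢
  refine h2.trans (le_of_eq ?_)
  congr 2
  · field_simp
  · ring

/-- the window -/
noncomputable def Wd (ψ : ℝ → ℂ) (σ : ℝ → ℂ × ℝ) (ξ : ℂ) : ℂ :=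
  ∫ w, ψ w * ee (-(dt (σ w).1 ξ + (σ w).2 * ‖ξ‖ ^ 2))

lemma dt_add_left (x y z : ℂ) : dt (x + y) z = dt x z + dt y z := by
  unfold dt
  rw [Complex.add_re, Complex.add_im]
  ring

lemma Ext_Wd (ψ : ℝ → ℂ) (σ : ℝ → ℂ × ℝ) (hψ : Integrable ψ) (hψm : Measurable ψ) (hσ : Measurable σ) (F : ℂ → ℂ)
    (hF : Integrable F) (hFm : Measurable F) (p : ℂ × ℝ) :
    Ext (fun ξ => Wd ψ σ ξ * F ξ) p = ∫ w, ψ w * Ext F (p + σ w) := by
  unfold Ext Wd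
  have hc : Measurable fun z : ℂ × ℝ => ee (-(dt (σ z.2).1 z.1 + (σ z.2).2 * ‖z.1‖ ^ 2)) := by
    have h2 : Continuous fun p : (ℂ × ℝ) × ℂ => ee (-(dt p.1.1 p.2 + p.1.2 * ‖p.2‖ ^ 2)) := by
      apply ee_cont.comp
      have h4 : Continuous fun p : (ℂ × ℝ) × ℂ => dt p.1.1 p.2 :=
        dt_cont.comp ((continuous_fst.comp continuous_fst).prodMk continuous_snd)
      fun_prop
    exact h2.measurable.comp ((hσ.comp measurable_snd).prodMk measurable_fst)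
  have hI : Integrable (Function.uncurry fun (ξ : ℂ) (w : ℝ) =>
      (ee (-(dt p.1 ξ + p.2 * ‖ξ‖ ^ 2)) * F ξ) * (ψ w * ee (-(dt (σ w).1 ξ + (σ w).2 * ‖ξ‖ ^ 2)))) := by
    refine Integrable.mono' (hF.norm.mul_prod hψ.norm) ?_ (Filter.Eventually.of_forall fun z => ?_)
    · exact ((((ph_cont p).measurable.comp measurable_fst).mul (hFm.comp measurable_fst)).mul
        ((hψm.comp measurable_snd).mul hc)).aestronglyMeasurable
    · rw [Function.uncurry, norm_mul, norm_mul, norm_mul, norm_ee, norm_ee, one_mul, mul_one]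
  have hs := integral_integral_swap hI
  have e1 : ∀ ξ, ee (-(dt p.1 ξ + p.2 * ‖ξ‖ ^ 2)) * ((∫ w, ψ w * ee (-(dt (σ w).1 ξ + (σ w).2 * ‖ξ‖ ^ 2))) * F ξ) =
      ∫ w, (ee (-(dt p.1 ξ + p.2 * ‖ξ‖ ^ 2)) * F ξ) * (ψ w * ee (-(dt (σ w).1 ξ + (σ w).2 * ‖ξ‖ ^ 2))) := by
    intro ξ
    rw [integral_const_mul]
    ring
  simp only [e1]
  rw [hs]
  apply integral_congr_ae
  refine Filter.Eventually.of_forall fun w => ?_
  simp only
  rw [← integral_const_mul]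
  apply integral_congr_ae
  refine Filter.Eventually.of_forall fun ξ => ?_
  simp only
  have e2 : ee (-(dt (p + σ w).1 ξ + (p + σ w).2 * ‖ξ‖ ^ 2)) =
      ee (-(dt p.1 ξ + p.2 * ‖ξ‖ ^ 2)) * ee (-(dt (σ w).1 ξ + (σ w).2 * ‖ξ‖ ^ 2)) := by
    rw [← ee_add]
    congr 1
    rw [Prod.fst_add, Prod.snd_add, dt_add_left]
    ring
  rw [e2]
  ring

/-- windows -/
theorem LL_Wd (q : ℝ) (hq : 1 ≤ q) (ψ : ℝ → ℂ) (σ : ℝ → ℂ × ℝ) (hψ : Integrable ψ) (hψm : Measurable ψ)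
    (hσ : Measurable σ) (F : ℂ → ℂ) (hF : Integrable F) (hFm : Measurable F) :
    LL q (fun ξ => Wd ψ σ ξ * F ξ) ≤ (∫⁻ w, ‖ψ w‖ₑ) * LL q F := by
  have hq0 : 0 < q := by linarith
  have hEm := Ext_meas F hFm
  have h1 : ∀ p, ‖Ext (fun ξ => Wd ψ σ ξ * F ξ) p‖ₑ ^ q ≤
      (∫⁻ w, ‖ψ w‖ₑ) ^ (q - 1) * ∫⁻ w, ‖ψ w‖ₑ * ‖Ext F (p + σ w)‖ₑ ^ q := by
    intro p
    rw [Ext_Wd ψ σ hψ hψm hσ F hF hFm p]
    refine (ENNReal.rpow_le_rpow (enorm_integral_le_lintegral_enorm _) hq0.le).trans ?_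
    simp only [enorm_mul]
    exact jensen volume _ _ hψm.enorm (hEm.comp (hσ.const_add p)).enorm q hq
  have hm2 : Measurable fun z : (ℂ × ℝ) × ℝ => ‖ψ z.2‖ₑ * ‖Ext F (z.1 + σ z.2)‖ₑ ^ q :=
    ((hψm.comp measurable_snd).enorm).mul
      ((hEm.comp (measurable_fst.add (hσ.comp measurable_snd))).enorm.pow_const q)
  have h2 : ∫⁻ p, ‖Ext (fun ξ => Wd ψ σ ξ * F ξ) p‖ₑ ^ q ≤
      (∫⁻ w, ‖ψ w‖ₑ) ^ q * ∫⁻ p, ‖Ext F p‖ₑ ^ q := by
    refine (lintegral_mono h1).trans ?_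
    rw [lintegral_const_mul _ hm2.lintegral_prod_right', lintegral_lintegral_swap hm2.aemeasurable]
    have h3 : ∀ w : ℝ, ∫⁻ p, ‖ψ w‖ₑ * ‖Ext F (p + σ w)‖ₑ ^ q = ‖ψ w‖ₑ * ∫⁻ p, ‖Ext F p‖ₑ ^ q := by
      intro w
      have hmw : Measurable fun p : ℂ × ℝ => ‖Ext F (p + σ w)‖ₑ ^ q :=
        (hEm.comp (measurable_id.add_const (σ w))).enorm.pow_const q
      rw [lintegral_const_mul _ hmw]
      congr 1
      exact lintegral_add_right_eq_self (μ := (volume : Measure ℂ).prod (volume : Measure ℝ))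
        (fun p => ‖Ext F p‖ₑ ^ q) (σ w)
    simp only [h3]
    rw [lintegral_mul_const _ hψm.enorm, ← mul_assoc]
    apply le_of_eq
    congr 1
    rcases eq_or_ne (∫⁻ w, ‖ψ w‖ₑ) 0 with h0 | h0
    · rw [h0, mul_zero, ENNReal.zero_rpow_of_pos hq0]
    · have ht : (∫⁻ w, ‖ψ w‖ₑ) ≠ ⊤ := hψ.2.ne
      calc (∫⁻ w, ‖ψ w‖ₑ) ^ (q - 1) * (∫⁻ w, ‖ψ w‖ₑ) = (∫⁻ w, ‖ψ w‖ₑ) ^ (q - 1) * (∫⁻ w, ‖ψ w‖ₑ) ^ (1 : ℝ) := by
            rw [ENNReal.rpow_one]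
        _ = (∫⁻ w, ‖ψ w‖ₑ) ^ q := by
          rw [← ENNReal.rpow_add _ _ h0 ht]
          congr 1
          ring
  unfold LL
  calc _ ≤ ((∫⁻ w, ‖ψ w‖ₑ) ^ q * ∫⁻ p, ‖Ext F p‖ₑ ^ q) ^ (1 / q) := ENNReal.rpow_le_rpow h2 (by positivity)
    _ = _ := by
      rw [ENNReal.mul_rpow_of_nonneg _ _ (by positivity), ← ENNReal.rpow_mul, mul_one_div_cancel hq0.ne',
        ENNReal.rpow_one]

end Pool.Agent.Y250.AN
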