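import Mathlib
import Pool.Agent.Y250.AN.D4
import Pool.Agent.W354.LS.Kern
set_option autoImplicit false

/-! Restricted type bounds for functions `b(arg ξ) k(|ξ|)`. -/

namespace Pool.Agent.Y250.AN

open MeasureTheory Set Complex Filter Topology
open scoped ENNReal NNReal ContDiff

/-- restricted type bound for the class `P` of angular functions and the radial function `k` -/
def Bd (P : (ℝ → ℂ) → Prop) (q : ℝ) (k : ℝ → ℂ) (C : ℝ) : Prop :=
  ∀ b : ℝ → ℂ, Measurable b → ∀ B : ℝ, (∀ θ, ‖b θ‖ ≤ B) → P b →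
    LL q (pf b k) ≤ ENNReal.ofReal (C * B) * Am b ^ (1 / q)

/-- radial `L^1` norm -/
noncomputable def R1 (k : ℝ → ℂ) : ℝ≥0∞ := ∫⁻ r in Ioi (0 : ℝ), ENNReal.ofReal r * ‖k r‖ₑ

lemma pf_L1 (b k : ℝ → ℂ) (hb : Measurable b) (hk : Measurable k) : ∫⁻ ξ, ‖pf b k ξ‖ₑ = N1 b * R1 k := by
  have h := pol_norm b k hb hk 1 zero_le_one
  simp only [ENNReal.rpow_one] at h
  exact h

lemma pf_integrable (b k : ℝ → ℂ) (hb : Measurable b) (B : ℝ) (hB : ∀ θ, ‖b θ‖ ≤ B) (hk : Measurable k)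
    (hk1 : R1 k ≠ ⊤) : Integrable (pf b k) := by
  refine ⟨(pf_meas b k hb hk).aestronglyMeasurable, ?_⟩
  rw [hasFiniteIntegral_iff_enorm, pf_L1 b k hb hk]
  exact ENNReal.mul_lt_top ((N1_le b B hB).trans_lt ENNReal.ofReal_lt_top) hk1.lt_top

lemma N1_Am (b : ℝ → ℂ) (hb : Measurable b) (B : ℝ) (hB : ∀ θ, ‖b θ‖ ≤ B) : N1 b ≤ ENNReal.ofReal B * Am b := by
  have h := Np_le b hb B hB 1 one_pos
  simp only [ENNReal.rpow_one, Real.rpow_one] at h
  exact h

lemma Bd_up (P : (ℝ → ℂ) → Prop) (q q' : ℝ) (hq' : 1 ≤ q') (hqq : q' ≤ q) (k : ℝ → ℂ) (hk : Measurable k)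
    (c1 : ℝ) (hc1 : 0 ≤ c1) (h1 : R1 k ≤ ENNReal.ofReal c1) (C' : ℝ) (hC' : 0 ≤ C') (h : Bd P q' k C') :
    Bd P q k (c1 ^ (1 - q' / q) * C' ^ (q' / q) * (2 * Real.pi) ^ (1 - q' / q)) := by
  intro b hb B hB hP
  have hB0 : 0 ≤ B := (norm_nonneg _).trans (hB 0)
  have hq0 : 0 < q := by linarith
  have he : 0 ≤ 1 - q' / q := by
    rw [sub_nonneg, div_le_one hq0]; exact hqq
  have he2 : 0 < q' / q := by positivity
  refine (LL_up q q' hq' hqq _ (pf_meas b k hb hk)).trans ?_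
  have a1 : ∫⁻ ξ, ‖pf b k ξ‖ₑ ≤ ENNReal.ofReal (c1 * B) * Am b := by
    rw [pf_L1 b k hb hk]
    calc N1 b * R1 k ≤ (ENNReal.ofReal B * Am b) * ENNReal.ofReal c1 := mul_le_mul' (N1_Am b hb B hB) h1
      _ = _ := by rw [ENNReal.ofReal_mul hc1]; ring
  have a2 := h b hb B hB hP
  calc (∫⁻ ξ, ‖pf b k ξ‖ₑ) ^ (1 - q' / q) * LL q' (pf b k) ^ (q' / q)
      ≤ (ENNReal.ofReal (c1 * B) * Am b) ^ (1 - q' / q) *
          (ENNReal.ofReal (C' * B) * Am b ^ (1 / q')) ^ (q' / q) :=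
        mul_le_mul' (ENNReal.rpow_le_rpow a1 he) (ENNReal.rpow_le_rpow a2 he2.le)
    _ = ENNReal.ofReal (c1 ^ (1 - q' / q) * C' ^ (q' / q) * B) * (Am b ^ (1 - q' / q) * Am b ^ (1 / q)) := by
        rw [ENNReal.mul_rpow_of_nonneg _ _ he, ENNReal.mul_rpow_of_nonneg _ _ he2.le, ← ENNReal.rpow_mul,
          ENNReal.ofReal_rpow_of_nonneg (by positivity) he, ENNReal.ofReal_rpow_of_nonneg (by positivity) he2.le,
          Real.mul_rpow hc1 hB0, Real.mul_rpow hC' hB0]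
        have e1 : 1 / q' * (q' / q) = 1 / q := by field_simp
        have e2 : c1 ^ (1 - q' / q) * C' ^ (q' / q) * B =
            (c1 ^ (1 - q' / q) * B ^ (1 - q' / q)) * (C' ^ (q' / q) * B ^ (q' / q)) := by
          have : B = B ^ (1 - q' / q) * B ^ (q' / q) := by
            rw [← Real.rpow_add_of_nonneg hB0 he he2.le, sub_add_cancel, Real.rpow_one]
          nth_rewrite 1 [this]
          ring
        rw [e1, e2, ENNReal.ofReal_mul (p := c1 ^ (1 - q' / q) * B ^ (1 - q' / q)) (by positivity)]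
        ring
    _ ≤ ENNReal.ofReal (c1 ^ (1 - q' / q) * C' ^ (q' / q) * B) *
          (ENNReal.ofReal ((2 * Real.pi) ^ (1 - q' / q)) * Am b ^ (1 / q)) := by
        refine mul_le_mul' le_rfl (mul_le_mul' ?_ le_rfl)
        rw [← ENNReal.ofReal_rpow_of_nonneg (by positivity) he]
        exact ENNReal.rpow_le_rpow (Am_le b) he
    _ = _ := by
        rw [← mul_assoc, ← ENNReal.ofReal_mul (by positivity)]
        congr 2
        ring

lemma Bd_add (P : (ℝ → ℂ) → Prop) (q : ℝ) (hq : 1 ≤ q) (k k' : ℝ → ℂ) (hk : Measurable k) (hk' : Measurable k')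
    (h1 : R1 k ≠ ⊤) (h1' : R1 k' ≠ ⊤) (C C' : ℝ) (hC : 0 ≤ C) (hC' : 0 ≤ C') (h : Bd P q k C) (h' : Bd P q k' C') :
    Bd P q (fun r => k r + k' r) (C + C') := by
  intro b hb B hB hP
  have hB0 : 0 ≤ B := (norm_nonneg _).trans (hB 0)
  have e : pf b (fun r => k r + k' r) = fun ξ => pf b k ξ + pf b k' ξ := by
    ext ξ
    unfold pf
    ring
  rw [e]
  refine (LL_add q hq _ _ (pf_integrable b k hb B hB hk h1) (pf_integrable b k' hb B hB hk' h1')
    (pf_meas b k hb hk) (pf_meas b k' hb hk')).trans ?_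
  refine (add_le_add (h b hb B hB hP) (h' b hb B hB hP)).trans (le_of_eq ?_)
  rw [← add_mul, ← ENNReal.ofReal_add (by positivity) (by positivity)]
  congr 2
  ring

lemma Bd_smul (P : (ℝ → ℂ) → Prop) (q : ℝ) (hq : 1 ≤ q) (c : ℂ) (k : ℝ → ℂ) (hk : Measurable k)
    (C : ℝ) (h : Bd P q k C) : Bd P q (fun r => c * k r) (‖c‖ * C) := by
  intro b hb B hB hP
  have e : pf b (fun r => c * k r) = fun ξ => c * pf b k ξ := by
    ext ξ
    unfold pf
    ring
  rw [e, LL_smul q hq c _ (pf_meas b k hb hk)]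
  refine (mul_le_mul_right (h b hb B hB hP) _).trans (le_of_eq ?_)
  rw [← ofReal_norm, ← mul_assoc, ← ENNReal.ofReal_mul (norm_nonneg _)]
  congr 2
  ring

lemma Bd_mono (P : (ℝ → ℂ) → Prop) (q : ℝ) (k : ℝ → ℂ) (C C' : ℝ) (hCC : C ≤ C') (h : Bd P q k C) :
    Bd P q k C' := by
  intro b hb B hB hP
  have hB0 : 0 ≤ B := (norm_nonneg _).trans (hB 0)
  refine (h b hb B hB hP).trans ?_
  gcongr

lemma Bd_lim (P : (ℝ → ℂ) → Prop) (q : ℝ) (hq : 1 ≤ q) (k : ℝ → ℂ) (kn : ℕ → ℝ → ℂ) (hk : Measurable k)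
    (hkn : ∀ n, Measurable (kn n)) (h1 : R1 k ≠ ⊤) (h1n : ∀ n, R1 (kn n) ≠ ⊤) (C : ℝ)
    (h : ∀ n, Bd P q (kn n) C)
    (hl : Tendsto (fun n => R1 (fun r => kn n r - k r)) atTop (𝓝 0)) : Bd P q k C := by
  intro b hb B hB hP
  refine LL_lim q hq (pf b k) (fun n => pf b (kn n)) (pf_integrable b k hb B hB hk h1)
    (fun n => pf_integrable b _ hb B hB (hkn n) (h1n n)) (fun n => pf_meas b _ hb (hkn n)) ?_ _
    (fun n => h n b hb B hB hP)
  have e : ∀ n, ∫⁻ ξ, ‖pf b (kn n) ξ - pf b k ξ‖ₑ = N1 b * R1 (fun r => kn n r - k r) := by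
    intro n
    rw [← pf_L1 b (fun r => kn n r - k r) hb ((hkn n).sub hk)]
    apply lintegral_congr
    intro ξ
    congr 1
    unfold pf
    ring
  simp only [e]
  have h2 := ENNReal.Tendsto.const_mul hl (a := N1 b)
    (Or.inr ((N1_le b B hB).trans_lt ENNReal.ofReal_lt_top).ne)
  rwa [mul_zero] at h2

/-- radial windows -/
lemma Bd_win (P : (ℝ → ℂ) → Prop) (q : ℝ) (hq : 1 ≤ q) (k : ℝ → ℂ) (hk : Measurable k) (h1 : R1 k ≠ ⊤) (C : ℝ)
    (h : Bd P q k C) (ψ : ℝ → ℂ) (s : ℝ → ℝ) (hψ : Integrable ψ) (hψm : Measurable ψ) (hs : Measurable s)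
    (M : ℝ) (hM : 0 ≤ M) (hψM : ∫⁻ w, ‖ψ w‖ₑ ≤ ENNReal.ofReal M) :
    Bd P q (fun r => (∫ w, ψ w * ee (-(s w * r ^ 2))) * k r) (M * C) := by
  intro b hb B hB hP
  have e : pf b (fun r => (∫ w, ψ w * ee (-(s w * r ^ 2))) * k r) =
      fun ξ => Wd ψ (fun w => ((0 : ℂ), s w)) ξ * pf b k ξ := by
    ext ξ
    unfold pf Wd
    have : dt (0 : ℂ) ξ = 0 := by unfold dt; simp
    simp only [this, zero_add]
    ring
  rw [e]
  refine (LL_Wd q hq ψ _ hψ hψm (measurable_const.prodMk hs) _ (pf_integrable b k hb B hB hk h1)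
    (pf_meas b k hb hk)).trans ?_
  refine (mul_le_mul' hψM (h b hb B hB hP)).trans (le_of_eq ?_)
  rw [← mul_assoc, ← ENNReal.ofReal_mul hM]
  congr 2
  ring

/-- even angular functions -/
def Pe (b : ℝ → ℂ) : Prop := ∀ θ, b (θ + Real.pi) = b θ

lemma R1_k0 : R1 k0 ≠ ⊤ := by
  have h := k0_rad 1 le_rfl
  simp only [ENNReal.rpow_one] at h
  exact h.ne

lemma Bd_k0 (q : ℝ) (hq : 3 < q) : ∃ C : ℝ, 0 ≤ C ∧ Bd Pe q k0 C := by
  have key : ∀ q : ℝ, 3 < q → q < 4 → ∃ C : ℝ, 0 ≤ C ∧ Bd Pe q k0 C := by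
    intro q hq3 hq4
    obtain ⟨C, hC, h⟩ := base q hq3 hq4
    refine ⟨C ^ (1 / q), by positivity, ?_⟩
    intro b hb B hB hP
    have hB0 : 0 ≤ B := (norm_nonneg _).trans (hB 0)
    have h2 := ENNReal.rpow_le_rpow (h b hb B hB hP) (z := 1 / q) (by positivity)
    rw [ENNReal.mul_rpow_of_nonneg _ _ (by positivity), ENNReal.ofReal_rpow_of_nonneg (by positivity) (by positivity),
      Real.mul_rpow hC (by positivity), ← Real.rpow_mul hB0, mul_one_div_cancel (by linarith), Real.rpow_one] at h2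
    exact h2
  rcases lt_or_ge q 4 with h4 | h4
  · exact key q hq h4
  · obtain ⟨C, hC, h⟩ := key (7 / 2) (by norm_num) (by norm_num)
    refine ⟨_, ?_, Bd_up Pe q (7 / 2) (by norm_num) (by linarith) k0 k0_meas (R1 k0).toReal ENNReal.toReal_nonneg
      (ENNReal.ofReal_toReal R1_k0).symm.le C hC h⟩
    positivity

/-- smooth windows supported in `0 < |ξ|^2 < 3/2` -/
lemma Bd_smooth (u : ℝ → ℂ) (hu : ContDiff ℝ ∞ u) (hsupp : tsupport u ⊆ Ioo 0 (3 / 2)) (hcpt : HasCompactSupport u)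
    (q : ℝ) (hq : 3 < q) : ∃ C : ℝ, 0 ≤ C ∧ Bd Pe q (fun r => u (r ^ 2)) C := by
  obtain ⟨C, hC, h⟩ := Bd_k0 q hq
  -- the quotient
  set g : ℝ → ℂ := fun v => u v / ((Real.sqrt v : ℂ) * g0 v) with hg
  have hgs : ContDiff ℝ ∞ g := by
    rw [contDiff_iff_contDiffAt]
    intro v
    by_cases hv : v ∈ tsupport u
    · have hv1 := hsupp hv
      have h1 : ContDiffAt ℝ ∞ (fun v : ℝ => (Real.sqrt v : ℂ)) v :=
        Complex.ofRealCLM.contDiff.contDiffAt.comp v (Real.contDiffAt_sqrt hv1.1.ne')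
      have h2 : ContDiffAt ℝ ∞ g0 v := g0_smooth.contDiffAt
      have h3 : (Real.sqrt v : ℂ) * g0 v ≠ 0 := by
        apply mul_ne_zero
        · have : Real.sqrt v ≠ 0 := (Real.sqrt_pos.2 hv1.1).ne'
          exact_mod_cast this
        · apply g0_ne
          rw [abs_of_pos hv1.1]
          exact hv1.2.le
      simp only [hg, div_eq_mul_inv]
      exact hu.contDiffAt.mul ((h1.mul h2).inv h3)
    · have h4 : g =ᶠ[𝓝 v] fun _ => 0 := by
        have h5 : u =ᶠ[𝓝 v] 0 := notMem_tsupport_iff_eventuallyEq.1 hv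
        filter_upwards [h5] with y hy
        simp only [hg, hy]
        simp
      exact contDiffAt_const.congr_of_eventuallyEq h4
  have hgc : HasCompactSupport g := by
    apply hcpt.mono
    intro v hv hv0
    apply hv
    simp only [hg]
    rw [show u v = 0 from hv0, zero_div]
  set gS := hgc.toSchwartzMap hgs with hgS
  -- Fourier inversion
  set ψ : ℝ → ℂ := fun w => (FourierTransform.fourierInv gS) w with hψ
  have hψc : Continuous ψ := (FourierTransform.fourierInv gS).continuous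
  have hψi : Integrable ψ := (FourierTransform.fourierInv gS).integrable
  have hinv : ∀ v : ℝ, g v = ∫ w, ψ w * ee (-((2 * Real.pi * w) * v)) := by
    intro v
    have h1 : FourierTransform.fourier (FourierTransform.fourierInv gS) = gS := by simp
    have h2 : g v = (FourierTransform.fourier (FourierTransform.fourierInv gS)) v := by rw [h1]; rfl
    rw [h2, SchwartzMap.fourier_coe, Real.fourier_eq']
    apply integral_congr_ae
    refine Filter.Eventually.of_forall fun w => ?_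
    simp only [smul_eq_mul]
    rw [mul_comm]
    congr 1
    unfold ee
    congr 1
    simp
    ring
  have hk : (fun r : ℝ => (∫ w, ψ w * ee (-((2 * Real.pi * w) * r ^ 2))) * k0 r) =
      fun r => (if 0 < r then u (r ^ 2) else -(u (r ^ 2))) := by
    ext r
    rw [← hinv]
    simp only [hg, k0]
    by_cases h0 : u (r ^ 2) = 0
    · simp [h0]
    · have h1 : r ^ 2 ∈ Ioo 0 (3 / 2) := hsupp (subset_tsupport _ h0)
      have hr : r ≠ 0 := by
        intro h
        rw [h] at h1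
        simp at h1
      have h2 : g0 (r ^ 2) ≠ 0 := by
        apply g0_ne
        rw [abs_of_pos h1.1]
        exact h1.2.le
      rw [Real.sqrt_sq_eq_abs]
      have hr' : (r : ℂ) ≠ 0 := by exact_mod_cast hr
      split_ifs with h3
      · rw [abs_of_pos h3]
        field_simp
      · rw [abs_of_neg (lt_of_le_of_ne (not_lt.1 h3) hr)]
        push_cast
        field_simp
  have hw := Bd_win Pe q (by linarith) k0 k0_meas R1_k0 C h ψ (fun w => 2 * Real.pi * w) hψi hψc.measurable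
    (by fun_prop) (∫⁻ w, ‖ψ w‖ₑ).toReal ENNReal.toReal_nonneg (ENNReal.ofReal_toReal hψi.2.ne).symm.le
  rw [hk] at hw
  refine ⟨(∫⁻ w, ‖ψ w‖ₑ).toReal * C, by positivity, ?_⟩
  intro b hb B hB hP
  have h2 := hw b hb B hB hP
  refine le_trans (le_of_eq ?_) h2
  unfold LL Ext
  congr 1
  apply lintegral_congr
  intro p
  congr 2
  apply integral_congr_ae
  have h3 : ∀ᵐ ξ : ℂ, ξ ≠ 0 := by
    rw [ae_iff]
    simp only [not_not]
    exact measure_singleton (0 : ℂ)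
  filter_upwards [h3] with ξ hξ
  congr 1
  unfold pf
  simp only [if_pos (norm_pos_iff.2 hξ)]

end Pool.Agent.Y250.AN
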