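import Mathlib
import Pool.Agent.Y250.AN.D5
set_option autoImplicit false

/-! Sharp radial cutoffs. -/

namespace Pool.Agent.Y250.AN

open MeasureTheory Set Complex Filter Topology
open scoped ENNReal NNReal ContDiff
open Pool.Agent.W354.LS (tri sinc_ft sinc_fourier_int tri_zero tri_nonneg tri_le_one tri_eq_zero)

/-- Fejer kernel -/
noncomputable def fj (v : ℝ) : ℝ := Real.sinc (Real.pi * v) ^ 2

lemma fj_cont : Continuous fj := by
  unfold fj
  have := Real.continuous_sinc
  fun_prop

lemma fj_int : ∫ v, fj v = 1 := by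
  have h := sinc_ft 0
  rw [tri_zero] at h
  have e : ∀ v : ℝ, Complex.exp (((2 * Real.pi * (0 * v) : ℝ) : ℂ) * Complex.I) *
      ((Real.sinc (Real.pi * v) ^ 2 : ℝ) : ℂ) = ((fj v : ℝ) : ℂ) := by
    intro v
    unfold fj
    simp
  simp only [e] at h
  rw [integral_complex_ofReal] at h
  exact_mod_cast h

lemma fj_integrable : Integrable fj := sinc_fourier_int

lemma Bd_tri (P : (ℝ → ℂ) → Prop) (q : ℝ) (hq : 1 ≤ q) (k : ℝ → ℂ) (hk : Measurable k) (h1 : R1 k ≠ ⊤) (C : ℝ)
    (h : Bd P q k C) (a c : ℝ) : Bd P q (fun r => (tri (c * r ^ 2 + a) : ℂ) * k r) C := by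
  have hw := Bd_win P q hq k hk h1 C h (fun v => (fj v : ℂ) * ee (2 * Real.pi * (a * v)))
    (fun v => -(2 * Real.pi * (c * v))) ?_ ?_ (by fun_prop) 1 zero_le_one ?_
  · rw [one_mul] at hw
    have e : (fun r : ℝ => (∫ w, ((fj w : ℂ) * ee (2 * Real.pi * (a * w))) * ee (-(-(2 * Real.pi * (c * w)) * r ^ 2))) * k r) =
        fun r => (tri (c * r ^ 2 + a) : ℂ) * k r := by
      ext r
      congr 1
      rw [← sinc_ft]
      apply integral_congr_ae
      refine Filter.Eventually.of_forall fun w => ?_
      simp only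
      rw [mul_assoc, ← ee_add, mul_comm]
      unfold fj ee
      congr 3
      push_cast
      ring
    rw [e] at hw
    exact hw
  · refine Integrable.mono' sinc_fourier_int ?_ (Filter.Eventually.of_forall fun v => ?_)
    · have := fj_cont
      have := ee_cont
      apply Continuous.aestronglyMeasurable
      fun_prop
    · rw [norm_mul, norm_ee, mul_one, Complex.norm_real, Real.norm_eq_abs]
      unfold fj
      rw [abs_of_nonneg (sq_nonneg _)]
  · have := fj_cont
    have := ee_cont
    apply Continuous.measurable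
    fun_prop
  · apply le_of_eq
    have e : ∀ v, ‖(fj v : ℂ) * ee (2 * Real.pi * (a * v))‖ₑ = ENNReal.ofReal (fj v) := by
      intro v
      rw [← ofReal_norm, norm_mul, norm_ee, mul_one, Complex.norm_real, Real.norm_eq_abs, abs_of_nonneg]
      unfold fj
      positivity
    simp only [e]
    rw [← ofReal_integral_eq_lintegral_ofReal fj_integrable
      (Filter.Eventually.of_forall fun v => by unfold fj; positivity)]
    congr 1
    exact fj_int

/-- ramp functions -/
noncomputable def ramp (a : ℝ) (n : ℕ) (v : ℝ) : ℝ := max 0 (min 1 ((v - a) * 2 ^ n + 1))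

lemma ramp_succ (a : ℝ) (n : ℕ) (v : ℝ) :
    ramp a (n + 1) v = ramp a n v - 1 / 2 * tri ((v - a) * 2 ^ (n + 1) + 1) := by
  unfold ramp tri
  set u := (v - a) * 2 ^ n with hu
  have e : (v - a) * 2 ^ (n + 1) = 2 * u := by rw [hu, pow_succ]; ring
  rw [e]
  rcases le_total 0 u with h | h
  · rw [min_eq_left (by linarith), min_eq_left (by linarith), abs_of_nonneg (by linarith),
      max_eq_left (by linarith : 1 - (2 * u + 1) ≤ 0)]
    norm_num
  · rw [min_eq_right (by linarith), min_eq_right (by linarith)]
    rcases le_total (-(1 / 2)) u with h2 | h2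
    · rw [abs_of_nonneg (by linarith), max_eq_right (by linarith), max_eq_right (by linarith),
        max_eq_right (by linarith)]
      ring
    · rw [abs_of_nonpos (by linarith), max_eq_left (by linarith : 2 * u + 1 ≤ 0)]
      rcases le_total (-1) u with h3 | h3
      · rw [max_eq_right (by linarith), max_eq_right (by linarith)]
        ring
      · rw [max_eq_left (by linarith), max_eq_left (by linarith)]
        ring

lemma ramp_zero (a : ℝ) (v : ℝ) (hv : v ≤ a + 2) :
    ramp a 0 v = tri (v - a) + tri (v - (a + 1)) + tri (v - (a + 2)) := by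
  unfold ramp tri
  rw [pow_zero, mul_one]
  set w := v - a with hw
  rw [show v - (a + 1) = w - 1 by rw [hw]; ring, show v - (a + 2) = w - 2 by rw [hw]; ring]
  have hw2 : w ≤ 2 := by rw [hw]; linarith
  rw [abs_of_nonpos (by linarith : w - 2 ≤ 0)]
  rcases le_total 0 w with h | h
  · rw [min_eq_left (by linarith), max_eq_right zero_le_one, abs_of_nonneg h]
    rcases le_total 1 w with h1 | h1
    · rw [abs_of_nonneg (by linarith), max_eq_left (by linarith), max_eq_right (by linarith),
        max_eq_right (by linarith)]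
      ring
    · rw [abs_of_nonpos (by linarith), max_eq_right (by linarith), max_eq_right (by linarith),
        max_eq_left (by linarith)]
      ring
  · rw [min_eq_right (by linarith), abs_of_nonpos h, abs_of_nonpos (by linarith),
      max_eq_left (by linarith : 1 - -(w - 1) ≤ 0), max_eq_left (by linarith : 1 - -(w - 2) ≤ 0)]
    rcases le_total (-1) w with h1 | h1
    · rw [max_eq_right (by linarith), max_eq_right (by linarith)]
      ring
    · rw [max_eq_left (by linarith), max_eq_left (by linarith)]
      ring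

lemma ramp_meas (a : ℝ) (n : ℕ) : Continuous (ramp a n) := by
  unfold ramp
  fun_prop

lemma ramp_mem (a : ℝ) (n : ℕ) (v : ℝ) : 0 ≤ ramp a n v ∧ ramp a n v ≤ 1 :=
  ⟨le_max_left _ _, max_le zero_le_one (min_le_left _ _)⟩

/-- measure of radial shells -/
lemma shell (c h M : ℝ) (hM : 0 ≤ M) (k : ℝ → ℂ) (hkM : ∀ r, ‖k r‖ ≤ M)
    (hk0 : ∀ r : ℝ, r ^ 2 ∉ Icc (c - h) (c + h) → k r = 0) : R1 k ≤ ENNReal.ofReal (M * h) := by
  unfold R1
  -- change of variables v = r^2
  have h1 := lintegral_image_eq_lintegral_abs_deriv_mul (s := Ioi (0 : ℝ)) (f := fun r : ℝ => r ^ 2)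
    (f' := fun r : ℝ => 2 * r) measurableSet_Ioi
    (fun r _ => by
      have := (hasDerivAt_pow 2 r).hasDerivWithinAt (s := Ioi (0 : ℝ))
      simpa using this)
    (fun r hr s hs h => by
      have hr' : 0 < r := hr
      have hs' : 0 < s := hs
      exact (pow_left_inj₀ hr'.le hs'.le (by norm_num)).1 h)
    (fun v => (Icc (c - h) (c + h)).indicator (fun _ => ENNReal.ofReal (M / 2)) v)
  calc ∫⁻ r in Ioi (0 : ℝ), ENNReal.ofReal r * ‖k r‖ₑ
      ≤ ∫⁻ r in Ioi (0 : ℝ), ENNReal.ofReal |2 * r| *
          (Icc (c - h) (c + h)).indicator (fun _ => ENNReal.ofReal (M / 2)) (r ^ 2) := by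
        apply setLIntegral_mono' measurableSet_Ioi
        intro r hr
        have hr' : 0 < r := hr
        by_cases hv : r ^ 2 ∈ Icc (c - h) (c + h)
        · rw [indicator_of_mem hv, abs_of_pos (by linarith), ← ofReal_norm,
            ← ENNReal.ofReal_mul hr'.le, ← ENNReal.ofReal_mul (by linarith)]
          apply ENNReal.ofReal_le_ofReal
          have := hkM r
          nlinarith
        · rw [hk0 r hv]
          simp
    _ = ∫⁻ v in (fun r : ℝ => r ^ 2) '' Ioi (0 : ℝ),
          (Icc (c - h) (c + h)).indicator (fun _ => ENNReal.ofReal (M / 2)) v := h1.symm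
    _ ≤ ∫⁻ v, (Icc (c - h) (c + h)).indicator (fun _ => ENNReal.ofReal (M / 2)) v :=
        setLIntegral_le_lintegral _ _
    _ = _ := by
        rw [lintegral_indicator measurableSet_Icc, setLIntegral_const, Real.volume_Icc,
          ← ENNReal.ofReal_mul (by positivity)]
        congr 1
        ring

end Pool.Agent.Y250.AN
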