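import Mathlib
import Pool.Agent.Y250.AN.D6
set_option autoImplicit false

/-! Sharp radial cutoffs, end. -/

namespace Pool.Agent.Y250.AN

open MeasureTheory Set Complex Filter Topology
open scoped ENNReal NNReal ContDiff
open Pool.Agent.W354.LS (tri sinc_ft sinc_fourier_int tri_zero tri_nonneg tri_le_one tri_eq_zero)

lemma tri_cont : Continuous tri := by
  unfold tri
  fun_prop

lemma tri_norm (x : ℝ) (z : ℂ) : ‖(tri x : ℂ) * z‖ ≤ ‖z‖ := by
  rw [norm_mul, Complex.norm_real, Real.norm_eq_abs, abs_of_nonneg (tri_nonneg x)]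
  exact mul_le_of_le_one_left (norm_nonneg _) (tri_le_one x)

lemma R1_mono (k k' : ℝ → ℂ) (h : ∀ r, ‖k r‖ ≤ ‖k' r‖) : R1 k ≤ R1 k' := by
  unfold R1
  apply lintegral_mono
  intro r
  exact mul_le_mul_right (enorm_mono (h r)) _

theorem Bd_cut (P : (ℝ → ℂ) → Prop) (k : ℝ → ℂ) (hk : Measurable k) (M : ℝ) (hkM : ∀ r, ‖k r‖ ≤ M)
    (hk0 : ∀ r : ℝ, r ^ 2 ∉ Icc 0 2 → k r = 0) (h : ∀ q, 3 < q → ∃ C : ℝ, 0 ≤ C ∧ Bd P q k C)
    (q : ℝ) (hq : 3 < q) : ∃ C : ℝ, 0 ≤ C ∧ ∀ a : ℝ, 0 ≤ a → Bd P q (fun r => if a ≤ r ^ 2 then k r else 0) C := by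
  have hM : 0 ≤ M := (norm_nonneg _).trans (hkM 0)
  set q' := (3 + q) / 2 with hq'
  have hq'3 : 3 < q' := by rw [hq']; linarith
  have hq'q : q' < q := by rw [hq']; linarith
  obtain ⟨C0, hC0, h0⟩ := h q hq
  obtain ⟨C', hC', h'⟩ := h q' hq'3
  set κ := 1 - q' / q with hκ
  have hκ0 : 0 < κ := by rw [hκ, sub_pos, div_lt_one (by linarith)]; exact hq'q
  have hR : R1 k ≠ ⊤ := by
    have := shell 1 1 M hM k hkM (fun r hr => hk0 r (by norm_num at hr ⊢; exact hr))
    exact (this.trans_lt ENNReal.ofReal_lt_top).ne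
  set D := M ^ κ * C' ^ (q' / q) * (2 * Real.pi) ^ κ with hD
  have hD0 : 0 ≤ D := by positivity
  set ρ : ℝ := (1 / 2) ^ κ with hρ
  have hρ0 : 0 < ρ := by positivity
  have hρ1 : ρ < 1 := Real.rpow_lt_one (by norm_num) (by norm_num) hκ0
  refine ⟨3 * C0 + 1 / 2 * (D * (1 / (1 - ρ))), ?_, ?_⟩
  · have : 0 < 1 - ρ := by linarith
    positivity
  intro a ha
  -- the pieces
  have hmt : ∀ c d : ℝ, Measurable fun r : ℝ => (tri (c * r ^ 2 + d) : ℂ) * k r := by
    intro c d
    have h1 : Continuous fun r : ℝ => (tri (c * r ^ 2 + d) : ℂ) := by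
      have := tri_cont
      fun_prop
    exact h1.measurable.mul hk
  have hRt : ∀ c d : ℝ, R1 (fun r : ℝ => (tri (c * r ^ 2 + d) : ℂ) * k r) ≠ ⊤ := fun c d =>
    ((R1_mono _ k fun r => tri_norm _ _).trans_lt hR.lt_top).ne
  have hpiece : ∀ j : ℕ, Bd P q (fun r => (tri (2 ^ (j + 1) * r ^ 2 + (1 - a * 2 ^ (j + 1))) : ℂ) * k r)
      (D * ρ ^ (j + 1)) := by
    intro j
    have b1 := Bd_tri P q' (by linarith) k hk hR C' h' (1 - a * 2 ^ (j + 1)) (2 ^ (j + 1))
    have b2 : R1 (fun r : ℝ => (tri (2 ^ (j + 1) * r ^ 2 + (1 - a * 2 ^ (j + 1))) : ℂ) * k r) ≤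
        ENNReal.ofReal (M * (1 / 2) ^ (j + 1)) := by
      apply shell (a - (1 / 2) ^ (j + 1)) ((1 / 2) ^ (j + 1)) M hM
      · intro r
        exact (tri_norm _ _).trans (hkM r)
      · intro r hr
        have : tri (2 ^ (j + 1) * r ^ 2 + (1 - a * 2 ^ (j + 1))) = 0 := by
          apply tri_eq_zero
          by_contra hlt
          push Not at hlt
          rw [abs_lt] at hlt
          apply hr
          have e1 : (1 / 2 : ℝ) ^ (j + 1) * 2 ^ (j + 1) = 1 := by
            rw [← mul_pow]; norm_num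
          have e2 : (0 : ℝ) < 2 ^ (j + 1) := by positivity
          constructor
          · by_contra hc
            push Not at hc
            have : r ^ 2 * 2 ^ (j + 1) < (a - (1 / 2) ^ (j + 1) - (1 / 2) ^ (j + 1)) * 2 ^ (j + 1) := by
              gcongr
            nlinarith [hlt.1]
          · by_contra hc
            push Not at hc
            have : (a - (1 / 2) ^ (j + 1) + (1 / 2) ^ (j + 1)) * 2 ^ (j + 1) < r ^ 2 * 2 ^ (j + 1) := by
              gcongr
            nlinarith [hlt.2]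
        rw [this]
        simp
    have b3 := Bd_up P q q' (by linarith) hq'q.le _ (hmt _ _) (M * (1 / 2) ^ (j + 1)) (by positivity) b2 C' hC' b1
    refine Bd_mono P q _ _ _ (le_of_eq ?_) b3
    have e3 : (M * (1 / 2) ^ (j + 1)) ^ κ = M ^ κ * ρ ^ (j + 1) := by
      rw [Real.mul_rpow hM (by positivity), hρ, ← Real.rpow_natCast, ← Real.rpow_mul (by norm_num),
        ← Real.rpow_natCast, ← Real.rpow_mul (by norm_num), mul_comm κ]
    rw [e3, hD]
    ring
  have hrm : ∀ n : ℕ, Measurable fun r : ℝ => (ramp a n (r ^ 2) : ℂ) * k r := by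
    intro n
    have h1 : Continuous fun r : ℝ => (ramp a n (r ^ 2) : ℂ) := by
      have := ramp_meas a n
      fun_prop
    exact h1.measurable.mul hk
  have hrn : ∀ (n : ℕ) (r : ℝ), ‖(ramp a n (r ^ 2) : ℂ) * k r‖ ≤ ‖k r‖ := by
    intro n r
    rw [norm_mul, Complex.norm_real, Real.norm_eq_abs, abs_of_nonneg (ramp_mem a n _).1]
    exact mul_le_of_le_one_left (norm_nonneg _) (ramp_mem a n _).2
  have hRr : ∀ n : ℕ, R1 (fun r : ℝ => (ramp a n (r ^ 2) : ℂ) * k r) ≠ ⊤ := fun n =>
    ((R1_mono _ k fun r => hrn n r).trans_lt hR.lt_top).ne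
  have hind : ∀ n : ℕ, Bd P q (fun r => (ramp a n (r ^ 2) : ℂ) * k r)
      (3 * C0 + 1 / 2 * (D * ∑ j ∈ Finset.range n, ρ ^ (j + 1))) := by
    intro n
    induction n with
    | zero =>
      have b0 := Bd_tri P q (by linarith) k hk hR C0 h0 (-a) 1
      have b1 := Bd_tri P q (by linarith) k hk hR C0 h0 (-(a + 1)) 1
      have b2 := Bd_tri P q (by linarith) k hk hR C0 h0 (-(a + 2)) 1
      have b01 := Bd_add P q (by linarith) _ _ (hmt _ _) (hmt _ _) (hRt _ _) (hRt _ _) C0 C0 hC0 hC0 b0 b1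
      have hRt01 : R1 (fun r : ℝ => (tri (1 * r ^ 2 + -a) : ℂ) * k r + (tri (1 * r ^ 2 + -(a + 1)) : ℂ) * k r) ≠ ⊤ := by
        unfold R1
        have hle : ∀ r : ℝ, ENNReal.ofReal r * ‖(tri (1 * r ^ 2 + -a) : ℂ) * k r + (tri (1 * r ^ 2 + -(a + 1)) : ℂ) * k r‖ₑ ≤
            ENNReal.ofReal r * ‖k r‖ₑ + ENNReal.ofReal r * ‖k r‖ₑ := by
          intro r
          rw [← mul_add]
          refine mul_le_mul_right ((enorm_add_le _ _).trans (add_le_add ?_ ?_)) _
          · exact enorm_mono (tri_norm _ _)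
          · exact enorm_mono (tri_norm _ _)
        refine ((lintegral_mono hle).trans_lt ?_).ne
        rw [lintegral_add_left (by fun_prop)]
        exact ENNReal.add_lt_top.2 ⟨hR.lt_top, hR.lt_top⟩
      have b012 := Bd_add P q (by linarith) _ _ ((hmt _ _).add (hmt _ _)) (hmt _ _) hRt01 (hRt _ _)
        (C0 + C0) C0 (by positivity) hC0 b01 b2
      have e : (fun r => (ramp a 0 (r ^ 2) : ℂ) * k r) = fun r : ℝ => ((tri (1 * r ^ 2 + -a) : ℂ) * k r +
          (tri (1 * r ^ 2 + -(a + 1)) : ℂ) * k r) + (tri (1 * r ^ 2 + -(a + 2)) : ℂ) * k r := by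
        ext r
        by_cases hr : r ^ 2 ∈ Icc 0 2
        · rw [ramp_zero a (r ^ 2) (by linarith [hr.2])]
          rw [show (1 : ℝ) * r ^ 2 + -a = r ^ 2 - a by ring, show (1 : ℝ) * r ^ 2 + -(a + 1) = r ^ 2 - (a + 1) by ring,
            show (1 : ℝ) * r ^ 2 + -(a + 2) = r ^ 2 - (a + 2) by ring]
          push_cast
          ring
        · rw [hk0 r hr]
          simp
      rw [e]
      refine Bd_mono P q _ _ _ ?_ b012
      simp
      linarith
    | succ n ih =>
      have b1 := Bd_smul P q (by linarith) (-(1 / 2)) _ (hmt _ _) _ (hpiece n)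
      have hRs : R1 (fun r : ℝ => (-(1 / 2) : ℂ) * ((tri (2 ^ (n + 1) * r ^ 2 + (1 - a * 2 ^ (n + 1))) : ℂ) * k r)) ≠ ⊤ := by
        refine ((R1_mono _ k fun r => ?_).trans_lt hR.lt_top).ne
        rw [norm_mul]
        have e : ‖(-(1 / 2) : ℂ)‖ = 1 / 2 := by simp
        rw [e]
        have := tri_norm (2 ^ (n + 1) * r ^ 2 + (1 - a * 2 ^ (n + 1))) (k r)
        have h0 := norm_nonneg (k r)
        linarith
      have b2 := Bd_add P q (by linarith) _ _ (hrm n) ((hmt _ _).const_mul _) (hRr n) hRs _ _ ?_ ?_ ih b1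
      · have e : (fun r => (ramp a (n + 1) (r ^ 2) : ℂ) * k r) = fun r : ℝ => (ramp a n (r ^ 2) : ℂ) * k r +
            (-(1 / 2) : ℂ) * ((tri (2 ^ (n + 1) * r ^ 2 + (1 - a * 2 ^ (n + 1))) : ℂ) * k r) := by
          ext r
          rw [ramp_succ, show (r ^ 2 - a) * 2 ^ (n + 1) + 1 = 2 ^ (n + 1) * r ^ 2 + (1 - a * 2 ^ (n + 1)) by ring]
          push_cast
          ring
        rw [e]
        refine Bd_mono P q _ _ _ (le_of_eq ?_) b2
        have e : ‖(-(1 / 2) : ℂ)‖ = 1 / 2 := by simp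
        rw [e, Finset.sum_range_succ]
        ring
      · positivity
      · positivity
  have hsum : ∀ n : ℕ, ∑ j ∈ Finset.range n, ρ ^ (j + 1) ≤ 1 / (1 - ρ) := by
    intro n
    calc ∑ j ∈ Finset.range n, ρ ^ (j + 1) ≤ ∑ j ∈ Finset.range n, ρ ^ j := by
          apply Finset.sum_le_sum
          intro j _
          rw [pow_succ]
          exact mul_le_of_le_one_right (by positivity) hρ1.le
      _ ≤ ∑' j : ℕ, ρ ^ j := Summable.sum_le_tsum _ (fun j _ => by positivity)
          (summable_geometric_of_lt_one hρ0.le hρ1)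
      _ = _ := by rw [tsum_geometric_of_lt_one hρ0.le hρ1, one_div]
  have hmc : Measurable fun r : ℝ => if a ≤ r ^ 2 then k r else 0 :=
    Measurable.ite (measurableSet_le measurable_const (by fun_prop)) hk measurable_const
  refine Bd_lim P q (by linarith) _ (fun n r => (ramp a n (r ^ 2) : ℂ) * k r) hmc hrm ?_ hRr _
    (fun n => Bd_mono P q _ _ _ ?_ (hind n)) ?_
  · refine ((R1_mono _ k fun r => ?_).trans_lt hR.lt_top).ne
    split_ifs
    · exact le_rfl
    · simp
  · have := hsum n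
    gcongr
  · have hb : ∀ n : ℕ, R1 (fun r : ℝ => (ramp a n (r ^ 2) : ℂ) * k r - if a ≤ r ^ 2 then k r else 0) ≤
        ENNReal.ofReal (M * (1 / 2) ^ n) := by
      intro n
      have hle : ENNReal.ofReal (M * ((1 / 2) ^ n / 2)) ≤ ENNReal.ofReal (M * (1 / 2) ^ n) := by
        apply ENNReal.ofReal_le_ofReal
        have : (0 : ℝ) ≤ (1 / 2) ^ n := by positivity
        gcongr
        linarith
      refine le_trans (shell (a - (1 / 2) ^ n / 2) ((1 / 2) ^ n / 2) M hM _ ?_ ?_) hle
      · intro r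
        have h1 : ‖(ramp a n (r ^ 2) : ℂ) * k r - if a ≤ r ^ 2 then k r else 0‖ ≤ ‖k r‖ := by
          split_ifs with hr
          · have e : (ramp a n (r ^ 2) : ℂ) * k r - k r = -(((1 - ramp a n (r ^ 2) : ℝ) : ℂ) * k r) := by
              push_cast; ring
            rw [e, norm_neg, norm_mul, Complex.norm_real, Real.norm_eq_abs, abs_of_nonneg (by
              have := (ramp_mem a n (r ^ 2)).2; linarith)]
            apply mul_le_of_le_one_left (norm_nonneg _)
            have := (ramp_mem a n (r ^ 2)).1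
            linarith
          · rw [sub_zero]
            exact hrn n r
        exact h1.trans (hkM r)
      · intro r hr
        have e1 : (1 / 2 : ℝ) ^ n * 2 ^ n = 1 := by
          rw [← mul_pow]; norm_num
        have e2 : (0 : ℝ) < 2 ^ n := by positivity
        split_ifs with hr2
        · have hgt : a ≤ r ^ 2 := hr2
          have : ramp a n (r ^ 2) = 1 := by
            unfold ramp
            rw [min_eq_left, max_eq_right zero_le_one]
            have : 0 ≤ (r ^ 2 - a) * 2 ^ n := mul_nonneg (by linarith) e2.le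
            linarith
          rw [this]
          simp
        · push Not at hr2
          have hlt : r ^ 2 < a - (1 / 2) ^ n := by
            by_contra hc
            push Not at hc
            exact hr ⟨by linarith, by linarith⟩
          have : ramp a n (r ^ 2) = 0 := by
            unfold ramp
            apply max_eq_left
            refine (min_le_right _ _).trans ?_
            have : (r ^ 2 - a) * 2 ^ n < (-(1 / 2) ^ n) * 2 ^ n := by
              gcongr
              linarith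
            nlinarith
          rw [this]
          simp
    refine tendsto_of_tendsto_of_tendsto_of_le_of_le tendsto_const_nhds ?_ (fun n => zero_le) hb
    have h3 : Tendsto (fun n : ℕ => M * (1 / 2 : ℝ) ^ n) atTop (𝓝 0) := by
      have := (tendsto_pow_atTop_nhds_zero_of_lt_one (by norm_num : (0 : ℝ) ≤ 1 / 2) (by norm_num)).const_mul M
      simpa using this
    have h4 := ENNReal.tendsto_ofReal h3
    simpa using h4

end Pool.Agent.Y250.AN
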