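import Mathlib
import Pool.Agent.Y250.AN.D8
set_option autoImplicit false

/-! The annulus: all angular functions. -/

namespace Pool.Agent.Y250.AN

open MeasureTheory Set Complex Filter Topology
open scoped ENNReal NNReal ContDiff
open Pool.Agent.W354.LS (tri sinc_ft sinc_fourier_int tri_zero tri_nonneg tri_le_one tri_eq_zero)

/-- multiplication by a triangle function of a coordinate -/
lemma LL_tri (q : ℝ) (hq : 1 ≤ q) (e : ℂ) (a c : ℝ) (F : ℂ → ℂ) (hF : Integrable F) (hFm : Measurable F) :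
    LL q (fun ξ => (tri (c * dt e ξ + a) : ℂ) * F ξ) ≤ LL q F := by
  have h := LL_Wd q hq (fun v => (fj v : ℂ) * ee (2 * Real.pi * (a * v)))
    (fun v => (((-(2 * Real.pi * (c * v)) : ℝ) : ℂ) * e, (0 : ℝ))) ?_ ?_ (by fun_prop) F hF hFm
  · have e1 : (fun ξ : ℂ => Wd (fun v => (fj v : ℂ) * ee (2 * Real.pi * (a * v)))
        (fun v => (((-(2 * Real.pi * (c * v)) : ℝ) : ℂ) * e, (0 : ℝ))) ξ * F ξ) =
        fun ξ => (tri (c * dt e ξ + a) : ℂ) * F ξ := by
      ext ξ
      congr 1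
      unfold Wd
      rw [← sinc_ft]
      apply integral_congr_ae
      refine Filter.Eventually.of_forall fun w => ?_
      simp only
      have e2 : dt (((-(2 * Real.pi * (c * w)) : ℝ) : ℂ) * e) ξ = -(2 * Real.pi * (c * w)) * dt e ξ := by
        unfold dt
        rw [Complex.re_ofReal_mul, Complex.im_ofReal_mul]
        ring
      rw [e2, zero_mul, add_zero, mul_assoc, ← ee_add, mul_comm]
      unfold fj ee
      congr 3
      push_cast
      ring
    rw [e1] at h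
    refine h.trans (le_of_eq ?_)
    have e3 : ∀ v, ‖(fj v : ℂ) * ee (2 * Real.pi * (a * v))‖ₑ = ENNReal.ofReal (fj v) := by
      intro v
      rw [← ofReal_norm, norm_mul, norm_ee, mul_one, Complex.norm_real, Real.norm_eq_abs, abs_of_nonneg]
      unfold fj
      positivity
    simp only [e3]
    rw [← ofReal_integral_eq_lintegral_ofReal fj_integrable
      (Filter.Eventually.of_forall fun v => by unfold fj; positivity), fj_int, ENNReal.ofReal_one, one_mul]
  · refine Integrable.mono' sinc_fourier_int ?_ (Filter.Eventually.of_forall fun v => ?_)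
    · have := fj_cont
      have := ee_cont
      apply Continuous.aestronglyMeasurable
      fun_prop
    · rw [norm_mul, norm_ee, mul_one, Complex.norm_real, Real.norm_eq_abs]
      unfold fj
      rw [abs_of_nonneg (sq_nonneg _)]
  · have := fj_cont
    have := ee_cont
    apply Continuous.measurable
    fun_prop

lemma tri_lin (x : ℝ) (hx : |x| ≤ 1) : tri (1 / 2 * x + -(1 / 2)) - tri (1 / 2 * x + 1 / 2) = x := by
  have h := abs_le.1 hx
  unfold tri
  rw [abs_of_nonpos (by linarith), abs_of_nonneg (by linarith), max_eq_right (by linarith),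
    max_eq_right (by linarith)]
  ring

lemma LL_coord (q : ℝ) (hq : 1 ≤ q) (e : ℂ) (F : ℂ → ℂ) (hF : Integrable F) (hFm : Measurable F)
    (hs : ∀ ξ, F ξ ≠ 0 → |dt e ξ| ≤ 1) : LL q (fun ξ => (dt e ξ : ℂ) * F ξ) ≤ 2 * LL q F := by
  have e1 : (fun ξ => (dt e ξ : ℂ) * F ξ) = fun ξ => (tri (1 / 2 * dt e ξ + -(1 / 2)) : ℂ) * F ξ +
      (-1 : ℂ) * ((tri (1 / 2 * dt e ξ + 1 / 2) : ℂ) * F ξ) := by
    ext ξ
    by_cases h : F ξ = 0
    · simp [h]
    · have h2 := tri_lin (dt e ξ) (hs ξ h)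
      nth_rewrite 1 [← h2]
      push_cast
      ring
  have hc : ∀ a : ℝ, Continuous fun ξ : ℂ => (tri (1 / 2 * dt e ξ + a) : ℂ) := by
    intro a
    have h4 : Continuous fun ξ : ℂ => dt e ξ := dt_cont.comp (continuous_const.prodMk continuous_id)
    have := tri_cont
    fun_prop
  have hi : ∀ a : ℝ, Integrable fun ξ : ℂ => (tri (1 / 2 * dt e ξ + a) : ℂ) * F ξ := by
    intro a
    exact hF.norm.mono' ((hc a).aestronglyMeasurable.mul hF.1) (Filter.Eventually.of_forall fun ξ => tri_norm _ _)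
  rw [e1]
  refine (LL_add q hq _ _ (hi _) ((hi _).const_mul _) ((hc _).measurable.mul hFm)
    (((hc _).measurable.mul hFm).const_mul _)).trans ?_
  have hm3 : Measurable fun ξ : ℂ => (tri (1 / 2 * dt e ξ + 1 / 2) : ℂ) * F ξ := (hc _).measurable.mul hFm
  rw [LL_smul q hq _ _ hm3, two_mul]
  refine add_le_add (LL_tri q hq e _ _ F hF hFm) ?_
  rw [enorm_neg, enorm_one, one_mul]
  exact LL_tri q hq e _ _ F hF hFm

/-- odd angular functions -/
def Po (b : ℝ → ℂ) : Prop := ∀ θ, b (θ + Real.pi) = -b θ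
/-- periodic angular functions -/
def Pp (b : ℝ → ℂ) : Prop := ∀ θ, b (θ + 2 * Real.pi) = b θ

lemma ann_set : MeasurableSet {a : ℝ | 1 / 4 ≤ a ^ 2 ∧ a ^ 2 < 1} := by
  have h1 : MeasurableSet {a : ℝ | 1 / 4 ≤ a ^ 2} := measurableSet_le measurable_const (by fun_prop)
  have h2 : MeasurableSet {a : ℝ | a ^ 2 < 1} := measurableSet_lt (by fun_prop) measurable_const
  exact h1.inter h2

lemma kA_meas : Measurable kA := by
  unfold kA
  exact Measurable.ite ann_set measurable_const measurable_const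

lemma kB_meas : Measurable kB := by
  unfold kB
  exact Measurable.ite ann_set (by fun_prop) measurable_const

lemma kA_norm (r : ℝ) : ‖kA r‖ ≤ 1 := by
  unfold kA
  split_ifs <;> simp

lemma kB_norm (r : ℝ) : ‖kB r‖ ≤ 2 := by
  unfold kB
  split_ifs with h
  · rw [Complex.norm_real, Real.norm_eq_abs, abs_inv, abs_abs]
    have h1 : 1 / 2 ≤ |r| := by
      have h2 : (1 / 2 : ℝ) ^ 2 ≤ |r| ^ 2 := by rw [sq_abs]; linarith [h.1]
      exact (abs_le_of_sq_le_sq' h2 (abs_nonneg r)).2 |> fun h => by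
        have := abs_le_of_sq_le_sq h2 (abs_nonneg r)
        linarith [this, le_abs_self (1/2 : ℝ)]
    rw [inv_le_comm₀ (by linarith) (by norm_num)]
    linarith
  · simp

lemma R1_kA : R1 kA ≠ ⊤ := by
  have := shell 1 1 1 zero_le_one kA kA_norm (fun r hr => by
    unfold kA
    rw [if_neg]
    intro h
    exact hr ⟨by linarith [h.1], by linarith [h.2]⟩)
  exact (this.trans_lt ENNReal.ofReal_lt_top).ne

lemma R1_kB : R1 kB ≠ ⊤ := by
  have := shell 1 1 2 zero_le_two kB kB_norm (fun r hr => by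
    unfold kB
    rw [if_neg]
    intro h
    exact hr ⟨by linarith [h.1], by linarith [h.2]⟩)
  exact (this.trans_lt ENNReal.ofReal_lt_top).ne

/-- `b cos` -/
noncomputable def b1 (b : ℝ → ℂ) (θ : ℝ) : ℂ := b θ * (Real.cos θ : ℂ)
/-- `b sin` -/
noncomputable def b2 (b : ℝ → ℂ) (θ : ℝ) : ℂ := b θ * (Real.sin θ : ℂ)

lemma b1_meas (b : ℝ → ℂ) (hb : Measurable b) : Measurable (b1 b) := by
  unfold b1; fun_prop

lemma b2_meas (b : ℝ → ℂ) (hb : Measurable b) : Measurable (b2 b) := by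
  unfold b2; fun_prop

lemma b1_le (b : ℝ → ℂ) (θ : ℝ) : ‖b1 b θ‖ ≤ ‖b θ‖ := by
  unfold b1
  rw [norm_mul, Complex.norm_real, Real.norm_eq_abs]
  exact mul_le_of_le_one_right (norm_nonneg _) (Real.abs_cos_le_one _)

lemma b2_le (b : ℝ → ℂ) (θ : ℝ) : ‖b2 b θ‖ ≤ ‖b θ‖ := by
  unfold b2
  rw [norm_mul, Complex.norm_real, Real.norm_eq_abs]
  exact mul_le_of_le_one_right (norm_nonneg _) (Real.abs_sin_le_one _)

lemma Am_mono (b b' : ℝ → ℂ) (h : ∀ θ, b θ ≠ 0 → b' θ ≠ 0) : Am b ≤ Am b' := by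
  unfold Am
  apply measure_mono
  intro θ hθ
  exact ⟨hθ.1, h θ hθ.2⟩

lemma pf_kB_supp (b : ℝ → ℂ) (ξ : ℂ) (h : pf b kB ξ ≠ 0) : ‖ξ‖ ≤ 1 := by
  by_contra hc
  push Not at hc
  apply h
  unfold pf kB
  rw [if_neg, mul_zero]
  intro h2
  nlinarith [h2.2]

lemma kA_decomp (b : ℝ → ℂ) (ξ : ℂ) : pf b kA ξ = (dt 1 ξ : ℂ) * pf (b1 b) kB ξ + (dt I ξ : ℂ) * pf (b2 b) kB ξ := by
  have e1 : dt 1 ξ = ξ.re := by unfold dt; simp
  have e2 : dt I ξ = ξ.im := by unfold dt; simp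
  rw [e1, e2]
  unfold pf kA kB b1 b2
  split_ifs with h
  · have hn : ‖ξ‖ ≠ 0 := by
      intro h0
      rw [h0] at h
      norm_num at h
    have hn' : (‖ξ‖ : ℂ) ≠ 0 := by exact_mod_cast hn
    have c1 : ξ.re = ‖ξ‖ * Real.cos (arg ξ) := (Complex.norm_mul_cos_arg ξ).symm
    have c2 : ξ.im = ‖ξ‖ * Real.sin (arg ξ) := (Complex.norm_mul_sin_arg ξ).symm
    have c3 : (Real.sin (arg ξ) : ℂ) ^ 2 + (Real.cos (arg ξ) : ℂ) ^ 2 = 1 := by
      have := Real.sin_sq_add_cos_sq (arg ξ)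
      exact_mod_cast this
    rw [abs_norm]
    generalize arg ξ = α at *
    rw [c1, c2]
    push_cast at c3 ⊢
    field_simp
    linear_combination (-(b α)) * c3
  · ring

lemma Bd_kA_odd (q : ℝ) (hq : 3 < q) : ∃ C : ℝ, 0 ≤ C ∧ Bd Po q kA C := by
  obtain ⟨C, hC, h⟩ := Bd_kB q hq
  refine ⟨4 * C, by positivity, ?_⟩
  intro b hb B hB hP
  have hB0 : 0 ≤ B := (norm_nonneg _).trans (hB 0)
  have hq1 : 1 ≤ q := by linarith
  have hb1 := b1_meas b hb
  have hb2 := b2_meas b hb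
  have p1 : Pe (b1 b) := by
    intro θ
    unfold b1
    rw [hP, Real.cos_add_pi]
    push_cast
    ring
  have p2 : Pe (b2 b) := by
    intro θ
    unfold b2
    rw [hP, Real.sin_add_pi]
    push_cast
    ring
  have i1 := pf_integrable (b1 b) kB hb1 B (fun θ => (b1_le b θ).trans (hB θ)) kB_meas R1_kB
  have i2 := pf_integrable (b2 b) kB hb2 B (fun θ => (b2_le b θ).trans (hB θ)) kB_meas R1_kB
  have m1 := pf_meas (b1 b) kB hb1 kB_meas
  have m2 := pf_meas (b2 b) kB hb2 kB_meas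
  have hs : ∀ (b' : ℝ → ℂ) (e : ℂ), ‖e‖ = 1 → ∀ ξ, pf b' kB ξ ≠ 0 → |dt e ξ| ≤ 1 := by
    intro b' e he ξ hξ
    refine (dt_abs_le e ξ).trans ?_
    rw [he, one_mul]
    exact pf_kB_supp b' ξ hξ
  have l1 := LL_coord q hq1 1 _ i1 m1 (hs _ 1 (by simp))
  have l2 := LL_coord q hq1 I _ i2 m2 (hs _ I (by simp))
  have hdc : ∀ e : ℂ, Continuous fun ξ : ℂ => (dt e ξ : ℂ) := by
    intro e
    have h4 : Continuous fun ξ : ℂ => dt e ξ := dt_cont.comp (continuous_const.prodMk continuous_id)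
    fun_prop
  have hdi : ∀ (b' : ℝ → ℂ) (e : ℂ), ‖e‖ = 1 → Integrable (pf b' kB) → Integrable fun ξ => (dt e ξ : ℂ) * pf b' kB ξ := by
    intro b' e he hi
    refine hi.norm.mono' ((hdc e).aestronglyMeasurable.mul hi.1) (Filter.Eventually.of_forall fun ξ => ?_)
    rw [norm_mul, Complex.norm_real, Real.norm_eq_abs]
    by_cases h0 : pf b' kB ξ = 0
    · simp [h0]
    · exact mul_le_of_le_one_left (norm_nonneg _) (hs b' e he ξ h0)
  have e : pf b kA = fun ξ => (dt 1 ξ : ℂ) * pf (b1 b) kB ξ + (dt I ξ : ℂ) * pf (b2 b) kB ξ := by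
    ext ξ
    exact kA_decomp b ξ
  rw [e]
  refine (LL_add q hq1 _ _ (hdi _ 1 (by simp) i1) (hdi _ I (by simp) i2) ((hdc 1).measurable.mul m1)
    ((hdc I).measurable.mul m2)).trans ?_
  have a1 : Am (b1 b) ≤ Am b := Am_mono _ _ (fun θ h h0 => h (by unfold b1; rw [h0, zero_mul]))
  have a2 : Am (b2 b) ≤ Am b := Am_mono _ _ (fun θ h h0 => h (by unfold b2; rw [h0, zero_mul]))
  have g1 := h (b1 b) hb1 B (fun θ => (b1_le b θ).trans (hB θ)) p1
  have g2 := h (b2 b) hb2 B (fun θ => (b2_le b θ).trans (hB θ)) p2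
  have hq' : (0 : ℝ) ≤ 1 / q := by positivity
  calc _ ≤ 2 * (ENNReal.ofReal (C * B) * Am b ^ (1 / q)) + 2 * (ENNReal.ofReal (C * B) * Am b ^ (1 / q)) := by
        refine add_le_add (l1.trans (mul_le_mul_right ?_ _)) (l2.trans (mul_le_mul_right ?_ _))
        · exact g1.trans (mul_le_mul_right (ENNReal.rpow_le_rpow a1 hq') _)
        · exact g2.trans (mul_le_mul_right (ENNReal.rpow_le_rpow a2 hq') _)
    _ = _ := by
        have : ENNReal.ofReal (4 * C * B) = 4 * ENNReal.ofReal (C * B) := by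
          rw [mul_assoc, ENNReal.ofReal_mul (by norm_num)]
          norm_num
        rw [this]
        ring

end Pool.Agent.Y250.AN
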