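import Mathlib
import Pool.Agent.Y250.AN.D9
set_option autoImplicit false

/-! All angular functions on the disc. -/

namespace Pool.Agent.Y250.AN

open MeasureTheory Set Complex Filter Topology
open scoped ENNReal NNReal ContDiff

lemma per_shift (F : ℝ → ℝ≥0∞) (hF : ∀ θ, F (θ + 2 * Real.pi) = F θ) :
    ∫⁻ θ in Ioo (-Real.pi) Real.pi, F (θ + Real.pi) = ∫⁻ θ in Ioo (-Real.pi) Real.pi, F θ := by
  have h0 : (0 : ℝ) < 2 * Real.pi := by positivity
  have hp : Function.Periodic F (2 * Real.pi) := hF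
  have h1 := (isAddFundamentalDomain_Ioc h0 (0 : ℝ) volume).setLIntegral_eq
    (isAddFundamentalDomain_Ioc h0 (-Real.pi) volume) F (fun g x => hp.map_vadd_zmultiples g x)
  rw [zero_add, show -Real.pi + 2 * Real.pi = Real.pi by ring] at h1
  have h2 : ∫⁻ θ in Ioo (-Real.pi) Real.pi, F (θ + Real.pi) = ∫⁻ θ in Ioo 0 (2 * Real.pi), F θ := by
    have hmp : MeasurePreserving (fun θ : ℝ => θ + Real.pi) volume volume := measurePreserving_add_right _ _
    have h3 := hmp.setLIntegral_comp_preimage_emb (MeasurableEquiv.addRight Real.pi).measurableEmbedding F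
      (Ioo 0 (2 * Real.pi))
    rw [← h3]
    congr 2
    ext θ
    simp only [mem_preimage, mem_Ioo]
    constructor
    · intro h
      constructor <;> linarith [h.1, h.2]
    · intro h
      constructor <;> linarith [h.1, h.2]
  rw [h2, setLIntegral_congr Ioo_ae_eq_Ioc, h1, setLIntegral_congr Ioo_ae_eq_Ioc]

lemma Am_eq (b : ℝ → ℂ) (hb : Measurable b) :
    Am b = ∫⁻ θ in Ioo (-Real.pi) Real.pi, {θ | b θ ≠ 0}.indicator (fun _ => 1) θ := by
  have hms : MeasurableSet {θ | b θ ≠ 0} := (hb (measurableSet_singleton 0)).compl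
  rw [lintegral_indicator hms, setLIntegral_const, Measure.restrict_apply hms, one_mul]
  unfold Am
  rw [inter_comm]

lemma Am_shift (b : ℝ → ℂ) (hb : Measurable b) (hP : Pp b) : Am (fun θ => b (θ + Real.pi)) = Am b := by
  rw [Am_eq b hb, Am_eq (fun θ => b (θ + Real.pi)) (hb.comp (measurable_add_const _)),
    ← per_shift (fun θ => {θ | b θ ≠ 0}.indicator (fun _ => 1) θ)]
  · rfl
  · intro θ
    unfold indicator
    simp only [mem_ofPred_eq]
    rw [hP θ]

lemma Am_union (b b' c : ℝ → ℂ) (h : ∀ θ, c θ ≠ 0 → b θ ≠ 0 ∨ b' θ ≠ 0) : Am c ≤ Am b + Am b' := by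
  unfold Am
  refine le_trans (measure_mono ?_) (measure_union_le _ _)
  intro θ hθ
  rcases h θ hθ.2 with h1 | h1
  · exact Or.inl ⟨hθ.1, h1⟩
  · exact Or.inr ⟨hθ.1, h1⟩

/-- even part -/
noncomputable def bev (b : ℝ → ℂ) (θ : ℝ) : ℂ := (b θ + b (θ + Real.pi)) / 2
/-- odd part -/
noncomputable def bod (b : ℝ → ℂ) (θ : ℝ) : ℂ := (b θ - b (θ + Real.pi)) / 2

lemma Bd_kA_all (q : ℝ) (hq : 3 < q) : ∃ C : ℝ, 0 ≤ C ∧ Bd Pp q kA C := by
  obtain ⟨C1, hC1, h1⟩ := Bd_kA q hq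
  obtain ⟨C2, hC2, h2⟩ := Bd_kA_odd q hq
  refine ⟨2 * (C1 + C2), by positivity, ?_⟩
  intro b hb B hB hP
  have hB0 : 0 ≤ B := (norm_nonneg _).trans (hB 0)
  have hq1 : 1 ≤ q := by linarith
  have hbs : Measurable fun θ => b (θ + Real.pi) := hb.comp (measurable_add_const _)
  have m1 : Measurable (bev b) := (hb.add hbs).div_const 2
  have m2 : Measurable (bod b) := (hb.sub hbs).div_const 2
  have n1 : ∀ θ, ‖bev b θ‖ ≤ B := by
    intro θ
    unfold bev
    rw [norm_div, Complex.norm_ofNat]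
    have := norm_add_le (b θ) (b (θ + Real.pi))
    have h3 := hB θ
    have h4 := hB (θ + Real.pi)
    linarith
  have n2 : ∀ θ, ‖bod b θ‖ ≤ B := by
    intro θ
    unfold bod
    rw [norm_div, Complex.norm_ofNat]
    have := norm_sub_le (b θ) (b (θ + Real.pi))
    have h3 := hB θ
    have h4 := hB (θ + Real.pi)
    linarith
  have hP2 : ∀ θ, b (θ + Real.pi + Real.pi) = b θ := by
    intro θ
    rw [add_assoc, ← two_mul]
    exact hP θ
  have p1 : Pe (bev b) := by
    intro θ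
    unfold bev
    rw [hP2]
    ring
  have p2 : Po (bod b) := by
    intro θ
    unfold bod
    rw [hP2]
    ring
  have e : pf b kA = fun ξ => pf (bev b) kA ξ + pf (bod b) kA ξ := by
    ext ξ
    unfold pf bev bod
    ring
  have a1 : Am (bev b) ≤ 2 * Am b := by
    refine (Am_union b (fun θ => b (θ + Real.pi)) (bev b) ?_).trans (le_of_eq ?_)
    · intro θ h
      by_contra hc
      push Not at hc
      apply h
      unfold bev
      rw [hc.1, hc.2]
      simp
    · rw [Am_shift b hb hP, two_mul]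
  have a2 : Am (bod b) ≤ 2 * Am b := by
    refine (Am_union b (fun θ => b (θ + Real.pi)) (bod b) ?_).trans (le_of_eq ?_)
    · intro θ h
      by_contra hc
      push Not at hc
      apply h
      unfold bod
      rw [hc.1, hc.2]
      simp
    · rw [Am_shift b hb hP, two_mul]
  have hq' : (0 : ℝ) ≤ 1 / q := by positivity
  have hr : (2 * Am b) ^ (1 / q) ≤ 2 * Am b ^ (1 / q) := by
    rw [ENNReal.mul_rpow_of_nonneg _ _ hq']
    refine mul_le_mul' ?_ le_rfl
    calc (2 : ℝ≥0∞) ^ (1 / q) ≤ 2 ^ (1 : ℝ) := by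
          apply ENNReal.rpow_le_rpow_of_exponent_le (by norm_num)
          rw [div_le_one (by linarith)]
          exact hq1
      _ = 2 := ENNReal.rpow_one _
  rw [e]
  refine (LL_add q hq1 _ _ (pf_integrable _ kA m1 B n1 kA_meas R1_kA) (pf_integrable _ kA m2 B n2 kA_meas R1_kA)
    (pf_meas _ kA m1 kA_meas) (pf_meas _ kA m2 kA_meas)).trans ?_
  have g1 := h1 (bev b) m1 B n1 p1
  have g2 := h2 (bod b) m2 B n2 p2
  calc _ ≤ ENNReal.ofReal (C1 * B) * (2 * Am b ^ (1 / q)) + ENNReal.ofReal (C2 * B) * (2 * Am b ^ (1 / q)) := by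
        refine add_le_add (g1.trans (mul_le_mul_right ?_ _)) (g2.trans (mul_le_mul_right ?_ _))
        · exact (ENNReal.rpow_le_rpow a1 hq').trans hr
        · exact (ENNReal.rpow_le_rpow a2 hq').trans hr
    _ = _ := by
        have : ENNReal.ofReal (2 * (C1 + C2) * B) = 2 * (ENNReal.ofReal (C1 * B) + ENNReal.ofReal (C2 * B)) := by
          rw [← ENNReal.ofReal_add (by positivity) (by positivity), mul_assoc, ENNReal.ofReal_mul (by norm_num)]
          congr 1
          · norm_num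
          · congr 1
            ring
        rw [this]
        ring

lemma lint_mul_real (r : ℝ) (hr : r ≠ 0) (F : ℝ → ℝ≥0∞) :
    ∫⁻ x : ℝ, F (r * x) = ENNReal.ofReal |r⁻¹| * ∫⁻ x, F x := by
  have h := Measure.map_addHaar_smul (volume : Measure ℝ) hr
  rw [Module.finrank_self, pow_one] at h
  have h2 := (Homeomorph.smulOfNeZero r hr : ℝ ≃ₜ ℝ).measurableEmbedding.lintegral_map
    (μ := (volume : Measure ℝ)) F
  have h3 : (⇑(Homeomorph.smulOfNeZero r hr : ℝ ≃ₜ ℝ)) = (fun x : ℝ => r • x) := rfl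
  rw [h3] at h2
  have h4 : Measure.map (fun x : ℝ => r • x) (volume : Measure ℝ) =
      ENNReal.ofReal |r⁻¹| • (volume : Measure ℝ) := h
  rw [h4, lintegral_smul_measure, smul_eq_mul] at h2
  exact h2.symm

lemma Ext_dil (ρ : ℝ) (hρ : 0 < ρ) (f : ℂ → ℂ) (x : ℂ) (t : ℝ) :
    Ext (fun ξ => f (ρ⁻¹ • ξ)) (x, t) = (ρ ^ 2 : ℝ) • Ext f (ρ • x, ρ ^ 2 * t) := by
  unfold Ext
  have h := Measure.integral_comp_inv_smul (volume : Measure ℂ)
    (fun η => ee (-(dt (ρ • x) η + ρ ^ 2 * t * ‖η‖ ^ 2)) * f η) ρ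
  rw [Complex.finrank_real_complex, abs_of_nonneg (by positivity)] at h
  rw [← h]
  apply integral_congr_ae
  refine Filter.Eventually.of_forall fun ξ => ?_
  simp only
  congr 3
  have e1 : dt (ρ • x) (ρ⁻¹ • ξ) = dt x ξ := by
    unfold dt
    simp only [Complex.smul_re, Complex.smul_im, smul_eq_mul]
    field_simp
  rw [e1, norm_smul, Real.norm_eq_abs, abs_of_pos (by positivity)]
  field_simp

lemma LL_dil (q : ℝ) (hq : 1 ≤ q) (ρ : ℝ) (hρ : 0 < ρ) (f : ℂ → ℂ) (hf : Measurable f) :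
    LL q (fun ξ => f (ρ⁻¹ • ξ)) = ENNReal.ofReal (ρ ^ (2 - 4 / q)) * LL q f := by
  have hq0 : 0 < q := by linarith
  have hm := (Ext_meas f hf).enorm.pow_const q
  have hmd : Measurable fun ξ : ℂ => f (ρ⁻¹ • ξ) := hf.comp (by fun_prop)
  have hm2 := (Ext_meas _ hmd).enorm.pow_const q
  unfold LL
  have key : ∫⁻ p, ‖Ext (fun ξ => f (ρ⁻¹ • ξ)) p‖ₑ ^ q =
      ENNReal.ofReal (ρ ^ (2 * q - 4)) * ∫⁻ p, ‖Ext f p‖ₑ ^ q := by
    rw [Measure.volume_eq_prod, lintegral_prod_symm' _ hm, lintegral_prod_symm' _ hm2]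
    have e1 : ∀ t : ℝ, ∫⁻ x : ℂ, ‖Ext (fun ξ => f (ρ⁻¹ • ξ)) (x, t)‖ₑ ^ q =
        ENNReal.ofReal (ρ ^ (2 * q - 2)) * ∫⁻ x : ℂ, ‖Ext f (x, ρ ^ 2 * t)‖ₑ ^ q := by
      intro t
      have e2 : ∀ x : ℂ, ‖Ext (fun ξ => f (ρ⁻¹ • ξ)) (x, t)‖ₑ ^ q =
          ENNReal.ofReal (ρ ^ (2 * q)) * ‖Ext f (ρ • x, ρ ^ 2 * t)‖ₑ ^ q := by
        intro x
        rw [Ext_dil ρ hρ, enorm_smul, ENNReal.mul_rpow_of_nonneg _ _ hq0.le]
        congr 1
        rw [← ofReal_norm, Real.norm_eq_abs, abs_of_pos (by positivity), ENNReal.ofReal_rpow_of_pos (by positivity),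
          ← Real.rpow_natCast, ← Real.rpow_mul hρ.le]
        norm_num
      simp only [e2]
      rw [lintegral_const_mul' _ _ ENNReal.ofReal_ne_top,
        lint_smul ρ hρ.ne' (fun x => ‖Ext f (x, ρ ^ 2 * t)‖ₑ ^ q), ← mul_assoc,
        ← ENNReal.ofReal_mul (by positivity)]
      congr 2
      rw [abs_of_pos (by positivity), ← Real.rpow_natCast, ← Real.rpow_neg hρ.le, ← Real.rpow_add hρ]
      congr 1
    simp only [e1]
    rw [lintegral_const_mul' _ _ ENNReal.ofReal_ne_top,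
      lint_mul_real (ρ ^ 2) (by positivity) (fun t => ∫⁻ x : ℂ, ‖Ext f (x, t)‖ₑ ^ q), ← mul_assoc,
      ← ENNReal.ofReal_mul (by positivity)]
    congr 2
    rw [abs_of_pos (by positivity), ← Real.rpow_natCast, ← Real.rpow_neg hρ.le, ← Real.rpow_add hρ]
    congr 1
    push_cast
    ring
  rw [key, ENNReal.mul_rpow_of_nonneg _ _ (by positivity), ENNReal.ofReal_rpow_of_pos (by positivity),
    ← Real.rpow_mul hρ.le]
  congr 3
  field_simp

end Pool.Agent.Y250.AN
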