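import Mathlib
import Pool.Agent.Y250.AN.E4
set_option autoImplicit false

/-! Superposition of discs: weighted bounded variation in the radius. -/

namespace Pool.Agent.Y250.AN

open MeasureTheory Set Complex Filter Topology
open scoped ENNReal NNReal ContDiff

/-- the restriction of `g` to the circle of radius `r` -/
noncomputable def ci (g : ℂ → ℂ) (r θ : ℝ) : ℂ := g ((r : ℂ) * ee θ)

lemma ci_meas2 (g : ℂ → ℂ) (hg : Measurable g) : Measurable fun p : ℝ × ℝ => ci g p.1 p.2 := by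
  unfold ci
  exact hg.comp ((Complex.measurable_ofReal.comp measurable_fst).mul (ee_cont.measurable.comp measurable_snd))

lemma ci_meas (g : ℂ → ℂ) (hg : Measurable g) (r : ℝ) : Measurable (ci g r) :=
  (ci_meas2 g hg).comp (measurable_const.prodMk measurable_id)

lemma ee_two_pi (θ : ℝ) : ee (θ + 2 * Real.pi) = ee θ := by
  rw [ee_add]
  have : ee (2 * Real.pi) = 1 := by
    unfold ee
    push_cast
    exact Complex.exp_two_pi_mul_I
  rw [this, mul_one]

lemma ci_per (g : ℂ → ℂ) (r : ℝ) : Pp (ci g r) := by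
  intro θ
  unfold ci
  rw [ee_two_pi]

lemma lint_polar (h : ℂ → ℂ) (hh : Measurable h) :
    ∫⁻ ξ, ‖h ξ‖ₑ = ∫⁻ r in Ioi (0 : ℝ), ENNReal.ofReal r * N1 (ci h r) := by
  rw [← Complex.lintegral_comp_polarCoord_symm]
  have e1 : ∫⁻ p' in polarCoord.target, ENNReal.ofReal p'.1 • ‖h (Complex.polarCoord.symm p')‖ₑ =
      ∫⁻ p' in Ioi (0 : ℝ) ×ˢ Ioo (-Real.pi) Real.pi, ENNReal.ofReal p'.1 * ‖ci h p'.1 p'.2‖ₑ := by
    apply setLIntegral_congr_fun polarCoord.open_target.measurableSet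
    intro p' hp'
    simp only
    rw [pol_symm, smul_eq_mul]
    rfl
  have hm : Measurable fun p : ℝ × ℝ => ENNReal.ofReal p.1 * ‖ci h p.1 p.2‖ₑ :=
    (ENNReal.measurable_ofReal.comp measurable_fst).mul (ci_meas2 h hh).enorm
  rw [e1, Measure.volume_eq_prod, ← Measure.prod_restrict, lintegral_prod _ hm.aemeasurable]
  apply lintegral_congr
  intro r
  simp only
  rw [lintegral_const_mul _ (ci_meas h hh r).enorm]
  rfl

lemma N1_Iq (q : ℝ) (hq : 1 ≤ q) (b : ℝ → ℂ) (hb : Measurable b) :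
    N1 b ≤ ENNReal.ofReal ((2 * Real.pi) ^ (1 - 1 / q)) * Iq q b ^ (1 / q) := by
  have hq0 : 0 < q := by linarith
  have h := ENNReal.rpow_le_rpow (N1_pow q hq b hb) (z := 1 / q) (by positivity)
  rw [← ENNReal.rpow_mul, mul_one_div_cancel hq0.ne', ENNReal.rpow_one,
    ENNReal.mul_rpow_of_nonneg _ _ (by positivity), ENNReal.ofReal_rpow_of_pos (by positivity),
    ← Real.rpow_mul (by positivity)] at h
  refine h.trans (le_of_eq ?_)
  congr 3
  field_simp

/-- telescoping sum -/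
lemma tele (a : ℕ → ℂ) (m N : ℕ) :
    ∑ j ∈ Finset.range N, (if m ≤ j then a (j + 1) - a (j + 2) else 0) = a (min m N + 1) - a (N + 1) := by
  induction N with
  | zero => simp
  | succ N ih =>
    rw [Finset.sum_range_succ, ih]
    by_cases h : m ≤ N
    · rw [if_pos h, min_eq_left h, min_eq_left (by omega)]
      ring
    · rw [if_neg h, min_eq_right (by omega), min_eq_right (by omega)]
      ring

/-- the hypothesis: weighted bounded variation in the radius -/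
structure WBV (q : ℝ) (g : ℂ → ℂ) (W : ℝ → ℝ) (M : ℝ) : Prop where
  meas : Measurable g
  mono : MonotoneOn W (Ioi 0)
  bdd : ∀ r s, 0 < r → r ≤ s → W s - W r ≤ M
  var : ∀ r s, 0 < r → r ≤ s → ENNReal.ofReal (r ^ (2 - 4 / q)) *
    Iq q (fun θ => ci g s θ - ci g r θ) ^ (1 / q) ≤ ENNReal.ofReal (W s - W r)

variable {q : ℝ} {g : ℂ → ℂ} {W : ℝ → ℝ} {M : ℝ}

lemma WBV.fin (h : WBV q g W M) (hq : 1 ≤ q) {r s : ℝ} (hr : 0 < r) (hs : r ≤ s) :
    Iq q (fun θ => ci g s θ - ci g r θ) ≠ ⊤ := by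
  intro hc
  have h1 := h.var r s hr hs
  rw [hc, ENNReal.top_rpow_of_pos (by positivity), ENNReal.mul_top, top_le_iff] at h1
  · exact ENNReal.ofReal_ne_top h1
  · rw [ne_eq, ENNReal.ofReal_eq_zero, not_le]
    positivity

lemma WBV.N1le (h : WBV q g W M) (hq : 1 ≤ q) {r s : ℝ} (hr : 0 < r) (hs : r ≤ s) :
    N1 (fun θ => ci g s θ - ci g r θ) ≤
      ENNReal.ofReal ((2 * Real.pi) ^ (1 - 1 / q) * r ^ (-(2 - 4 / q)) * (W s - W r)) := by
  have h0 : 0 ≤ W s - W r := sub_nonneg.2 (h.mono hr (hr.trans_le hs) hs)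
  refine (N1_Iq q hq _ ((ci_meas g h.meas s).sub (ci_meas g h.meas r))).trans ?_
  have h1 : Iq q (fun θ => ci g s θ - ci g r θ) ^ (1 / q) ≤ ENNReal.ofReal (r ^ (-(2 - 4 / q)) * (W s - W r)) := by
    have h2 := mul_le_mul_right (h.var r s hr hs) (ENNReal.ofReal (r ^ (-(2 - 4 / q))))
    rw [← mul_assoc, ← ENNReal.ofReal_mul (by positivity), ← ENNReal.ofReal_mul (by positivity), ← Real.rpow_add hr,
      neg_add_cancel, Real.rpow_zero, ENNReal.ofReal_one, one_mul] at h2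
    exact h2
  refine (mul_le_mul_right h1 _).trans (le_of_eq ?_)
  rw [← ENNReal.ofReal_mul (by positivity)]
  congr 1
  ring

/-- step approximation -/
noncomputable def stp (g : ℂ → ℂ) (R : ℝ) (N : ℕ) (ξ : ℂ) : ℂ :=
  ∑ j ∈ Finset.range N, pf (fun θ => ci g ((j + 1 : ℕ) * (R / N)) θ - ci g ((j + 2 : ℕ) * (R / N)) θ)
    (fun r => dk ((((j + 1 : ℕ) : ℝ) * (R / N))⁻¹ * r)) ξ

lemma stp_LL (q : ℝ) (hq : 3 < q) : ∃ C : ℝ, 0 < C ∧ ∀ (g : ℂ → ℂ) (W : ℝ → ℝ) (M : ℝ), WBV q g W M →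
    ∀ (R : ℝ), 0 < R → ∀ N : ℕ, 0 < N → LL q (stp g R N) ≤ ENNReal.ofReal (C * M) := by
  obtain ⟨C, hC, h⟩ := ang_rad q hq
  have hq1 : 1 ≤ q := by linarith
  refine ⟨C, hC, ?_⟩
  intro g W M hW R hR N hN
  have hN' : (0 : ℝ) < N := Nat.cast_pos.2 hN
  have hd : 0 < R / N := by positivity
  set ρ : ℕ → ℝ := fun j => (j : ℝ) * (R / N) with hρ
  have hρ0 : ∀ j, 0 < ρ (j + 1) := fun j => by simp only [hρ]; positivity
  have hρm : ∀ j, ρ (j + 1) ≤ ρ (j + 2) := fun j => by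
    simp only [hρ]
    push_cast
    nlinarith
  set G : ℕ → ℝ → ℂ := fun j θ => ci g (ρ (j + 1)) θ - ci g (ρ (j + 2)) θ with hG
  have hGm : ∀ j, Measurable (G j) := fun j => (ci_meas g hW.meas _).sub (ci_meas g hW.meas _)
  have hGp : ∀ j, Pp (G j) := fun j θ => by
    simp only [hG]
    rw [ci_per g _ θ, ci_per g _ θ]
  have hGI : ∀ j, Iq q (G j) = Iq q (fun θ => ci g (ρ (j + 2)) θ - ci g (ρ (j + 1)) θ) := by
    intro j
    unfold Iq
    apply lintegral_congr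
    intro θ
    simp only [hG]
    rw [← enorm_neg, neg_sub]
  have hGf : ∀ j, Iq q (G j) ≠ ⊤ := fun j => by rw [hGI]; exact hW.fin hq1 (hρ0 j) (hρm j)
  have hR1 : ∀ j, R1 (fun r => dk ((ρ (j + 1))⁻¹ * r)) ≠ ⊤ := by
    intro j
    have := shell 0 (ρ (j + 1) ^ 2) 1 zero_le_one (fun r => dk ((ρ (j + 1))⁻¹ * r)) (fun r => dk_norm _)
      (fun r hr => by
        unfold dk
        rw [if_neg]
        intro h
        apply hr
        rw [mul_pow, inv_pow, inv_mul_lt_iff₀ (by have := hρ0 j; positivity)] at h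
        exact ⟨by nlinarith [sq_nonneg r, sq_nonneg (ρ (j + 1))], by linarith⟩)
    exact (this.trans_lt ENNReal.ofReal_lt_top).ne
  have hdm : ∀ j, Measurable fun r : ℝ => dk ((ρ (j + 1))⁻¹ * r) := fun j => dk_meas.comp (by fun_prop)
  have hint : ∀ j, Integrable (pf (G j) (fun r => dk ((ρ (j + 1))⁻¹ * r))) := by
    intro j
    refine ⟨(pf_meas _ _ (hGm j) (hdm j)).aestronglyMeasurable, ?_⟩
    rw [hasFiniteIntegral_iff_enorm, pf_L1 _ _ (hGm j) (hdm j)]
    exact ENNReal.mul_lt_top (N1_top q hq1 _ (hGm j) (hGf j)).lt_top (hR1 j).lt_top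
  have e : stp g R N = fun ξ => ∑ j ∈ Finset.range N, pf (G j) (fun r => dk ((ρ (j + 1))⁻¹ * r)) ξ := rfl
  rw [e]
  refine (LL_sum q hq1 _ _ hint fun j => pf_meas _ _ (hGm j) (hdm j)).trans ?_
  have hj : ∀ j ∈ Finset.range N, LL q (pf (G j) (fun r => dk ((ρ (j + 1))⁻¹ * r))) ≤
      ENNReal.ofReal (C * (W (ρ (j + 2)) - W (ρ (j + 1)))) := by
    intro j _
    refine (h (G j) (hGm j) (hGp j) (hGf j) (ρ (j + 1)) (hρ0 j)).trans ?_
    rw [hGI, ENNReal.ofReal_mul hC.le, ENNReal.ofReal_mul hC.le, mul_assoc]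
    exact mul_le_mul_right (hW.var _ _ (hρ0 j) (hρm j)) _
  refine (Finset.sum_le_sum hj).trans ?_
  rw [← ENNReal.ofReal_sum_of_nonneg (fun j _ => mul_nonneg hC.le (sub_nonneg.2 (hW.mono (hρ0 j) (hρ0 (j + 1)) (hρm j)))),
    ← Finset.mul_sum, Finset.sum_range_sub (fun j => W (ρ (j + 1)))]
  apply ENNReal.ofReal_le_ofReal
  apply mul_le_mul_of_nonneg_left _ hC.le
  apply hW.bdd _ _ (hρ0 0)
  simp only [hρ]
  push_cast
  nlinarith

end Pool.Agent.Y250.AN
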