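import Mathlib
import Pool.Agent.Y250.AN.E5
set_option autoImplicit false

/-! Convergence of the step approximations and the weighted bounded variation theorem. -/

namespace Pool.Agent.Y250.AN

open MeasureTheory Set Complex Filter Topology
open scoped ENNReal NNReal ContDiff

lemma stp_meas (g : ℂ → ℂ) (hg : Measurable g) (R : ℝ) (N : ℕ) : Measurable (stp g R N) := by
  unfold stp
  exact Finset.measurable_sum _ fun j _ => pf_meas _ _ ((ci_meas g hg _).sub (ci_meas g hg _))
    (dk_meas.comp (by fun_prop))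

lemma stp_val (g : ℂ → ℂ) (R : ℝ) (hR : 0 < R) (hg : ∀ ξ, R ≤ ‖ξ‖ → g ξ = 0) (N : ℕ) (hN : 0 < N)
    (r θ : ℝ) (hr : 0 < r) (hθ : θ ∈ Ioo (-Real.pi) Real.pi) :
    ci (stp g R N) r θ = if r < R then ci g ((⌊r / (R / N)⌋₊ + 1 : ℕ) * (R / N)) θ else 0 := by
  have hN' : (0 : ℝ) < N := Nat.cast_pos.2 hN
  have hd : 0 < R / N := by positivity
  set m := ⌊r / (R / N)⌋₊ with hm
  have e : ci (stp g R N) r θ = ∑ j ∈ Finset.range N, (if m ≤ j then
      (fun j : ℕ => ci g ((j : ℝ) * (R / N)) θ) (j + 1) - (fun j : ℕ => ci g ((j : ℝ) * (R / N)) θ) (j + 2) else 0) := by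
    change ∑ j ∈ Finset.range N, pf (fun θ => ci g ((j + 1 : ℕ) * (R / N)) θ - ci g ((j + 2 : ℕ) * (R / N)) θ)
      (fun r => dk ((((j + 1 : ℕ) : ℝ) * (R / N))⁻¹ * r)) ((r : ℂ) * ee θ) = _
    apply Finset.sum_congr rfl
    intro j _
    unfold pf
    rw [arg_pol _ _ hr hθ, norm_pol _ _ hr]
    beta_reduce
    have hj : (0 : ℝ) < ((j + 1 : ℕ) : ℝ) * (R / N) := by positivity
    have hiff : (((((j + 1 : ℕ) : ℝ) * (R / N))⁻¹ * r) ^ 2 < 1) ↔ m ≤ j := by
      rw [sq_lt_one_iff₀ (by positivity), inv_mul_lt_iff₀ hj, mul_one, ← div_lt_iff₀ hd, hm, ← Nat.lt_succ_iff,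
        Nat.floor_lt (by positivity)]
    unfold dk
    by_cases h : m ≤ j
    · rw [if_pos (hiff.2 h), if_pos h, mul_one]
    · rw [if_neg (fun h2 => h (hiff.1 h2)), if_neg h, mul_zero]
  rw [e, tele (fun j : ℕ => ci g ((j : ℝ) * (R / N)) θ) m N]
  have hz : ci g (((N + 1 : ℕ) : ℝ) * (R / N)) θ = 0 := by
    unfold ci
    apply hg
    rw [norm_pol _ _ (by positivity)]
    push_cast
    rw [add_mul, mul_div_cancel₀ _ hN'.ne']
    linarith
  split_ifs with h
  · have h1 : m ≤ N := by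
      rw [hm]
      apply Nat.floor_le_of_le
      rw [div_le_iff₀ hd, mul_div_cancel₀ _ hN'.ne']
      exact h.le
    rw [min_eq_left h1, hz, sub_zero]
  · have h1 : N ≤ m := by
      rw [hm]
      apply Nat.le_floor
      rw [le_div_iff₀ hd, mul_div_cancel₀ _ hN'.ne']
      exact not_lt.1 h
    rw [min_eq_right h1, sub_self]

/-- the next partition point -/
noncomputable def nx (R : ℝ) (N : ℕ) (r : ℝ) : ℝ := (⌊r / (R / N)⌋₊ + 1 : ℕ) * (R / N)

lemma nx_pos (R : ℝ) (hR : 0 < R) (N : ℕ) (hN : 0 < N) (r : ℝ) : 0 < nx R N r := by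
  have hN' : (0 : ℝ) < N := Nat.cast_pos.2 hN
  unfold nx
  positivity

lemma nx_ge (R : ℝ) (hR : 0 < R) (N : ℕ) (hN : 0 < N) (r : ℝ) : r ≤ nx R N r := by
  have hN' : (0 : ℝ) < N := Nat.cast_pos.2 hN
  have hd : 0 < R / N := by positivity
  unfold nx
  rw [← div_le_iff₀ hd]
  push_cast
  exact (Nat.lt_floor_add_one _).le

lemma nx_le (R : ℝ) (hR : 0 < R) (N : ℕ) (hN : 0 < N) (r : ℝ) (hr : 0 < r) : nx R N r ≤ r + R / N := by
  have hN' : (0 : ℝ) < N := Nat.cast_pos.2 hN
  have hd : 0 < R / N := by positivity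
  unfold nx
  push_cast
  have h := Nat.floor_le (show 0 ≤ r / (R / N) by positivity)
  have h2 := mul_le_mul_of_nonneg_right h hd.le
  rw [div_mul_cancel₀ _ hd.ne'] at h2
  rw [add_mul, one_mul]
  linarith

lemma nx_mono (R : ℝ) (hR : 0 < R) (N : ℕ) (hN : 0 < N) : Monotone (nx R N) := by
  have hN' : (0 : ℝ) < N := Nat.cast_pos.2 hN
  have hd : 0 < R / N := by positivity
  intro r s hrs
  unfold nx
  apply mul_le_mul_of_nonneg_right _ hd.le
  have : ⌊r / (R / N)⌋₊ ≤ ⌊s / (R / N)⌋₊ := Nat.floor_le_floor (by gcongr)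
  exact_mod_cast Nat.succ_le_succ this

lemma WBV.nonneg {q : ℝ} {g : ℂ → ℂ} {W : ℝ → ℝ} {M : ℝ} (h : WBV q g W M) : 0 ≤ M := by
  have := h.bdd 1 1 one_pos le_rfl
  linarith

lemma wint (R : ℝ) (hR : 0 < R) (q : ℝ) (hq : 3 < q) (c : ℝ) :
    ∫⁻ r in Ioo 0 R, ENNReal.ofReal (c * r ^ (1 - (2 - 4 / q))) ≠ ⊤ := by
  have h1 : IntegrableOn (fun r : ℝ => c * r ^ (1 - (2 - 4 / q))) (Ioo 0 R) := by
    apply Integrable.const_mul
    apply (intervalIntegral.integrableOn_Ioo_rpow_iff hR).2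
    have : 0 < 4 / q := by positivity
    linarith
  have h2 := h1.2
  rw [hasFiniteIntegral_iff_enorm] at h2
  refine ne_of_lt (lt_of_le_of_lt (lintegral_mono fun r => ?_) h2)
  rw [← ofReal_norm]
  exact ENNReal.ofReal_le_ofReal (Real.le_norm_self _)

lemma stp_conv (q : ℝ) (hq : 3 < q) (g : ℂ → ℂ) (W : ℝ → ℝ) (M : ℝ) (h : WBV q g W M)
    (R : ℝ) (hR : 0 < R) (hg : ∀ ξ, R ≤ ‖ξ‖ → g ξ = 0) :
    Tendsto (fun n : ℕ => ∫⁻ ξ, ‖stp g R (n + 1) ξ - g ξ‖ₑ) atTop (𝓝 0) := by
  have hq1 : 1 ≤ q := by linarith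
  set c : ℝ := (2 * Real.pi) ^ (1 - 1 / q) with hc
  have hc0 : 0 < c := by positivity
  set F : ℕ → ℝ → ℝ≥0∞ := fun n r => ENNReal.ofReal (c * r ^ (1 - (2 - 4 / q)) * (W (nx R (n + 1) r) - W r)) with hF
  have hle : ∀ n : ℕ, ∫⁻ ξ, ‖stp g R (n + 1) ξ - g ξ‖ₑ ≤ ∫⁻ r in Ioo 0 R, F n r := by
    intro n
    have hN : 0 < n + 1 := Nat.succ_pos n
    rw [lint_polar (fun ξ => stp g R (n + 1) ξ - g ξ) ((stp_meas g h.meas R (n + 1)).sub h.meas),
      ← lintegral_indicator measurableSet_Ioo, ← lintegral_indicator measurableSet_Ioi]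
    apply lintegral_mono
    intro r
    by_cases hr : 0 < r
    · rw [indicator_of_mem (show r ∈ Ioi (0 : ℝ) from hr)]
      by_cases hrR : r < R
      · rw [indicator_of_mem (show r ∈ Ioo 0 R from ⟨hr, hrR⟩)]
        have e1 : N1 (ci (fun ξ => stp g R (n + 1) ξ - g ξ) r) = N1 (fun θ => ci g (nx R (n + 1) r) θ - ci g r θ) := by
          unfold N1
          apply setLIntegral_congr_fun measurableSet_Ioo
          intro θ hθ
          simp only
          have e2 : ci (fun ξ => stp g R (n + 1) ξ - g ξ) r θ = ci (stp g R (n + 1)) r θ - ci g r θ := rfl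
          rw [e2, stp_val g R hR hg (n + 1) hN r θ hr hθ, if_pos hrR]
          rfl
        rw [e1]
        refine (mul_le_mul_right (h.N1le hq1 hr (nx_ge R hR (n + 1) hN r)) _).trans (le_of_eq ?_)
        simp only [hF]
        rw [← ENNReal.ofReal_mul hr.le]
        congr 1
        have : r ^ (1 - (2 - 4 / q)) = r * r ^ (-(2 - 4 / q)) := by
          rw [sub_eq_add_neg, Real.rpow_add hr, Real.rpow_one]
        rw [this]
        ring
      · rw [indicator_of_notMem (fun h2 : r ∈ Ioo 0 R => hrR h2.2)]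
        have e1 : N1 (ci (fun ξ => stp g R (n + 1) ξ - g ξ) r) = 0 := by
          unfold N1
          rw [setLIntegral_congr_fun (g := fun _ => 0) measurableSet_Ioo]
          · simp
          · intro θ hθ
            simp only
            have e2 : ci (fun ξ => stp g R (n + 1) ξ - g ξ) r θ = ci (stp g R (n + 1)) r θ - ci g r θ := rfl
            rw [e2, stp_val g R hR hg (n + 1) hN r θ hr hθ, if_neg hrR]
            have e3 : ci g r θ = 0 := by
              unfold ci
              apply hg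
              rw [norm_pol _ _ hr]
              exact not_lt.1 hrR
            rw [e3]
            simp
        rw [e1, mul_zero]
    · rw [indicator_of_notMem (show r ∉ Ioi (0 : ℝ) from hr)]
      exact zero_le
  have hlim : Tendsto (fun n => ∫⁻ r in Ioo 0 R, F n r) atTop (𝓝 (∫⁻ r in Ioo 0 R, (fun _ => 0) r)) := by
    have hsub : Ioo (0 : ℝ) R ⊆ Ioi 0 := fun r hr => hr.1
    have hWm : AEMeasurable W (volume.restrict (Ioo 0 R)) :=
      aemeasurable_restrict_of_monotoneOn measurableSet_Ioo (h.mono.mono hsub)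
    refine tendsto_lintegral_of_dominated_convergence' (fun r => ENNReal.ofReal (c * M * r ^ (1 - (2 - 4 / q)))) ?_ ?_ ?_ ?_
    · intro n
      have hWn : AEMeasurable (fun r => W (nx R (n + 1) r)) (volume.restrict (Ioo 0 R)) := by
        apply aemeasurable_restrict_of_monotoneOn measurableSet_Ioo
        intro r hr s hs hrs
        exact h.mono (nx_pos R hR _ (Nat.succ_pos n) r) (nx_pos R hR _ (Nat.succ_pos n) s)
          (nx_mono R hR _ (Nat.succ_pos n) hrs)
      have h1 : Measurable fun r : ℝ => c * r ^ (1 - (2 - 4 / q)) := by fun_prop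
      exact (h1.aemeasurable.mul (hWn.sub hWm)).ennreal_ofReal
    · intro n
      filter_upwards [ae_restrict_mem measurableSet_Ioo] with r hr
      simp only [hF]
      apply ENNReal.ofReal_le_ofReal
      have h1 := h.bdd r _ hr.1 (nx_ge R hR (n + 1) (Nat.succ_pos n) r)
      have h2 : 0 < r ^ (1 - (2 - 4 / q)) := Real.rpow_pos_of_pos hr.1 _
      calc c * r ^ (1 - (2 - 4 / q)) * (W (nx R (n + 1) r) - W r) ≤ c * r ^ (1 - (2 - 4 / q)) * M := by gcongr
        _ = _ := by ring
    · exact wint R hR q hq _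
    · have hcont : ∀ᵐ r : ℝ, r ∈ Ioi (0 : ℝ) → ContinuousWithinAt W (Ioi 0) r := by
        have h1 := h.mono.countable_not_continuousWithinAt
        have h2 := h1.ae_notMem volume
        filter_upwards [h2] with r hr hr2
        by_contra hc2
        exact hr ⟨hr2, hc2⟩
      filter_upwards [ae_restrict_of_ae hcont, ae_restrict_mem measurableSet_Ioo] with r hr1 hr2
      have hcr : ContinuousAt W r := (hr1 hr2.1).continuousAt (Ioi_mem_nhds hr2.1)
      have hnx : Tendsto (fun n : ℕ => nx R (n + 1) r) atTop (𝓝 r) := by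
        have hl : Tendsto (fun n : ℕ => r + R / ((n + 1 : ℕ) : ℝ)) atTop (𝓝 (r + 0)) := by
          apply tendsto_const_nhds.add
          have := tendsto_const_div_atTop_nhds_zero_nat R
          exact this.comp (tendsto_add_atTop_nat 1)
        rw [add_zero] at hl
        exact tendsto_of_tendsto_of_tendsto_of_le_of_le tendsto_const_nhds hl
          (fun n => nx_ge R hR (n + 1) (Nat.succ_pos n) r) (fun n => nx_le R hR (n + 1) (Nat.succ_pos n) r hr2.1)
      have h3 : Tendsto (fun n : ℕ => c * r ^ (1 - (2 - 4 / q)) * (W (nx R (n + 1) r) - W r)) atTop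
          (𝓝 (c * r ^ (1 - (2 - 4 / q)) * (W r - W r))) :=
        ((hcr.tendsto.comp hnx).sub_const _).const_mul _
      rw [sub_self, mul_zero] at h3
      have h4 := ENNReal.tendsto_ofReal h3
      rw [ENNReal.ofReal_zero] at h4
      exact h4
  simp only [lintegral_zero] at hlim
  exact tendsto_of_tendsto_of_tendsto_of_le_of_le tendsto_const_nhds hlim (fun n => zero_le) hle

lemma WBV.int {q : ℝ} {g : ℂ → ℂ} {W : ℝ → ℝ} {M : ℝ} (h : WBV q g W M) (hq : 3 < q)
    (R : ℝ) (hR : 0 < R) (hg : ∀ ξ, R ≤ ‖ξ‖ → g ξ = 0) : Integrable g := by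
  have hq1 : 1 ≤ q := by linarith
  refine ⟨h.meas.aestronglyMeasurable, ?_⟩
  rw [hasFiniteIntegral_iff_enorm, lint_polar g h.meas]
  set c : ℝ := (2 * Real.pi) ^ (1 - 1 / q) with hc
  have hc0 : 0 < c := by positivity
  refine lt_of_le_of_lt ?_ (wint R hR q hq (c * M)).lt_top
  rw [← lintegral_indicator measurableSet_Ioo, ← lintegral_indicator measurableSet_Ioi]
  apply lintegral_mono
  intro r
  by_cases hr : 0 < r
  · rw [indicator_of_mem (show r ∈ Ioi (0 : ℝ) from hr)]
    by_cases hrR : r < R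
    · rw [indicator_of_mem (show r ∈ Ioo 0 R from ⟨hr, hrR⟩)]
      have e1 : N1 (ci g r) = N1 (fun θ => ci g R θ - ci g r θ) := by
        unfold N1
        apply lintegral_congr
        intro θ
        have e3 : ci g R θ = 0 := by
          unfold ci
          apply hg
          rw [norm_pol _ _ hR]
        simp only [e3, zero_sub, enorm_neg]
      rw [e1]
      refine (mul_le_mul_right (h.N1le hq1 hr hrR.le) _).trans ?_
      rw [← ENNReal.ofReal_mul hr.le]
      apply ENNReal.ofReal_le_ofReal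
      have h1 := h.bdd r R hr hrR.le
      have h2 : 0 < r ^ (-(2 - 4 / q)) := Real.rpow_pos_of_pos hr _
      have : r ^ (1 - (2 - 4 / q)) = r * r ^ (-(2 - 4 / q)) := by
        rw [sub_eq_add_neg, Real.rpow_add hr, Real.rpow_one]
      rw [this]
      calc r * (c * r ^ (-(2 - 4 / q)) * (W R - W r)) ≤ r * (c * r ^ (-(2 - 4 / q)) * M) := by gcongr
        _ = _ := by ring
    · have e1 : N1 (ci g r) = 0 := by
        unfold N1
        have : ∀ θ, ‖ci g r θ‖ₑ = 0 := by
          intro θ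
          have e3 : ci g r θ = 0 := by
            unfold ci
            apply hg
            rw [norm_pol _ _ hr]
            exact not_lt.1 hrR
          rw [e3, enorm_zero]
        simp [this]
      rw [e1, mul_zero]
      exact zero_le
  · rw [indicator_of_notMem (show r ∉ Ioi (0 : ℝ) from hr)]
    exact zero_le

/-- the weighted bounded variation theorem, centre at the origin -/
theorem wbv (q : ℝ) (hq : 3 < q) : ∃ C : ℝ, 0 < C ∧ ∀ (g : ℂ → ℂ) (W : ℝ → ℝ) (M : ℝ), WBV q g W M →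
    ∀ (R : ℝ), 0 < R → (∀ ξ, R ≤ ‖ξ‖ → g ξ = 0) → LL q g ≤ ENNReal.ofReal (C * M) := by
  obtain ⟨C, hC, h⟩ := stp_LL q hq
  refine ⟨C, hC, ?_⟩
  intro g W M hW R hR hg
  have hgi := hW.int hq R hR hg
  have hconv := stp_conv q hq g W M hW R hR hg
  -- eventually integrable
  have hne : ∀ᶠ n : ℕ in atTop, ∫⁻ ξ, ‖stp g R (n + 1) ξ - g ξ‖ₑ < 1 :=
    hconv.eventually (gt_mem_nhds one_pos)
  obtain ⟨n0, hn0⟩ := eventually_atTop.1 hne
  have hint : ∀ n, Integrable (stp g R (n + n0 + 1)) := by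
    intro n
    have h1 : Integrable fun ξ => stp g R (n + n0 + 1) ξ - g ξ := by
      refine ⟨((stp_meas g hW.meas R _).sub hW.meas).aestronglyMeasurable, ?_⟩
      rw [hasFiniteIntegral_iff_enorm]
      exact (hn0 (n + n0) (by omega)).trans (by norm_num)
    have h2 := h1.add hgi
    refine h2.congr (Filter.Eventually.of_forall fun ξ => ?_)
    simp
  refine LL_lim q (by linarith) g (fun n => stp g R (n + n0 + 1)) hgi hint
    (fun n => stp_meas g hW.meas R _) ?_ _ (fun n => h g W M hW R hR (n + n0 + 1) (by omega))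
  exact hconv.comp (tendsto_add_atTop_nat n0)

end Pool.Agent.Y250.AN
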