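import Mathlib
import Pool.Agent.Y250.AN.E6
set_option autoImplicit false

/-! Arbitrary centres and real coordinates. -/

namespace Pool.Agent.Y250.AN

open MeasureTheory Set Complex Filter Topology
open scoped ENNReal NNReal ContDiff

lemma nsq (z : ℂ) : ‖z‖ ^ 2 = z.re ^ 2 + z.im ^ 2 := by
  rw [← Complex.normSq_eq_norm_sq, Complex.normSq_apply]
  ring

lemma Ext_shift (g : ℂ → ℂ) (c x : ℂ) (t : ℝ) :
    ‖Ext (fun ξ => g (ξ - c)) (x, t)‖ₑ = ‖Ext g (x + (2 * t : ℝ) • c, t)‖ₑ := by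
  have e : Ext (fun ξ => g (ξ - c)) (x, t) = ee (-(dt x c + t * ‖c‖ ^ 2)) * Ext g (x + (2 * t : ℝ) • c, t) := by
    unfold Ext
    rw [← integral_const_mul]
    have h := integral_sub_right_eq_self (μ := (volume : Measure ℂ))
      (fun η => ee (-(dt x (η + c) + t * ‖η + c‖ ^ 2)) * g η) c
    simp only [sub_add_cancel] at h
    rw [h]
    apply integral_congr_ae
    refine Filter.Eventually.of_forall fun η => ?_
    simp only
    rw [← mul_assoc, ← ee_add]
    congr 2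
    rw [nsq, nsq, nsq]
    unfold dt
    simp only [Complex.add_re, Complex.add_im, Complex.smul_re, Complex.smul_im, smul_eq_mul]
    ring
  rw [e, enorm_mul]
  have : ‖ee (-(dt x c + t * ‖c‖ ^ 2))‖ₑ = 1 := by
    rw [← ofReal_norm, norm_ee, ENNReal.ofReal_one]
  rw [this, one_mul]

lemma LL_shift (q : ℝ) (g : ℂ → ℂ) (hg : Measurable g) (c : ℂ) : LL q (fun ξ => g (ξ - c)) = LL q g := by
  unfold LL
  congr 1
  have hgm : Measurable fun ξ : ℂ => g (ξ - c) := hg.comp (measurable_id.sub_const c)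
  have hm := (Ext_meas g hg).enorm.pow_const q
  have hm2 := (Ext_meas _ hgm).enorm.pow_const q
  rw [Measure.volume_eq_prod, lintegral_prod_symm' _ hm, lintegral_prod_symm' _ hm2]
  apply lintegral_congr
  intro t
  simp only [Ext_shift]
  exact lintegral_add_right_eq_self (μ := (volume : Measure ℂ)) (fun x => ‖Ext g (x, t)‖ₑ ^ q) _

/-- the extension operator in real coordinates -/
noncomputable def ex (U : Set (ℝ × ℝ)) (f : ℝ × ℝ → ℂ) (ξ : ℝ × ℝ × ℝ) : ℂ :=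
  ∫ x in U, cexp (-((x.1 * ξ.1 + x.2 * ξ.2.1 + (x.1 ^ 2 + x.2 ^ 2) * ξ.2.2 : ℝ) : ℂ) * I) * f x

/-- real coordinates -/
def tc (z : ℂ) : ℝ × ℝ := (z.re, z.im)

lemma tc_mp : MeasurePreserving tc volume volume := Complex.volume_preserving_equiv_real_prod

lemma tc_emb : MeasurableEmbedding tc := Complex.measurableEquivRealProd.measurableEmbedding

lemma ex_eq (U : Set (ℝ × ℝ)) (f : ℝ × ℝ → ℂ) (hf : ∀ x, x ∉ U → f x = 0) (x : ℂ) (t : ℝ) :
    ex U f (x.re, x.im, t) = Ext (fun z => f (tc z)) (x, t) := by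
  unfold ex Ext
  rw [setIntegral_eq_integral_of_forall_compl_eq_zero (fun y hy => by rw [hf y hy, mul_zero]),
    ← tc_mp.integral_comp tc_emb]
  apply integral_congr_ae
  refine Filter.Eventually.of_forall fun z => ?_
  simp only
  congr 1
  unfold ee tc
  rw [nsq]
  unfold dt
  congr 1
  push_cast
  ring

/-- the coordinates of space -/
def sp (p : ℂ × ℝ) : ℝ × ℝ × ℝ := (p.1.re, p.1.im, p.2)

lemma sp_mp : MeasurePreserving sp volume volume := by
  have h1 : MeasurePreserving (Prod.map tc (id : ℝ → ℝ)) (volume : Measure (ℂ × ℝ)) (volume : Measure ((ℝ × ℝ) × ℝ)) :=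
    tc_mp.prod (MeasurePreserving.id volume)
  have h2 : MeasurePreserving (MeasurableEquiv.prodAssoc : (ℝ × ℝ) × ℝ ≃ᵐ ℝ × ℝ × ℝ) volume volume :=
    volume_preserving_prodAssoc
  exact h2.comp h1

lemma ex_meas (U : Set (ℝ × ℝ)) (f : ℝ × ℝ → ℂ) (hfm : Measurable f) (hf : ∀ x, x ∉ U → f x = 0) :
    Measurable (ex U f) := by
  have h : ex U f = fun ξ : ℝ × ℝ × ℝ => Ext (fun z => f (tc z)) ((ξ.1 : ℂ) + (ξ.2.1 : ℂ) * I, ξ.2.2) := by
    ext ξ
    rw [← ex_eq U f hf]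
    congr 1
    simp
  rw [h]
  apply (Ext_meas _ (hfm.comp tc_mp.measurable)).comp
  have h1 : Measurable fun ξ : ℝ × ℝ × ℝ => ((ξ.1 : ℂ) + (ξ.2.1 : ℂ) * I) := by fun_prop
  exact h1.prodMk (measurable_snd.comp measurable_snd)

lemma ex_norm (q : ℝ) (hq : 0 < q) (U : Set (ℝ × ℝ)) (f : ℝ × ℝ → ℂ) (hfm : Measurable f) (hf : ∀ x, x ∉ U → f x = 0) :
    eLpNorm (ex U f) (ENNReal.ofReal q) volume = LL q (fun z => f (tc z)) := by
  rw [eLpNorm_eq_lintegral_rpow_enorm_toReal (by simpa using hq) ENNReal.ofReal_ne_top, ENNReal.toReal_ofReal hq.le]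
  unfold LL
  congr 1
  rw [← sp_mp.lintegral_comp ((ex_meas U f hfm hf).enorm.pow_const q)]
  apply lintegral_congr
  intro p
  have h := ex_eq U f hf p.1 p.2
  unfold sp
  rw [h]

/-- points on circles -/
noncomputable def cir (c : ℝ × ℝ) (r θ : ℝ) : ℝ × ℝ := (c.1 + r * Real.cos θ, c.2 + r * Real.sin θ)

lemma cir_eq (c : ℝ × ℝ) (r θ : ℝ) : tc ((r : ℂ) * ee θ + ((c.1 : ℂ) + (c.2 : ℂ) * I)) = cir c r θ := by
  unfold tc cir
  have h1 : ((r : ℂ) * ee θ).re = r * Real.cos θ := by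
    rw [Complex.re_ofReal_mul, ee_re]
  have h2 : ((r : ℂ) * ee θ).im = r * Real.sin θ := by
    rw [Complex.im_ofReal_mul, ee_im]
  simp only [Complex.add_re, Complex.add_im, h1, h2]
  simp
  constructor <;> ring

lemma Iq_eq (q : ℝ) (hq : 0 < q) (b : ℝ → ℂ) :
    Iq q b ^ (1 / q) = eLpNorm b (ENNReal.ofReal q) (volume.restrict (Ioo (-Real.pi) Real.pi)) := by
  rw [eLpNorm_eq_lintegral_rpow_enorm_toReal (by simpa using hq) ENNReal.ofReal_ne_top, ENNReal.toReal_ofReal hq.le]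
  rfl

/-- Weighted bounded variation in the radius, rough in the angle. -/
theorem partA (q : ℝ) (hq : 3 < q) : ∃ C : ℝ, 0 < C ∧ ∀ (U : Set (ℝ × ℝ)), Bornology.IsBounded U →
    ∀ f : ℝ × ℝ → ℂ, Measurable f → (∀ x, x ∉ U → f x = 0) → ∀ (c : ℝ × ℝ) (W : ℝ → ℝ) (M : ℝ),
    MonotoneOn W (Ioi 0) → (∀ r s, 0 < r → r ≤ s → W s - W r ≤ M) →
    (∀ r s, 0 < r → r ≤ s → ENNReal.ofReal (r ^ (2 - 4 / q)) *
      eLpNorm (fun θ => f (cir c s θ) - f (cir c r θ)) (ENNReal.ofReal q)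
        (volume.restrict (Ioo (-Real.pi) Real.pi)) ≤ ENNReal.ofReal (W s - W r)) →
    eLpNorm (ex U f) (ENNReal.ofReal q) volume ≤ ENNReal.ofReal (C * M) := by
  obtain ⟨C, hC, h⟩ := wbv q hq
  refine ⟨C, hC, ?_⟩
  intro U hU f hfm hf c W M hW hM hv
  have hq0 : 0 < q := by linarith
  rw [ex_norm q hq0 U f hfm hf]
  set z0 : ℂ := (c.1 : ℂ) + (c.2 : ℂ) * I with hz0
  set g : ℂ → ℂ := fun z => f (tc (z + z0)) with hg
  have hgm : Measurable g := hfm.comp (tc_mp.measurable.comp (measurable_id.add_const z0))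
  have e1 : (fun z => f (tc z)) = fun z => g (z - z0) := by
    ext z
    simp only [hg]
    rw [sub_add_cancel]
  rw [e1, LL_shift q g hgm]
  obtain ⟨ρ, hρ⟩ := hU.subset_closedBall 0
  have hci : ∀ r θ, ci g r θ = f (cir c r θ) := by
    intro r θ
    unfold ci
    simp only [hg]
    rw [cir_eq]
  refine h g W M ⟨hgm, hW, hM, ?_⟩ (2 * |ρ| + ‖z0‖ + 1) (by positivity) ?_
  · intro r s hr hs
    rw [Iq_eq q hq0]
    simp only [hci]
    exact hv r s hr hs
  · intro z hz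
    simp only [hg]
    apply hf
    intro hin
    have h1 := hρ hin
    rw [mem_closedBall_zero_iff, Prod.norm_def, max_le_iff] at h1
    have h2 : ‖z + z0‖ ≤ |(z + z0).re| + |(z + z0).im| := Complex.norm_le_abs_re_add_abs_im _
    have h3 : |(z + z0).re| ≤ ρ := h1.1
    have h4 : |(z + z0).im| ≤ ρ := h1.2
    have h5 : ‖z‖ ≤ ‖z + z0‖ + ‖z0‖ := by
      calc ‖z‖ = ‖(z + z0) - z0‖ := by rw [add_sub_cancel_right]
        _ ≤ _ := norm_sub_le _ _
    have h6 := le_abs_self ρ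
    linarith

end Pool.Agent.Y250.AN
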