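import Mathlib
import Pool.Agent.Y250.AN.E7
set_option autoImplicit false

/-! Products of an arbitrary angular function and a decreasing radial function. -/

namespace Pool.Agent.Y250.AN

open MeasureTheory Set Complex Filter Topology
open scoped ENNReal NNReal ContDiff

/-- the radial moment -/
noncomputable def Jq (q : ℝ) (k : ℝ → ℝ) : ℝ≥0∞ := ∫⁻ r in Ioi (0 : ℝ), ENNReal.ofReal r * ENNReal.ofReal (k r) ^ q

lemma k_dec (q : ℝ) (hq : 0 < q) (k : ℝ → ℝ) (hk : AntitoneOn k (Ioi 0)) (hk0 : ∀ r, 0 < r → 0 ≤ k r)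
    (hJ : Jq q k ≠ ⊤) (r : ℝ) (hr : 0 < r) : k r ≤ (2 * (Jq q k).toReal) ^ (1 / q) * r ^ (-(2 / q)) := by
  have h1 : ENNReal.ofReal (k r ^ q * (r ^ 2 / 2)) ≤ Jq q k := by
    have e1 : ∫⁻ ρ in Ioo 0 r, ENNReal.ofReal ρ = ENNReal.ofReal (r ^ 2 / 2) := by
      rw [← ofReal_integral_eq_lintegral_ofReal]
      · congr 1
        rw [← integral_Ioc_eq_integral_Ioo, ← intervalIntegral.integral_of_le hr.le, integral_id]
        ring
      · exact (continuous_id.integrableOn_Icc (a := 0) (b := r)).mono_set Ioo_subset_Icc_self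
      · filter_upwards [ae_restrict_mem measurableSet_Ioo] with ρ hρ using hρ.1.le
    calc ENNReal.ofReal (k r ^ q * (r ^ 2 / 2)) = ENNReal.ofReal (k r ^ q) * ∫⁻ ρ in Ioo 0 r, ENNReal.ofReal ρ := by
          rw [e1, ENNReal.ofReal_mul (Real.rpow_nonneg (hk0 r hr) _)]
      _ = ∫⁻ ρ in Ioo 0 r, ENNReal.ofReal (k r ^ q) * ENNReal.ofReal ρ := by
          rw [lintegral_const_mul' _ _ ENNReal.ofReal_ne_top]
      _ ≤ ∫⁻ ρ in Ioo 0 r, ENNReal.ofReal ρ * ENNReal.ofReal (k ρ) ^ q := by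
          apply setLIntegral_mono' measurableSet_Ioo
          intro ρ hρ
          rw [mul_comm, ← ENNReal.ofReal_rpow_of_nonneg (hk0 r hr) hq.le]
          apply mul_le_mul_right
          apply ENNReal.rpow_le_rpow _ hq.le
          exact ENNReal.ofReal_le_ofReal (hk hρ.1 hr hρ.2.le)
      _ ≤ _ := lintegral_mono_set fun x hx => hx.1
  have h2 : k r ^ q * (r ^ 2 / 2) ≤ (Jq q k).toReal := by
    rw [← ENNReal.ofReal_toReal hJ] at h1
    exact (ENNReal.ofReal_le_ofReal_iff ENNReal.toReal_nonneg).1 h1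
  have hr2 : 0 < r ^ (2 : ℝ) := by positivity
  have h3 : k r ^ q ≤ (2 * (Jq q k).toReal) * (r ^ (2 : ℝ))⁻¹ := by
    rw [← div_eq_mul_inv, le_div_iff₀ hr2, Real.rpow_two]
    linarith
  have hJ0 : 0 ≤ (Jq q k).toReal := ENNReal.toReal_nonneg
  calc k r = (k r ^ q) ^ (1 / q) := by
        rw [← Real.rpow_mul (hk0 r hr), mul_one_div_cancel hq.ne', Real.rpow_one]
    _ ≤ ((2 * (Jq q k).toReal) * (r ^ (2 : ℝ))⁻¹) ^ (1 / q) :=
        Real.rpow_le_rpow (Real.rpow_nonneg (hk0 r hr) _) h3 (by positivity)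
    _ = _ := by
        rw [Real.mul_rpow (by positivity) (by positivity), ← Real.rpow_neg hr.le, ← Real.rpow_mul hr.le]
        congr 2
        ring

/-- measurable version of a monotone radial function -/
lemma k_meas (k : ℝ → ℝ) (hk : AntitoneOn k (Ioi 0)) (hk0 : ∀ r, 0 < r → 0 ≤ k r) :
    Measurable fun r => if 0 < r then k r else 0 := by
  set K : ℝ → ℝ := fun r => if 0 < r then (1 + k r)⁻¹ else 0 with hK
  have hKm : Monotone K := by
    intro r s hrs
    simp only [hK]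
    split_ifs with h1 h2 h2
    · have a1 := hk0 r h1
      have a2 := hk0 s h2
      have a3 := hk h1 h2 hrs
      gcongr
    · exact absurd (h1.trans_le hrs) h2
    · have a2 := hk0 s h2
      positivity
    · exact le_rfl
  have e : (fun r => if 0 < r then k r else 0) = fun r => if 0 < r then (K r)⁻¹ - 1 else 0 := by
    ext r
    simp only [hK]
    split_ifs with h
    · rw [inv_inv]
      ring
    · rfl
  rw [e]
  refine Measurable.ite measurableSet_Ioi ?_ measurable_const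
  exact hKm.measurable.inv.sub_const 1

/-- the potential -/
noncomputable def Wk (a : ℝ) (k : ℝ → ℝ) (r : ℝ) : ℝ := -(r ^ a * k r) + a * ∫ ρ in (0 : ℝ)..r, ρ ^ (a - 1) * k ρ

lemma Wk_prop (q : ℝ) (hq : 3 < q) (k : ℝ → ℝ) (hk : AntitoneOn k (Ioi 0)) (hk0 : ∀ r, 0 < r → 0 ≤ k r)
    (hJ : Jq q k ≠ ⊤) :
    ∀ r s, 0 < r → r ≤ s → s ≤ 2 →
      (r ^ (2 - 4 / q) * (k r - k s) ≤ Wk (2 - 4 / q) k s - Wk (2 - 4 / q) k r) ∧
      Wk (2 - 4 / q) k s - Wk (2 - 4 / q) k r ≤
        (2 * (Jq q k).toReal) ^ (1 / q) * ((2 : ℝ) ^ (2 - 6 / q) + (2 - 4 / q) * ((2 : ℝ) ^ (2 - 6 / q) / (2 - 6 / q))) := by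
  intro r s hr hrs hs2
  have hq0 : 0 < q := by linarith
  set a : ℝ := 2 - 4 / q with ha
  set e : ℝ := 2 - 6 / q with he
  have he0 : 0 < e := by
    have : 6 / q < 2 := by rw [div_lt_iff₀ hq0]; linarith
    linarith
  have hae : a = e + 2 / q := by rw [ha, he]; ring
  have ha0 : 0 < a := by rw [hae]; positivity
  set A : ℝ := (2 * (Jq q k).toReal) ^ (1 / q) with hA
  have hA0 : 0 ≤ A := by positivity
  have hs : 0 < s := hr.trans_le hrs
  have hkd : ∀ ρ, 0 < ρ → k ρ ≤ A * ρ ^ (-(2 / q)) := fun ρ hρ => k_dec q hq0 k hk hk0 hJ ρ hρ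
  have hpt : ∀ ρ, 0 < ρ → ρ ^ (a - 1) * k ρ ≤ A * ρ ^ (e - 1) := by
    intro ρ hρ
    calc ρ ^ (a - 1) * k ρ ≤ ρ ^ (a - 1) * (A * ρ ^ (-(2 / q))) :=
          mul_le_mul_of_nonneg_left (hkd ρ hρ) (by positivity)
      _ = A * (ρ ^ (a - 1) * ρ ^ (-(2 / q))) := by ring
      _ = _ := by rw [← Real.rpow_add hρ, hae]; congr 2; ring
  have hint0 : ∀ x, 0 < x → IntervalIntegrable (fun ρ => ρ ^ (a - 1) * k ρ) volume 0 x := by
    intro x hx
    have h1 : IntervalIntegrable (fun ρ : ℝ => A * ρ ^ (e - 1)) volume 0 x :=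
      (intervalIntegral.intervalIntegrable_rpow' (by linarith)).const_mul A
    rw [intervalIntegrable_iff_integrableOn_Ioc_of_le hx.le] at h1 ⊢
    refine Integrable.mono' h1 ?_ ?_
    · have hm := k_meas k hk hk0
      have h2 : Measurable fun ρ : ℝ => ρ ^ (a - 1) * (if 0 < ρ then k ρ else 0) := by
        have : Measurable fun ρ : ℝ => ρ ^ (a - 1) := by fun_prop
        exact this.mul hm
      refine h2.aestronglyMeasurable.congr ?_
      filter_upwards [ae_restrict_mem measurableSet_Ioc] with ρ hρ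
      rw [if_pos hρ.1]
    · filter_upwards [ae_restrict_mem measurableSet_Ioc] with ρ hρ
      have := hk0 ρ hρ.1
      have h3 : 0 ≤ ρ ^ (a - 1) := Real.rpow_nonneg hρ.1.le _
      rw [Real.norm_eq_abs, abs_of_nonneg (by positivity)]
      exact hpt ρ hρ.1
  have hdiff : (∫ ρ in (0 : ℝ)..s, ρ ^ (a - 1) * k ρ) - (∫ ρ in (0 : ℝ)..r, ρ ^ (a - 1) * k ρ) =
      ∫ ρ in r..s, ρ ^ (a - 1) * k ρ :=
    intervalIntegral.integral_interval_sub_left (hint0 s hs) (hint0 r hr)
  have hirs : IntervalIntegrable (fun ρ => ρ ^ (a - 1) * k ρ) volume r s :=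
    (hint0 r hr).symm.trans (hint0 s hs)
  have hirp : ∀ p : ℝ, IntervalIntegrable (fun ρ : ℝ => ρ ^ p) volume r s := by
    intro p
    apply intervalIntegral.intervalIntegrable_rpow
    right
    rw [uIcc_of_le hrs]
    intro h
    linarith [h.1]
  have hW : Wk a k s - Wk a k r = r ^ a * k r - s ^ a * k s + a * ∫ ρ in r..s, ρ ^ (a - 1) * k ρ := by
    unfold Wk
    rw [← hdiff]
    ring
  have low : k s * ((s ^ a - r ^ a) / a) ≤ ∫ ρ in r..s, ρ ^ (a - 1) * k ρ := by
    have h1 : ∫ ρ in r..s, ρ ^ (a - 1) * k s = k s * ((s ^ a - r ^ a) / a) := by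
      rw [intervalIntegral.integral_mul_const, integral_rpow (Or.inl (by linarith)), sub_add_cancel]
      ring
    rw [← h1]
    apply intervalIntegral.integral_mono_on hrs ((hirp _).mul_const _) hirs
    intro ρ hρ
    have hρ0 : 0 < ρ := hr.trans_le hρ.1
    exact mul_le_mul_of_nonneg_left (hk hρ0 hs hρ.2) (by positivity)
  have up : ∫ ρ in r..s, ρ ^ (a - 1) * k ρ ≤ A * ((2 : ℝ) ^ e / e) := by
    have h1 : ∫ ρ in r..s, A * ρ ^ (e - 1) = A * ((s ^ e - r ^ e) / e) := by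
      rw [intervalIntegral.integral_const_mul, integral_rpow (Or.inl (by linarith)), sub_add_cancel]
    calc ∫ ρ in r..s, ρ ^ (a - 1) * k ρ ≤ ∫ ρ in r..s, A * ρ ^ (e - 1) := by
          apply intervalIntegral.integral_mono_on hrs hirs ((hirp _).const_mul _)
          intro ρ hρ
          exact hpt ρ (hr.trans_le hρ.1)
      _ = A * ((s ^ e - r ^ e) / e) := h1
      _ ≤ _ := by
          have h2 : s ^ e ≤ (2 : ℝ) ^ e := Real.rpow_le_rpow hs.le hs2 he0.le
          have h3 : 0 ≤ r ^ e := by positivity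
          gcongr
          linarith
  have hks := hk0 s hs
  have hkr := hk0 r hr
  have hsa : 0 < s ^ a := by positivity
  rw [hW]
  constructor
  · have h1 : k s * (s ^ a - r ^ a) ≤ a * ∫ ρ in r..s, ρ ^ (a - 1) * k ρ := by
      have := mul_le_mul_of_nonneg_left low ha0.le
      calc k s * (s ^ a - r ^ a) = a * (k s * ((s ^ a - r ^ a) / a)) := by field_simp
        _ ≤ _ := this
    nlinarith
  · have h1 : r ^ a * k r ≤ A * (2 : ℝ) ^ e := by
      calc r ^ a * k r ≤ r ^ a * (A * r ^ (-(2 / q))) := mul_le_mul_of_nonneg_left (hkd r hr) (by positivity)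
        _ = A * (r ^ a * r ^ (-(2 / q))) := by ring
        _ = A * r ^ e := by rw [← Real.rpow_add hr, hae]; congr 2; ring
        _ ≤ _ := by
            have : r ^ e ≤ (2 : ℝ) ^ e := Real.rpow_le_rpow hr.le (hrs.trans hs2) he0.le
            gcongr
    have h2 : 0 ≤ s ^ a * k s := by positivity
    have h3 := mul_le_mul_of_nonneg_left up ha0.le
    calc _ ≤ A * (2 : ℝ) ^ e + a * (A * ((2 : ℝ) ^ e / e)) := by linarith
      _ = _ := by ring

end Pool.Agent.Y250.AN
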