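import Mathlib
import Pool.Agent.Y250.AN.E8
set_option autoImplicit false

/-! The extension inequality for products of an angular and a decreasing radial function. -/

namespace Pool.Agent.Y250.AN

open MeasureTheory Set Complex Filter Topology
open scoped ENNReal NNReal ContDiff

/-- complex version of the radial factor -/
noncomputable def kc (k : ℝ → ℝ) (r : ℝ) : ℂ := ((if 0 < r then k r else 0 : ℝ) : ℂ)

lemma kc_meas (k : ℝ → ℝ) (hk : AntitoneOn k (Ioi 0)) (hk0 : ∀ r, 0 < r → 0 ≤ k r) : Measurable (kc k) :=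
  Complex.measurable_ofReal.comp (k_meas k hk hk0)

lemma Iq_smul (q : ℝ) (hq : 0 < q) (b : ℝ → ℂ) (c : ℂ) :
    Iq q (fun θ => b θ * c) ^ (1 / q) = ‖c‖ₑ * Iq q b ^ (1 / q) := by
  have e : Iq q (fun θ => b θ * c) = ‖c‖ₑ ^ q * Iq q b := by
    unfold Iq
    rw [← lintegral_const_mul' _ _ (ENNReal.rpow_ne_top_of_nonneg hq.le enorm_ne_top)]
    apply lintegral_congr
    intro θ
    rw [enorm_mul, ENNReal.mul_rpow_of_nonneg _ _ hq.le, mul_comm]
  rw [e, ENNReal.mul_rpow_of_nonneg _ _ (by positivity), ← ENNReal.rpow_mul, mul_one_div_cancel hq.ne', ENNReal.rpow_one]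

lemma prodLL (q : ℝ) (hq : 3 < q) : ∃ C : ℝ, 0 < C ∧ ∀ (b : ℝ → ℂ), Measurable b → ∀ k : ℝ → ℝ,
    AntitoneOn k (Ioi 0) → (∀ r, 0 < r → 0 ≤ k r) → (∀ r, 1 < r → k r = 0) → Iq q b ≠ ⊤ → Jq q k ≠ ⊤ →
    LL q (pf b (kc k)) ≤ ENNReal.ofReal C * (Iq q b * Jq q k) ^ (1 / q) := by
  obtain ⟨C, hC, h⟩ := wbv q hq
  have hq0 : 0 < q := by linarith
  set K0 : ℝ := (2 : ℝ) ^ (2 - 6 / q) + (2 - 4 / q) * ((2 : ℝ) ^ (2 - 6 / q) / (2 - 6 / q)) with hK0
  have he0 : 0 < 2 - 6 / q := by
    have : 6 / q < 2 := by rw [div_lt_iff₀ hq0]; linarith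
    linarith
  have ha0 : 0 < 2 - 4 / q := by
    have : 4 / q < 2 := by rw [div_lt_iff₀ hq0]; linarith
    linarith
  have hK : 0 < K0 := by positivity
  refine ⟨C * K0 * 2 ^ (1 / q), by positivity, ?_⟩
  intro b hb k hk hk0 hk1 hI hJ
  set B : ℝ := (Iq q b ^ (1 / q)).toReal with hB
  have hIt : Iq q b ^ (1 / q) ≠ ⊤ := ENNReal.rpow_ne_top_of_nonneg (by positivity) hI
  have hBe : ENNReal.ofReal B = Iq q b ^ (1 / q) := ENNReal.ofReal_toReal hIt
  have hB0 : 0 ≤ B := ENNReal.toReal_nonneg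
  set a : ℝ := 2 - 4 / q with ha
  set A : ℝ := (2 * (Jq q k).toReal) ^ (1 / q) with hA
  have hm2 : ∀ r : ℝ, 0 < r → 0 < min r 2 := fun r hr => lt_min hr (by norm_num)
  have hk2 : ∀ r, 0 < r → k (min r 2) = k r := by
    intro r hr
    rcases le_total r 2 with h2 | h2
    · rw [min_eq_left h2]
    · rw [min_eq_right h2, hk1 2 (by norm_num), hk1 r (by linarith)]
  have hWBV : WBV q (pf b (kc k)) (fun r => B * Wk a k (min r 2)) (B * (A * K0)) := by
    have hp : ∀ r s, 0 < r → r ≤ s → ((min r 2) ^ a * (k r - k s) ≤ Wk a k (min s 2) - Wk a k (min r 2)) ∧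
        Wk a k (min s 2) - Wk a k (min r 2) ≤ A * K0 := by
      intro r s hr hs
      have := Wk_prop q hq k hk hk0 hJ (min r 2) (min s 2) (hm2 r hr) (min_le_min_right 2 hs) (min_le_right _ _)
      rw [hk2 r hr, hk2 s (hr.trans_le hs)] at this
      exact this
    refine ⟨pf_meas b _ hb (kc_meas k hk hk0), ?_, ?_, ?_⟩
    · intro r hr s hs hrs
      have h1 := (hp r s hr hrs).1
      have h2 : 0 ≤ k r - k s := sub_nonneg.2 (hk hr hs hrs)
      have h3 : 0 < (min r 2) ^ a := Real.rpow_pos_of_pos (hm2 r hr) _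
      simp only
      apply mul_le_mul_of_nonneg_left _ hB0
      nlinarith
    · intro r s hr hs
      have h1 := (hp r s hr hs).2
      beta_reduce
      calc B * Wk a k (min s 2) - B * Wk a k (min r 2) = B * (Wk a k (min s 2) - Wk a k (min r 2)) := by ring
        _ ≤ _ := mul_le_mul_of_nonneg_left h1 hB0
    · intro r s hr hs
      have hs0 : 0 < s := hr.trans_le hs
      have e1 : Iq q (fun θ => ci (pf b (kc k)) s θ - ci (pf b (kc k)) r θ) =
          Iq q (fun θ => b θ * (((k s - k r : ℝ)) : ℂ)) := by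
        unfold Iq
        apply setLIntegral_congr_fun measurableSet_Ioo
        intro θ hθ
        simp only
        congr 2
        unfold ci pf
        rw [arg_pol _ _ hs0 hθ, arg_pol _ _ hr hθ, norm_pol _ _ hs0, norm_pol _ _ hr]
        unfold kc
        rw [if_pos hs0, if_pos hr]
        push_cast
        ring
      have h2 : 0 ≤ k r - k s := sub_nonneg.2 (hk hr hs0 hs)
      have e2 : ‖(((k s - k r : ℝ)) : ℂ)‖ₑ = ENNReal.ofReal (k r - k s) := by
        rw [← ofReal_norm, Complex.norm_real, Real.norm_eq_abs, abs_sub_comm, abs_of_nonneg h2]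
      rw [e1, Iq_smul q hq0, e2, ← hBe, ← ENNReal.ofReal_mul h2, ← ENNReal.ofReal_mul (by positivity)]
      apply ENNReal.ofReal_le_ofReal
      have h3 : r ^ a * (k r - k s) ≤ (min r 2) ^ a * (k r - k s) := by
        rcases le_total r 2 with h4 | h4
        · rw [min_eq_left h4]
        · rw [hk1 r (by linarith), hk1 s (by linarith)]
          simp
      have h5 := (hp r s hr hs).1
      calc r ^ a * ((k r - k s) * B) = (r ^ a * (k r - k s)) * B := by ring
        _ ≤ (Wk a k (min s 2) - Wk a k (min r 2)) * B := by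
            apply mul_le_mul_of_nonneg_right _ hB0
            linarith
        _ = _ := by ring
  have hmain := h _ _ _ hWBV 2 (by norm_num) (by
    intro ξ hξ
    unfold pf kc
    rw [if_pos (by linarith), hk1 _ (by linarith)]
    simp)
  refine hmain.trans (le_of_eq ?_)
  rw [ENNReal.mul_rpow_of_nonneg _ _ (by positivity), ← hBe]
  have eJ : Jq q k ^ (1 / q) = ENNReal.ofReal ((Jq q k).toReal ^ (1 / q)) := by
    rw [← ENNReal.ofReal_rpow_of_nonneg ENNReal.toReal_nonneg (by positivity), ENNReal.ofReal_toReal hJ]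
  rw [eJ, ← ENNReal.ofReal_mul hB0, ← ENNReal.ofReal_mul (by positivity)]
  congr 1
  rw [hA, Real.mul_rpow (by norm_num) ENNReal.toReal_nonneg]
  ring

lemma LL_congr (q : ℝ) (f g : ℂ → ℂ) (h : f =ᵐ[volume] g) : LL q f = LL q g := by
  unfold LL Ext
  congr 1
  apply lintegral_congr
  intro p
  congr 2
  apply integral_congr_ae
  filter_upwards [h] with ξ hξ
  rw [hξ]

lemma LL_zero (q : ℝ) (hq : 1 ≤ q) : LL q (fun _ => 0) = 0 := by
  have h : ∀ p, Ext (fun _ => (0 : ℂ)) p = 0 := by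
    intro p
    unfold Ext
    simp
  unfold LL
  simp only [h, enorm_zero]
  rw [ENNReal.zero_rpow_of_pos (by linarith), lintegral_zero, ENNReal.zero_rpow_of_pos (by positivity)]

theorem partB (q : ℝ) (hq : 3 < q) : ∃ C : ℝ, 0 < C ∧ ∀ (U : Set (ℝ × ℝ)), MeasurableSet U →
    (∀ x ∈ U, x.1 ^ 2 + x.2 ^ 2 ≤ 1 / 4) →
    ∀ f : ℝ × ℝ → ℂ, Measurable f → (∀ x, x ∉ U → f x = 0) → ∀ (c : ℝ × ℝ) (b : ℝ → ℂ) (k : ℝ → ℝ),
    Measurable b → AntitoneOn k (Ioi 0) → (∀ r, 0 < r → 0 ≤ k r) →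
    (∀ r, 0 < r → ∀ θ ∈ Ioc (-Real.pi) Real.pi, f (cir c r θ) = b θ * k r) →
    eLpNorm (ex U f) (ENNReal.ofReal q) volume ≤
      ENNReal.ofReal C * eLpNorm f (ENNReal.ofReal q) (volume.restrict U) := by
  obtain ⟨C, hC, h⟩ := prodLL q hq
  refine ⟨C, hC, ?_⟩
  intro U hUm hU f hfm hf c b k hb hk hk0 hfbk
  have hq0 : 0 < q := by linarith
  rw [ex_norm q hq0 U f hfm hf]
  set z0 : ℂ := (c.1 : ℂ) + (c.2 : ℂ) * I with hz0
  set g : ℂ → ℂ := fun z => f (tc (z + z0)) with hg
  have hgm : Measurable g := hfm.comp (tc_mp.measurable.comp (measurable_id.add_const z0))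
  have e1 : (fun z => f (tc z)) = fun z => g (z - z0) := by
    ext z
    simp only [hg]
    rw [sub_add_cancel]
  have hgpf : ∀ z : ℂ, z ≠ 0 → g z = pf b (kc k) z := by
    intro z hz
    have hn : 0 < ‖z‖ := norm_pos_iff.2 hz
    have e2 : z = (‖z‖ : ℂ) * ee (arg z) := by
      unfold ee
      exact (Complex.norm_mul_exp_arg_mul_I z).symm
    simp only [hg]
    conv_lhs => rw [e2]
    rw [cir_eq, hfbk _ hn _ (Complex.arg_mem_Ioc z)]
    unfold pf kc
    rw [if_pos hn]
  have hae : g =ᵐ[volume] pf b (kc k) := by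
    have h3 : ∀ᵐ ξ : ℂ, ξ ≠ 0 := by
      rw [ae_iff]
      simp only [not_not]
      exact measure_singleton (0 : ℂ)
    filter_upwards [h3] with z hz using hgpf z hz
  -- the right hand side
  have hrhs : eLpNorm f (ENNReal.ofReal q) (volume.restrict U) = (Iq q b * Jq q k) ^ (1 / q) := by
    rw [eLpNorm_eq_lintegral_rpow_enorm_toReal (by simpa using hq0) ENNReal.ofReal_ne_top, ENNReal.toReal_ofReal hq0.le]
    congr 1
    have i1 : ∫⁻ x in U, ‖f x‖ₑ ^ q = ∫⁻ x, ‖f x‖ₑ ^ q := by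
      rw [← lintegral_indicator hUm]
      apply lintegral_congr
      intro x
      by_cases hx : x ∈ U
      · rw [indicator_of_mem hx]
      · rw [indicator_of_notMem hx, hf x hx, enorm_zero, ENNReal.zero_rpow_of_pos hq0]
    have i2 : ∫⁻ x, ‖f x‖ₑ ^ q = ∫⁻ z : ℂ, ‖g z‖ₑ ^ q := by
      rw [← tc_mp.lintegral_comp (hfm.enorm.pow_const q),
        ← lintegral_add_right_eq_self (μ := (volume : Measure ℂ)) (fun z => ‖f (tc z)‖ₑ ^ q) z0]
    have i3 : ∫⁻ z : ℂ, ‖g z‖ₑ ^ q = ∫⁻ z : ℂ, ‖pf b (kc k) z‖ₑ ^ q := by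
      apply lintegral_congr_ae
      filter_upwards [hae] with z hz
      rw [hz]
    rw [i1, i2, i3, pol_norm b (kc k) hb (kc_meas k hk hk0) q hq0.le]
    unfold Iq Jq
    congr 1
    apply setLIntegral_congr_fun measurableSet_Ioi
    intro r hr
    have hr0 : 0 < r := hr
    simp only
    unfold kc
    rw [if_pos hr0, ← ofReal_norm, Complex.norm_real, Real.norm_eq_abs, abs_of_nonneg (hk0 r hr0)]
  rw [hrhs, e1, LL_shift q g hgm, LL_congr q g _ hae]
  rcases eq_or_ne (Iq q b * Jq q k) 0 with hX | hX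
  · -- the function vanishes almost everywhere
    have h1 : ∫⁻ z : ℂ, ‖pf b (kc k) z‖ₑ ^ q = 0 := by
      rw [pol_norm b (kc k) hb (kc_meas k hk hk0) q hq0.le, ← hX]
      unfold Iq Jq
      congr 1
      apply setLIntegral_congr_fun measurableSet_Ioi
      intro r hr
      have hr0 : 0 < r := hr
      simp only
      unfold kc
      rw [if_pos hr0, ← ofReal_norm, Complex.norm_real, Real.norm_eq_abs, abs_of_nonneg (hk0 r hr0)]
    rw [lintegral_eq_zero_iff ((pf_meas b (kc k) hb (kc_meas k hk hk0)).enorm.pow_const q)] at h1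
    have h2 : pf b (kc k) =ᵐ[volume] fun _ => 0 := by
      filter_upwards [h1] with z hz
      have h3 : ‖pf b (kc k) z‖ₑ ^ q = 0 := hz
      rw [ENNReal.rpow_eq_zero_iff_of_pos hq0, enorm_eq_zero] at h3
      exact h3
    rw [LL_congr q _ _ h2, LL_zero q (by linarith)]
    exact zero_le
  · rcases eq_or_ne (Iq q b * Jq q k) ⊤ with hT | hT
    · rw [hT, ENNReal.top_rpow_of_pos (by positivity), ENNReal.mul_top]
      · exact le_top
      · rw [ne_eq, ENNReal.ofReal_eq_zero, not_le]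
        exact hC
    · have hI0 : Iq q b ≠ 0 := left_ne_zero_of_mul hX
      have hJ0 : Jq q k ≠ 0 := right_ne_zero_of_mul hX
      have hIt : Iq q b ≠ ⊤ := fun h2 => hT (by rw [h2, ENNReal.top_mul hJ0])
      have hJt : Jq q k ≠ ⊤ := fun h2 => hT (by rw [h2, ENNReal.mul_top hI0])
      -- a direction in which the angular factor does not vanish
      have hθ : ∃ θ ∈ Ioo (-Real.pi) Real.pi, b θ ≠ 0 := by
        by_contra hc
        push Not at hc
        apply hI0
        unfold Iq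
        rw [setLIntegral_congr_fun (g := fun _ => 0) measurableSet_Ioo]
        · simp
        · intro θ hθ
          simp only
          rw [hc θ hθ, enorm_zero, ENNReal.zero_rpow_of_pos hq0]
      obtain ⟨θ0, hθ0, hb0⟩ := hθ
      have hk1 : ∀ r, 1 < r → k r = 0 := by
        intro r0 hr0
        by_contra hne
        have hpos : 0 < k r0 := lt_of_le_of_ne (hk0 r0 (by linarith)) (Ne.symm hne)
        have hin : ∀ r, 0 < r → r ≤ r0 → cir c r θ0 ∈ U := by
          intro r hr hrr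
          by_contra hnot
          have h1 := hf _ hnot
          rw [hfbk r hr θ0 ⟨hθ0.1, hθ0.2.le⟩] at h1
          have h2 : k r0 ≤ k r := hk hr (show (0 : ℝ) < r0 by linarith) hrr
          rcases mul_eq_zero.1 h1 with h3 | h3
          · exact hb0 h3
          · have : k r = 0 := by exact_mod_cast h3
            linarith
        have u1 := hU _ (hin r0 (by linarith) le_rfl)
        have u2 := hU _ (hin ((r0 - 1) / 2) (by linarith) (by linarith))
        unfold cir at u1 u2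
        simp only at u1 u2
        have hcs := Real.cos_sq_add_sin_sq θ0
        set x1 := c.1 + r0 * Real.cos θ0
        set y1 := c.2 + r0 * Real.sin θ0
        set x2 := c.1 + (r0 - 1) / 2 * Real.cos θ0
        set y2 := c.2 + (r0 - 1) / 2 * Real.sin θ0
        have d1 : (x1 - x2) ^ 2 + (y1 - y2) ^ 2 = ((r0 + 1) / 2) ^ 2 := by
          have : (x1 - x2) ^ 2 + (y1 - y2) ^ 2 = ((r0 + 1) / 2) ^ 2 * (Real.cos θ0 ^ 2 + Real.sin θ0 ^ 2) := by
            simp only [x1, x2, y1, y2]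
            ring
          rw [this, hcs, mul_one]
        nlinarith [sq_nonneg (x1 + x2), sq_nonneg (y1 + y2)]
      exact h b hb k hk hk0 hk1 hIt hJt

end Pool.Agent.Y250.AN
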